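import Mathlib

set_option autoImplicit false

/-!
Parity analogues of the conjectures of Andrica, Brocard and Oppermann:
definitions and the statements of the lemmas (all of them Props, to be proved in separate files).
-/

namespace Pool.Agent.H447R4.PA

/-- completely multiplicative with values 1, -1, and -1 at 2 -/
structure CM (f : ℕ → ℤ) : Prop where
  val : ∀ m, 1 ≤ m → f m = 1 ∨ f m = -1
  mul : ∀ m n, 1 ≤ m → 1 ≤ n → f (m * n) = f m * f n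
  two : f 2 = -1

/-- the m in [u, v] with F m different from F (m + 1) -/
def Jumps (F : ℕ → ℤ) (u v : ℕ) : Finset ℕ := (Finset.Icc u v).filter (fun m => F m ≠ F (m + 1))

/-- F is constant on [y, y + l] -/
def Clean (F : ℕ → ℤ) (l y : ℕ) : Prop := ∀ m, y ≤ m → m < y + l → F m = F (m + 1)

/-- four-term relation with sign s -/
def Sq (F : ℕ → ℤ) (s : ℤ) : Prop := ∀ U V, 1 ≤ U → 1 ≤ V →
  F (U * V) * F ((U + 1) * V) * F (U * (V + 1)) * F ((U + 1) * (V + 1)) = s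

/-- NL: no long run. -/
def S_NL : Prop := ∀ f, CM f → ∀ A a b : ℕ, 1 ≤ a → a ≤ A * b → 16 * (A + 1) ≤ b →
  (∀ m, a ≤ m → m < a + b → f m = f (m + 1)) → False

/-- BL: a set covered by few short sets misses a block. -/
def S_BL : Prop := ∀ (G w a b : ℕ) (S : Finset (Finset ℕ)), S.card ≤ G → w < b →
  (∀ s ∈ S, ∀ p ∈ s, ∀ q ∈ s, q ≤ p + w) →
  ∃ k, k ≤ 2 * G ∧ ∀ s ∈ S, ∀ p ∈ s, ¬ (a + k * b ≤ p ∧ p < a + (k + 1) * b)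

/-- A0: few jumps near the square root, for an interval of length 2 sqrt X with K exceptions. -/
def S_A0 : Prop := ∀ T K : ℕ, ∃ B x0 : ℕ, ∀ f, CM f → ∀ X : ℕ, x0 ≤ X.sqrt →
  ∀ (c : ℤ) (E : Finset ℕ), E.card ≤ K →
  (∀ y, X < y → y ≤ X + 2 * X.sqrt → y ∉ E → f y = c) →
  (Jumps f (X.sqrt - T * X.sqrt.sqrt) (X.sqrt + T * X.sqrt.sqrt)).card ≤ B

/-- A1: few jumps of (-1)^m f(m) near n, if f = c below n^2 and f = -c above n^2. -/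
def S_A1 : Prop := ∀ T : ℕ, ∃ B x0 : ℕ, ∀ f, CM f → ∀ n : ℕ, x0 ≤ n → ∀ c : ℤ,
  (∀ y, n ^ 2 < y + n → y < n ^ 2 → f y = c) →
  (∀ y, n ^ 2 < y → y < n ^ 2 + n → f y = -c) →
  (Jumps (fun m => (-1) ^ m * f m) (n - T * n.sqrt) (n + T * n.sqrt)).card ≤ B

/-- C1: products U V just above y, with U / V close to (rho / sigma)^2. -/
def S_C1 : Prop := ∀ ρ σ y : ℕ, 1 ≤ ρ → 1 ≤ σ → 16 * (ρ * σ) ^ 2 + 16 ≤ y → ∃ a e : ℕ,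
  e < a ∧ y ≤ (ρ * σ) ^ 2 * (a ^ 2 - e ^ 2) ∧
  (ρ * σ) ^ 2 * (a ^ 2 - e ^ 2) ≤ y + (ρ * σ) ^ 2 * (2 * e + 1) ∧
  y.sqrt ≤ ρ * σ * a ∧ ρ * σ * a ≤ y.sqrt + ρ * σ ∧ e ^ 2 ≤ 4 * y.sqrt

/-- C2: choice of a ratio rho / sigma (sigma = 4(B+1)) avoiding all jumps. -/
def S_C2 : Prop := ∀ (B h z : ℕ) (J : Finset ℤ) (y0 : ℤ), J.card ≤ B → 1 ≤ z →
  100 * (B + 1) * h ≤ z →
  ∃ ρ : ℕ, 5 * (B + 1) ≤ ρ ∧ ρ ≤ 8 * (B + 1) ∧ ∀ j ∈ J,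
    (ρ : ℤ) * h < |(ρ : ℤ) * (j - y0) - 4 * ((B : ℤ) + 1) * z| ∧
    4 * ((B : ℤ) + 1) * h < |4 * ((B : ℤ) + 1) * (j - y0) - (ρ : ℤ) * z| ∧
    (ρ : ℤ) * (4 * ((B : ℤ) + 1)) * h <
      |(ρ : ℤ) * (4 * ((B : ℤ) + 1)) * (j - y0) - ((ρ : ℤ) ^ 2 + (4 * ((B : ℤ) + 1)) ^ 2) * z|

/-- CF: flatness.  (s = 1, and F is constant on the clean points.) -/
def S_CF : Prop := ∀ B : ℕ, ∃ z0 : ℕ, ∀ (F : ℕ → ℤ) (s : ℤ),
  (∀ m, 1 ≤ m → F m = 1 ∨ F m = -1) → Sq F s → ∀ x z : ℕ, z0 ≤ z → z ^ 2 ≤ x →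
  x ≤ z ^ 2 + 2 * z → (Jumps F (x - 14 * z) (x + 14 * z)).card ≤ B →
  s = 1 ∧ ∀ y1 y2 : ℕ, x - 10 * z ≤ y1 → y1 ≤ x + 10 * z → x - 10 * z ≤ y2 → y2 ≤ x + 10 * z →
    Clean F (z / (800 * (B + 1) * (B + 2))) y1 → Clean F (z / (800 * (B + 1) * (B + 2))) y2 →
    F y1 = F y2

/-- DD: flatness is impossible for a CM function. -/
def S_DD : Prop := ∀ B : ℕ, ∃ z0 : ℕ, ∀ f, CM f → ∀ x z : ℕ, z0 ≤ z → z ^ 2 ≤ x →
  x ≤ z ^ 2 + 2 * z → (Jumps f (x - 14 * z) (x + 14 * z)).card ≤ B →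
  (∀ y1 y2 : ℕ, x - 10 * z ≤ y1 → y1 ≤ x + 10 * z → x - 10 * z ≤ y2 → y2 ≤ x + 10 * z →
    Clean f (z / (800 * (B + 1) * (B + 2))) y1 → Clean f (z / (800 * (B + 1) * (B + 2))) y2 →
    f y1 = f y2) → False

/-- BR: between n^2 and (n+2)^2 there are more than K values different from c,
if n is at least a constant times (K+1)^4. -/
def S_BR : Prop := ∃ C : ℕ, ∀ f, CM f → ∀ n K : ℕ, C * (K + 1) ^ 4 ≤ n → ∀ c : ℤ,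
  K < ((Finset.Ioo (n ^ 2) ((n + 2) ^ 2)).filter (fun y => f y ≠ c)).card

end Pool.Agent.H447R4.PA
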