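import Mathlib
import Pool.Agent.H447R4.PA.Defs

set_option autoImplicit false

namespace Pool.Agent.H447R4.PA

theorem A0_two (A : Finset ℕ) (S : ℕ) (h : ∀ a ∈ A, ∀ b ∈ A, a ≠ b → a + b = S) :
    A.card ≤ 2 := by
  by_contra hc
  rw [not_le, Finset.two_lt_card_iff] at hc
  obtain ⟨a, b, c, ha, hb, hc', hab, hac, hbc⟩ := hc
  have h1 := h a ha b hb hab
  have h2 := h a ha c hc' hac
  omega

theorem A0_pair (S a b : ℕ) (ha : a ≤ S) (hb : b ≤ S) (hab : a ≠ b)
    (h : a * (S - a) = b * (S - b)) : a + b = S := by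
  have h1 : (a : ℤ) * (S - a) = b * (S - b) := by
    have h0 : ((a * (S - a) : ℕ) : ℤ) = ((b * (S - b) : ℕ) : ℤ) := by rw [h]
    push_cast [ha, hb] at h0
    exact h0
  have h2 : ((a : ℤ) - b) * ((S : ℤ) - a - b) = 0 := by linear_combination h1
  rcases mul_eq_zero.mp h2 with h3 | h3
  · exact absurd (by omega) hab
  · omega

/-- the m in `A` with `m (S - m) = v` -/
def A0_Q (A : Finset ℕ) (S v : ℕ) : Finset ℕ := A.filter (fun m => m ≤ S ∧ m * (S - m) = v)

/-- the m in `A` with `(m + 1) (S - (m + 1)) = v` -/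
def A0_Q' (A : Finset ℕ) (S v : ℕ) : Finset ℕ :=
  A.filter (fun m => m + 1 ≤ S ∧ (m + 1) * (S - (m + 1)) = v)

theorem A0_Q_card (A : Finset ℕ) (S v : ℕ) : (A0_Q A S v).card ≤ 2 := by
  refine A0_two _ S ?_
  intro a ha b hb hab
  obtain ⟨ha1, ha2⟩ := (Finset.mem_filter.mp ha).2
  obtain ⟨hb1, hb2⟩ := (Finset.mem_filter.mp hb).2
  exact A0_pair S a b ha1 hb1 hab (ha2.trans hb2.symm)

theorem A0_Q'_card (A : Finset ℕ) (S v : ℕ) : (A0_Q' A S v).card ≤ 2 := by
  refine A0_two _ (S - 2) ?_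
  intro a ha b hb hab
  obtain ⟨ha1, ha2⟩ := (Finset.mem_filter.mp ha).2
  obtain ⟨hb1, hb2⟩ := (Finset.mem_filter.mp hb).2
  have := A0_pair S (a + 1) (b + 1) ha1 hb1 (by omega) (ha2.trans hb2.symm)
  omega

/-- the upper bound for `X / m + m` -/
theorem A0_upper (T x z X m N0 : ℕ) (hx : 0 < x) (hz : z ^ 2 ≤ x) (hTz : 4 * (T * z) ≤ x)
    (hX : X ≤ x ^ 2 + 2 * x) (h1 : x ≤ m + T * z) (h2 : m ≤ x + T * z) (hN : N0 * m ≤ X) :
    N0 + m ≤ 2 * x + (2 * T ^ 2 + 4) := by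
  by_contra hc
  rw [not_le] at hc
  have hx' : (0 : ℤ) < x := by exact_mod_cast hx
  have hz' : (z : ℤ) ^ 2 ≤ x := by exact_mod_cast hz
  have hTz' : 4 * ((T : ℤ) * z) ≤ x := by exact_mod_cast hTz
  have hX' : (X : ℤ) ≤ x ^ 2 + 2 * x := by exact_mod_cast hX
  have h1' : (x : ℤ) ≤ m + T * z := by exact_mod_cast h1
  have h2' : (m : ℤ) ≤ x + T * z := by exact_mod_cast h2
  have hN' : (N0 : ℤ) * m ≤ X := by exact_mod_cast hN
  have hc' : 2 * (x : ℤ) + (2 * T ^ 2 + 4) + 1 ≤ N0 + m := by exact_mod_cast hc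
  have hm0 : (0 : ℤ) ≤ m := Int.natCast_nonneg m
  have h3 : (2 * (x : ℤ) + (2 * T ^ 2 + 4) + 1 - m) * m ≤ N0 * m :=
    mul_le_mul_of_nonneg_right (by linarith) hm0
  have h4 : ((m : ℤ) - x) ^ 2 ≤ (T : ℤ) ^ 2 * x := by
    have h5 : ((m : ℤ) - x) ^ 2 ≤ (T * z) ^ 2 := by
      apply sq_le_sq'
      · linarith
      · linarith
    have h6 : ((T : ℤ) * z) ^ 2 ≤ T ^ 2 * x := by
      rw [mul_pow]
      exact mul_le_mul_of_nonneg_left hz' (by positivity)
    exact h5.trans h6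
  have h5 : 3 * (x : ℤ) ≤ 4 * m := by linarith
  have hT : (0 : ℤ) ≤ (T : ℤ) ^ 2 := by positivity
  -- (2x + T2 + 1 - m) m = x^2 - (m-x)^2 + (T2+1) m
  have h6 : (2 * (x : ℤ) + (2 * T ^ 2 + 4) + 1 - m) * m =
      x ^ 2 - ((m : ℤ) - x) ^ 2 + (2 * T ^ 2 + 5) * m := by ring
  have h7 : (2 * (T : ℤ) ^ 2 + 5) * (3 * x) ≤ (2 * T ^ 2 + 5) * (4 * m) :=
    mul_le_mul_of_nonneg_left h5 (by positivity)
  have h8 : (0 : ℤ) ≤ (T : ℤ) ^ 2 * x := by positivity
  nlinarith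

theorem A0_lower (x S y a b : ℕ) (hy : x ^ 2 < y) (hab : a * b = y) (hS : a + b = S) :
    2 * x + 1 ≤ S := by
  by_contra hc
  have hc : S ≤ 2 * x := by omega
  have h1 : 4 * (a * b) ≤ (a + b) ^ 2 := by nlinarith [sq_nonneg ((a : ℤ) - b), four_mul_le_sq_add a b]
  have h2 : (a + b) ^ 2 ≤ (2 * x) ^ 2 := Nat.pow_le_pow_left (by omega) 2
  rw [hab] at h1
  nlinarith

theorem t_A0 : S_A0 := by
  intro T K
  set T2 := 2 * T ^ 2 + 4 with hT2
  refine ⟨(T2 + 1) * (T2 + 1) * 2 + (T2 + 3) * K * 2 + (T2 + 3) * K * 2, 16 * T ^ 2 + 16, ?_⟩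
  intro f hf X hx0 c E hE hfc
  set x := X.sqrt with hx
  set z := x.sqrt with hz
  have hz2 : z ^ 2 ≤ x := by rw [sq]; exact Nat.sqrt_le x
  have hX1 : x ^ 2 ≤ X := by rw [sq]; exact Nat.sqrt_le X
  have hX2 : X ≤ x ^ 2 + 2 * x := by
    have h := Nat.sqrt_le_add X
    have h' : X ≤ x * x + x + x := h
    nlinarith
  have hzT : 4 * T ≤ z := by
    rw [hz, Nat.le_sqrt]
    nlinarith
  have hTz : 4 * (T * z) ≤ x := by
    have : 4 * T * z ≤ z * z := Nat.mul_le_mul_right z hzT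
    nlinarith
  set A := Jumps f (x - T * z) (x + T * z) with hA
  have hsub : A ⊆ ((Finset.range (T2 + 1) ×ˢ Finset.range (T2 + 1)).biUnion
      (fun p => A0_Q A (2 * x + p.1) (X - p.2)) ∪
      (Finset.range (T2 + 3) ×ˢ E).biUnion (fun p => A0_Q A (2 * x + p.1) p.2)) ∪
      (Finset.range (T2 + 3) ×ˢ E).biUnion (fun p => A0_Q' A (2 * x + p.1) p.2) := by
    intro m hmA
    have hmA' := hmA
    rw [hA, Jumps, Finset.mem_filter, Finset.mem_Icc] at hmA'
    obtain ⟨⟨hm1, hm2⟩, hjump⟩ := hmA'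
    have hm1' : x ≤ m + T * z := by omega
    have hmpos : 0 < m := by omega
    obtain ⟨N0, r, hdiv, hrm⟩ : ∃ N0 r : ℕ, m * N0 + r = X ∧ r < m :=
      ⟨X / m, X % m, Nat.div_add_mod X m, Nat.mod_lt X hmpos⟩
    obtain ⟨mN, hmN⟩ : ∃ k, k = m * N0 := ⟨_, rfl⟩
    rw [← hmN] at hdiv
    have hN0m : N0 * m ≤ X := by rw [mul_comm, ← hmN]; omega
    have hup := A0_upper T x z X m N0 (by omega) hz2 hTz hX2 hm1' hm2 hN0m
    rw [← hT2] at hup
    have hNm : (N0 + 1) * m = X - r + m := by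
      have : (N0 + 1) * m = m * N0 + m := by ring
      rw [this, ← hmN]; omega
    have hNm1 : (N0 + 1) * (m + 1) = X - r + m + N0 + 1 := by
      have : (N0 + 1) * (m + 1) = m * N0 + m + N0 + 1 := by ring
      rw [this, ← hmN]; omega
    have hrX : r ≤ X := by omega
    simp only [Finset.mem_union, Finset.mem_biUnion, Finset.mem_product, Finset.mem_range,
      Prod.exists]
    by_cases h1 : 2 * x + r ≤ N0 + m
    · left; left
      refine ⟨N0 + m - 2 * x, r, ⟨by omega, by omega⟩, ?_⟩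
      refine Finset.mem_filter.mpr ⟨hmA, by omega, ?_⟩
      have h2 : 2 * x + (N0 + m - 2 * x) - m = N0 := by omega
      rw [h2, ← hmN]; omega
    · have hlast : (N0 + 1) * (m + 1) ≤ X + 2 * x := by rw [hNm1]; omega
      have hNmX : X < (N0 + 1) * m := by rw [hNm]; omega
      have hNmX' : (N0 + 1) * m ≤ X + 2 * x := by rw [hNm]; omega
      by_cases h2 : (N0 + 1) * m ∈ E
      · left; right
        have h3 := A0_lower x (N0 + 1 + m) ((N0 + 1) * m) (N0 + 1) m (by rw [hNm]; omega) rfl rfl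
        refine ⟨N0 + 1 + m - 2 * x, (N0 + 1) * m, ⟨by omega, h2⟩, ?_⟩
        refine Finset.mem_filter.mpr ⟨hmA, by omega, ?_⟩
        have h4 : 2 * x + (N0 + 1 + m - 2 * x) - m = N0 + 1 := by omega
        rw [h4, mul_comm]
      · by_cases h3 : (N0 + 1) * (m + 1) ∈ E
        · right
          have h4 := A0_lower x (N0 + 1 + (m + 1)) ((N0 + 1) * (m + 1)) (N0 + 1) (m + 1)
            (by rw [hNm1]; omega) rfl rfl
          refine ⟨N0 + 1 + (m + 1) - 2 * x, (N0 + 1) * (m + 1), ⟨by omega, h3⟩, ?_⟩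
          refine Finset.mem_filter.mpr ⟨hmA, by omega, ?_⟩
          have h5 : 2 * x + (N0 + 1 + (m + 1) - 2 * x) - (m + 1) = N0 + 1 := by omega
          rw [h5, mul_comm]
        · exfalso
          have e1 := hfc _ hNmX hNmX' h2
          have e2 := hfc _ (by rw [hNm1]; omega) hlast h3
          rw [hf.mul (N0 + 1) m (by omega) (by omega)] at e1
          rw [hf.mul (N0 + 1) (m + 1) (by omega) (by omega)] at e2
          have hne : f (N0 + 1) ≠ 0 := by
            rcases hf.val (N0 + 1) (by omega) with h | h <;> rw [h] <;> norm_num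
          exact hjump (mul_left_cancel₀ hne (e1.trans e2.symm))
  refine (Finset.card_le_card hsub).trans ?_
  refine (Finset.card_union_le _ _).trans (Nat.add_le_add ((Finset.card_union_le _ _).trans
    (Nat.add_le_add ?_ ?_)) ?_)
  · refine (Finset.card_biUnion_le_card_mul _ _ 2 (fun p _ => A0_Q_card _ _ _)).trans ?_
    rw [Finset.card_product, Finset.card_range]
  · refine (Finset.card_biUnion_le_card_mul _ _ 2 (fun p _ => A0_Q_card _ _ _)).trans ?_
    rw [Finset.card_product, Finset.card_range]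
    exact Nat.mul_le_mul_right _ (Nat.mul_le_mul_left _ hE)
  · refine (Finset.card_biUnion_le_card_mul _ _ 2 (fun p _ => A0_Q'_card _ _ _)).trans ?_
    rw [Finset.card_product, Finset.card_range]
    exact Nat.mul_le_mul_right _ (Nat.mul_le_mul_left _ hE)

end Pool.Agent.H447R4.PA
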