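import Pool.Agent.H447R4.PA.A0

set_option autoImplicit false

/-! The theorem t_A0 of helper634 with its constants made explicit (same proof). -/

namespace Pool.Agent.H447R4.PA

theorem A0_explicit (T K : ℕ) : ∀ f, CM f → ∀ X : ℕ, 16 * T ^ 2 + 16 ≤ X.sqrt →
    ∀ (c : ℤ) (E : Finset ℕ), E.card ≤ K →
    (∀ y, X < y → y ≤ X + 2 * X.sqrt → y ∉ E → f y = c) →
    (Jumps f (X.sqrt - T * X.sqrt.sqrt) (X.sqrt + T * X.sqrt.sqrt)).card ≤
      (2 * T ^ 2 + 4 + 1) * (2 * T ^ 2 + 4 + 1) * 2 + (2 * T ^ 2 + 4 + 3) * K * 2 +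
        (2 * T ^ 2 + 4 + 3) * K * 2 := by
  set T2 := 2 * T ^ 2 + 4 with hT2
  intro f hf X hx0 c E hE hfc
  set x := X.sqrt with hx
  set z := x.sqrt with hz
  have hz2 : z ^ 2 ≤ x := by rw [sq]; exact Nat.sqrt_le x
  have hX1 : x ^ 2 ≤ X := by rw [sq]; exact Nat.sqrt_le X
  have hX2 : X ≤ x ^ 2 + 2 * x := by
    have h := Nat.sqrt_le_add X
    have h' : X ≤ x * x + x + x := h
    nlinarith
  have hzT : 4 * T ≤ z := by
    rw [hz, Nat.le_sqrt]
    nlinarith
  have hTz : 4 * (T * z) ≤ x := by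
    have : 4 * T * z ≤ z * z := Nat.mul_le_mul_right z hzT
    nlinarith
  set A := Jumps f (x - T * z) (x + T * z) with hA
  have hsub : A ⊆ ((Finset.range (T2 + 1) ×ˢ Finset.range (T2 + 1)).biUnion
      (fun p => A0_Q A (2 * x + p.1) (X - p.2)) ∪
      (Finset.range (T2 + 3) ×ˢ E).biUnion (fun p => A0_Q A (2 * x + p.1) p.2)) ∪
      (Finset.range (T2 + 3) ×ˢ E).biUnion (fun p => A0_Q' A (2 * x + p.1) p.2) := by
    intro m hmA
    have hmA' := hmA
    rw [hA, Jumps, Finset.mem_filter, Finset.mem_Icc] at hmA'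
    obtain ⟨⟨hm1, hm2⟩, hjump⟩ := hmA'
    have hm1' : x ≤ m + T * z := by omega
    have hmpos : 0 < m := by omega
    obtain ⟨N0, r, hdiv, hrm⟩ : ∃ N0 r : ℕ, m * N0 + r = X ∧ r < m :=
      ⟨X / m, X % m, Nat.div_add_mod X m, Nat.mod_lt X hmpos⟩
    obtain ⟨mN, hmN⟩ : ∃ k, k = m * N0 := ⟨_, rfl⟩
    rw [← hmN] at hdiv
    have hN0m : N0 * m ≤ X := by rw [mul_comm, ← hmN]; omega
    have hup := A0_upper T x z X m N0 (by omega) hz2 hTz hX2 hm1' hm2 hN0m
    rw [← hT2] at hup
    have hNm : (N0 + 1) * m = X - r + m := by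
      have : (N0 + 1) * m = m * N0 + m := by ring
      rw [this, ← hmN]; omega
    have hNm1 : (N0 + 1) * (m + 1) = X - r + m + N0 + 1 := by
      have : (N0 + 1) * (m + 1) = m * N0 + m + N0 + 1 := by ring
      rw [this, ← hmN]; omega
    have hrX : r ≤ X := by omega
    simp only [Finset.mem_union, Finset.mem_biUnion, Finset.mem_product, Finset.mem_range,
      Prod.exists]
    by_cases h1 : 2 * x + r ≤ N0 + m
    · left; left
      refine ⟨N0 + m - 2 * x, r, ⟨by omega, by omega⟩, ?_⟩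
      refine Finset.mem_filter.mpr ⟨hmA, by omega, ?_⟩
      have h2 : 2 * x + (N0 + m - 2 * x) - m = N0 := by omega
      rw [h2, ← hmN]; omega
    · have hlast : (N0 + 1) * (m + 1) ≤ X + 2 * x := by rw [hNm1]; omega
      have hNmX : X < (N0 + 1) * m := by rw [hNm]; omega
      have hNmX' : (N0 + 1) * m ≤ X + 2 * x := by rw [hNm]; omega
      by_cases h2 : (N0 + 1) * m ∈ E
      · left; right
        have h3 := A0_lower x (N0 + 1 + m) ((N0 + 1) * m) (N0 + 1) m (by rw [hNm]; omega) rfl rfl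
        refine ⟨N0 + 1 + m - 2 * x, (N0 + 1) * m, ⟨by omega, h2⟩, ?_⟩
        refine Finset.mem_filter.mpr ⟨hmA, by omega, ?_⟩
        have h4 : 2 * x + (N0 + 1 + m - 2 * x) - m = N0 + 1 := by omega
        rw [h4, mul_comm]
      · by_cases h3 : (N0 + 1) * (m + 1) ∈ E
        · right
          have h4 := A0_lower x (N0 + 1 + (m + 1)) ((N0 + 1) * (m + 1)) (N0 + 1) (m + 1)
            (by rw [hNm1]; omega) rfl rfl
          refine ⟨N0 + 1 + (m + 1) - 2 * x, (N0 + 1) * (m + 1), ⟨by omega, h3⟩, ?_⟩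
          refine Finset.mem_filter.mpr ⟨hmA, by omega, ?_⟩
          have h5 : 2 * x + (N0 + 1 + (m + 1) - 2 * x) - (m + 1) = N0 + 1 := by omega
          rw [h5, mul_comm]
        · exfalso
          have e1 := hfc _ hNmX hNmX' h2
          have e2 := hfc _ (by rw [hNm1]; omega) hlast h3
          rw [hf.mul (N0 + 1) m (by omega) (by omega)] at e1
          rw [hf.mul (N0 + 1) (m + 1) (by omega) (by omega)] at e2
          have hne : f (N0 + 1) ≠ 0 := by
            rcases hf.val (N0 + 1) (by omega) with h | h <;> rw [h] <;> norm_num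
          exact hjump (mul_left_cancel₀ hne (e1.trans e2.symm))
  refine (Finset.card_le_card hsub).trans ?_
  refine (Finset.card_union_le _ _).trans (Nat.add_le_add ((Finset.card_union_le _ _).trans
    (Nat.add_le_add ?_ ?_)) ?_)
  · refine (Finset.card_biUnion_le_card_mul _ _ 2 (fun p _ => A0_Q_card _ _ _)).trans ?_
    rw [Finset.card_product, Finset.card_range]
  · refine (Finset.card_biUnion_le_card_mul _ _ 2 (fun p _ => A0_Q_card _ _ _)).trans ?_
    rw [Finset.card_product, Finset.card_range]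
    exact Nat.mul_le_mul_right _ (Nat.mul_le_mul_left _ hE)
  · refine (Finset.card_biUnion_le_card_mul _ _ 2 (fun p _ => A0_Q'_card _ _ _)).trans ?_
    rw [Finset.card_product, Finset.card_range]
    exact Nat.mul_le_mul_right _ (Nat.mul_le_mul_left _ hE)

end Pool.Agent.H447R4.PA
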