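import Pool.Agent.H447R4.PA.Defs

set_option autoImplicit false

/-!
Task A1 of helper447 (by helper659): few jumps of (-1)^m f(m) near n.
-/

namespace Pool.Agent.H447R4.PA

/-- two different bad m of the same parity, on the same side of n, have different m + N. -/
theorem A1_inj (n m m' N N' : ℤ) (hn0 : 0 ≤ n) (hm : 1 ≤ m) (hN : 0 ≤ N) (hN' : 0 ≤ N') (h1 : N * m < n ^ 2)
    (h2 : n ^ 2 ≤ (N + 1) * m) (h1' : N' * m' < n ^ 2) (h2' : n ^ 2 ≤ (N' + 1) * m')
    (hb : N * m + n ≤ n ^ 2 ∨ N * (m + 1) ≤ n ^ 2 ∨ n ^ 2 + n ≤ N * (m + 1))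
    (hs : N + m = N' + m') (hlt : m + 2 ≤ m')
    (hside : (n ≤ m ∧ n ≤ m') ∨ (m < n ∧ m' < n)) : False := by
  have hN'e : N' = N + m - m' := by linarith
  subst hN'e
  rcases hside with ⟨ha, hb'⟩ | ⟨ha, hb'⟩
  · have hNn : N < n := by
      by_contra hc
      push Not at hc
      have : n * n ≤ N * m := mul_le_mul hc ha hn0 hN
      nlinarith
    have h3 : N * (m + 1) ≤ n ^ 2 := by
      rcases hb with h | h | h
      · nlinarith
      · exact h
      · nlinarith
    have h4 : (m' - N) * (m' - m - 1) ≤ 0 := by nlinarith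
    have h5 : 0 < m' - N := by linarith
    have h6 : 0 < m' - m - 1 := by linarith
    have := mul_pos h5 h6
    linarith
  · have hNn : n < N := by
      by_contra hc
      push Not at hc
      have : (N + 1) * m ≤ (n + 1) * (n - 1) := by
        apply mul_le_mul <;> linarith
      nlinarith
    have h3 : n ^ 2 + n ≤ N * (m + 1) := by
      rcases hb with h | h | h
      · nlinarith
      · nlinarith
      · exact h
    have h4 : (N - m') * (m' - m) < N - n := by nlinarith
    have h5 : N - m' ≤ (N - m') * (m' - m) := by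
      have : 0 ≤ N - m' := by linarith
      nlinarith
    linarith

/-- range of m + N. -/
theorem A1_range (n m N T z : ℤ) (hm : 1 ≤ m) (hN1 : N * m < n ^ 2) (h2 : n ^ 2 ≤ (N + 1) * m)
    (hz : z ^ 2 ≤ n) (hl : n - T * z ≤ m) (hu : m ≤ n + T * z) (hhalf : n ≤ 2 * m) :
    2 * n ≤ N + m + 1 ∧ N + m ≤ 2 * n + 2 * T ^ 2 := by
  constructor
  · have : (2 * n) * m ≤ (N + m + 1) * m := by nlinarith [sq_nonneg (n - m)]
    exact le_of_mul_le_mul_right this (by linarith)
  · have h3 : (m - n) ^ 2 ≤ (T * z) ^ 2 := by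
      apply sq_le_sq'
      · linarith
      · linarith
    have h4 : (T * z) ^ 2 ≤ T ^ 2 * (2 * m) := by
      rw [mul_pow]
      exact mul_le_mul_of_nonneg_left (by linarith) (sq_nonneg T)
    have : (N + m) * m ≤ (2 * n + 2 * T ^ 2) * m := by nlinarith
    exact le_of_mul_le_mul_right this (by linarith)

theorem t_A1 : S_A1 := by
  intro T
  refine ⟨(2 * T ^ 2 + 2) * (2 * 2), 4 * T ^ 2 + 4, ?_⟩
  intro f hf n hn c hc1 hc2
  set z := n.sqrt with hzdef
  have hzn : z ^ 2 ≤ n := Nat.sqrt_le' n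
  have hTz : 2 * T ≤ z := by
    rw [hzdef, Nat.le_sqrt']
    nlinarith
  have hTzn : 2 * (T * z) ≤ n := by
    calc 2 * (T * z) = (2 * T) * z := by ring
      _ ≤ z * z := Nat.mul_le_mul_right z hTz
      _ = z ^ 2 := by ring
      _ ≤ n := hzn
  set J := Jumps (fun m => (-1) ^ m * f m) (n - T * z) (n + T * z) with hJ
  -- facts about the members
  have facts : ∀ m ∈ J, 1 ≤ m ∧ n ≤ 2 * m ∧ n ≤ m + T * z ∧ m ≤ n + T * z ∧
      ((n ^ 2 - 1) / m) * m < n ^ 2 ∧ n ^ 2 ≤ ((n ^ 2 - 1) / m + 1) * m ∧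
      (((n ^ 2 - 1) / m) * m + n ≤ n ^ 2 ∨ ((n ^ 2 - 1) / m) * (m + 1) ≤ n ^ 2 ∨
        n ^ 2 + n ≤ ((n ^ 2 - 1) / m) * (m + 1)) := by
    intro m hm
    rw [hJ, Jumps, Finset.mem_filter, Finset.mem_Icc] at hm
    obtain ⟨⟨hl, hu⟩, hne⟩ := hm
    have hl' : n ≤ m + T * z := by omega
    have h2m : n ≤ 2 * m := by omega
    have hm1 : 1 ≤ m := by omega
    have hn2 : 1 ≤ n ^ 2 := Nat.one_le_pow _ _ (by omega)
    have hNm : ((n ^ 2 - 1) / m) * m ≤ n ^ 2 - 1 := Nat.div_mul_le_self _ _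
    have hNm' : n ^ 2 - 1 < ((n ^ 2 - 1) / m + 1) * m := by
      rw [add_mul, one_mul]
      exact Nat.lt_div_mul_add hm1
    refine ⟨hm1, h2m, hl', hu, by omega, by omega, ?_⟩
    by_contra hcon
    push Not at hcon
    obtain ⟨c1, c2, c3⟩ := hcon
    set N := (n ^ 2 - 1) / m with hNdef
    have hN1 : 1 ≤ N := by
      rcases Nat.eq_zero_or_pos N with h0 | h0
      · rw [h0] at c2
        simp at c2
      · exact h0
    have e1 : f (N * m) = c := hc1 _ c1 (by omega)
    have e2 : f (N * (m + 1)) = -c := hc2 _ c2 c3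
    rw [hf.mul N m hN1 hm1] at e1
    rw [hf.mul N (m + 1) hN1 (by omega)] at e2
    apply hne
    show (-1) ^ m * f m = (-1) ^ (m + 1) * f (m + 1)
    rw [pow_succ]
    have hsum : f N * (f m + f (m + 1)) = 0 := by
      rw [mul_add, e1, e2]; ring
    have hN0 : f N ≠ 0 := by
      rcases hf.val N hN1 with h | h <;> rw [h] <;> norm_num
    have hz0 : f m + f (m + 1) = 0 := by
      rcases mul_eq_zero.mp hsum with h | h
      · exact absurd h hN0
      · exact h
    have : f (m + 1) = - f m := by linarith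
    rw [this]
    ring
  -- injective map
  have hinj : Set.InjOn (fun m => ((n ^ 2 - 1) / m + m, (decide (m < n), m % 2))) (J : Set ℕ) := by
    have main : ∀ m ∈ J, ∀ m' ∈ J, m < m' →
        ((n ^ 2 - 1) / m + m, (decide (m < n), m % 2)) =
        ((n ^ 2 - 1) / m' + m', (decide (m' < n), m' % 2)) → False := by
      intro m hm m' hm' hlt heq
      obtain ⟨a1, a2, a3, a4, a5, a6, a7⟩ := facts m hm
      obtain ⟨b1, b2, b3, b4, b5, b6, b7⟩ := facts m' hm'
      rw [Prod.mk.injEq, Prod.mk.injEq] at heq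
      obtain ⟨q1, q2, q3⟩ := heq
      rw [decide_eq_decide] at q2
      generalize hN : (n ^ 2 - 1) / m = N at *
      generalize hN' : (n ^ 2 - 1) / m' = N' at *
      have hside : (n ≤ m ∧ n ≤ m') ∨ (m < n ∧ m' < n) := by
        by_cases hmn : m < n
        · right; exact ⟨hmn, q2.mp hmn⟩
        · left; exact ⟨not_lt.mp hmn, not_lt.mp (fun h => hmn (q2.mpr h))⟩
      have hm2 : m + 2 ≤ m' := by omega
      refine A1_inj n m m' N N' (Int.natCast_nonneg _) (by exact_mod_cast a1) (Int.natCast_nonneg _)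
        (Int.natCast_nonneg _) (by exact_mod_cast a5) (by exact_mod_cast a6)
        (by exact_mod_cast b5) (by exact_mod_cast b6) (by exact_mod_cast a7)
        (by exact_mod_cast q1) (by exact_mod_cast hm2) (by exact_mod_cast hside)
    intro m hm m' hm' heq
    by_contra hne
    rcases lt_or_gt_of_ne hne with h | h
    · exact main m hm m' hm' h heq
    · exact main m' hm' m hm h heq.symm
  have hmaps : ∀ m ∈ J, (fun m => ((n ^ 2 - 1) / m + m, (decide (m < n), m % 2))) m ∈
      (Finset.Icc (2 * n - 1) (2 * n + 2 * T ^ 2)) ×ˢ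
        ((Finset.univ : Finset Bool) ×ˢ (Finset.range 2)) := by
    intro m hm
    obtain ⟨a1, a2, a3, a4, a5, a6, a7⟩ := facts m hm
    have hr := A1_range n m ((n ^ 2 - 1) / m : ℕ) T z (by exact_mod_cast a1) (by exact_mod_cast a5)
      (by exact_mod_cast a6) (by exact_mod_cast hzn) (by
        have : (n : ℤ) ≤ m + T * z := by exact_mod_cast a3
        linarith) (by exact_mod_cast a4) (by exact_mod_cast a2)
    have r1 : 2 * n ≤ (n ^ 2 - 1) / m + m + 1 := by exact_mod_cast hr.1
    have r2 : (n ^ 2 - 1) / m + m ≤ 2 * n + 2 * T ^ 2 := by exact_mod_cast hr.2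
    simp only [Finset.mem_product, Finset.mem_Icc, Finset.mem_univ, Finset.mem_range, true_and]
    refine ⟨⟨by omega, r2⟩, Nat.mod_lt _ (by norm_num)⟩
  have hcard := Finset.card_le_card_of_injOn _ hmaps hinj
  refine hcard.trans ?_
  rw [Finset.card_product, Finset.card_product, Nat.card_Icc, Finset.card_univ, Fintype.card_bool,
    Finset.card_range]
  apply Nat.mul_le_mul_right
  omega

end Pool.Agent.H447R4.PA
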