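import Pool.Agent.H447R4.PA.A1E

set_option autoImplicit false

/-! The theorem t_A1E with its constants made explicit (same proof). -/

namespace Pool.Agent.H447R4.PA

theorem A1_explicit (T K : ℕ) : ∀ f, CM f → ∀ n : ℕ, 4 * T ^ 2 + 4 ≤ n →
    ∀ (c : ℤ) (E : Finset ℕ), E.card ≤ K →
    (∀ y, n ^ 2 < y + n → y < n ^ 2 → y ∉ E → f y = c) →
    (∀ y, n ^ 2 < y → y < n ^ 2 + n → y ∉ E → f y = -c) →
    (Jumps (fun m => (-1) ^ m * f m) (n - T * n.sqrt) (n + T * n.sqrt)).card ≤
      (2 * T ^ 2 + 2) * (2 * 2) + (2 * T ^ 2 + 2) * (K * (2 * 2)) := by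
  intro f hf n hn c E hE hc1 hc2
  set z := n.sqrt with hzdef
  have hzn : z ^ 2 ≤ n := Nat.sqrt_le' n
  have hTz : 2 * T ≤ z := by
    rw [hzdef, Nat.le_sqrt']
    nlinarith
  have hTzn : 2 * (T * z) ≤ n := by
    calc 2 * (T * z) = (2 * T) * z := by ring
      _ ≤ z * z := Nat.mul_le_mul_right z hTz
      _ = z ^ 2 := by ring
      _ ≤ n := hzn
  set J := Jumps (fun m => (-1) ^ m * f m) (n - T * z) (n + T * z) with hJ
  -- basic facts about the members
  have bas : ∀ m ∈ J, 1 ≤ m ∧ n ≤ 2 * m ∧ n ≤ m + T * z ∧ m ≤ n + T * z ∧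
      ((n ^ 2 - 1) / m) * m < n ^ 2 ∧ n ^ 2 ≤ ((n ^ 2 - 1) / m + 1) * m := by
    intro m hm
    rw [hJ, Jumps, Finset.mem_filter, Finset.mem_Icc] at hm
    obtain ⟨⟨hl, hu⟩, hne⟩ := hm
    have hl' : n ≤ m + T * z := by omega
    have h2m : n ≤ 2 * m := by omega
    have hm1 : 1 ≤ m := by omega
    have hn2 : 1 ≤ n ^ 2 := Nat.one_le_pow _ _ (by omega)
    have hNm : ((n ^ 2 - 1) / m) * m ≤ n ^ 2 - 1 := Nat.div_mul_le_self _ _
    have hNm' : n ^ 2 - 1 < ((n ^ 2 - 1) / m + 1) * m := by
      rw [add_mul, one_mul]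
      exact Nat.lt_div_mul_add hm1
    exact ⟨hm1, h2m, hl', hu, by omega, by omega⟩
  -- the set of the members with no exception
  set J1 := J.filter (fun m => ((n ^ 2 - 1) / m) * m ∉ E ∧ ((n ^ 2 - 1) / m) * (m + 1) ∉ E) with hJ1
  set J2 := J.filter (fun m => ¬ (((n ^ 2 - 1) / m) * m ∉ E ∧ ((n ^ 2 - 1) / m) * (m + 1) ∉ E))
    with hJ2
  have hsplit : J.card = J1.card + J2.card := (Finset.card_filter_add_card_filter_not _).symm
  have range : ∀ m ∈ J, (n ^ 2 - 1) / m + m ∈ Finset.Icc (2 * n - 1) (2 * n + 2 * T ^ 2) := by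
    intro m hm
    obtain ⟨a1, a2, a3, a4, a5, a6⟩ := bas m hm
    have hr := A1_range n m ((n ^ 2 - 1) / m : ℕ) T z (by exact_mod_cast a1) (by exact_mod_cast a5)
      (by exact_mod_cast a6) (by exact_mod_cast hzn) (by
        have : (n : ℤ) ≤ m + T * z := by exact_mod_cast a3
        linarith) (by exact_mod_cast a4) (by exact_mod_cast a2)
    have r1 : 2 * n ≤ (n ^ 2 - 1) / m + m + 1 := by exact_mod_cast hr.1
    have r2 : (n ^ 2 - 1) / m + m ≤ 2 * n + 2 * T ^ 2 := by exact_mod_cast hr.2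
    rw [Finset.mem_Icc]
    exact ⟨by omega, r2⟩
  have facts : ∀ m ∈ J1, 1 ≤ m ∧ n ≤ 2 * m ∧ n ≤ m + T * z ∧ m ≤ n + T * z ∧
      ((n ^ 2 - 1) / m) * m < n ^ 2 ∧ n ^ 2 ≤ ((n ^ 2 - 1) / m + 1) * m ∧
      (((n ^ 2 - 1) / m) * m + n ≤ n ^ 2 ∨ ((n ^ 2 - 1) / m) * (m + 1) ≤ n ^ 2 ∨
        n ^ 2 + n ≤ ((n ^ 2 - 1) / m) * (m + 1)) := by
    intro m hm
    rw [hJ1, Finset.mem_filter] at hm
    obtain ⟨hmJ, hE1, hE2⟩ := hm
    obtain ⟨hm1, h2m, hl', hu, b1, b2⟩ := bas m hmJ
    rw [hJ, Jumps, Finset.mem_filter, Finset.mem_Icc] at hmJ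
    obtain ⟨-, hne⟩ := hmJ
    refine ⟨hm1, h2m, hl', hu, b1, b2, ?_⟩
    by_contra hcon
    push Not at hcon
    obtain ⟨c1, c2, c3⟩ := hcon
    set N := (n ^ 2 - 1) / m with hNdef
    have hN1 : 1 ≤ N := by
      rcases Nat.eq_zero_or_pos N with h0 | h0
      · rw [h0] at c2
        simp at c2
      · exact h0
    have e1 : f (N * m) = c := hc1 _ c1 b1 hE1
    have e2 : f (N * (m + 1)) = -c := hc2 _ c2 c3 hE2
    rw [hf.mul N m hN1 hm1] at e1
    rw [hf.mul N (m + 1) hN1 (by omega)] at e2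
    apply hne
    show (-1) ^ m * f m = (-1) ^ (m + 1) * f (m + 1)
    rw [pow_succ]
    have hsum : f N * (f m + f (m + 1)) = 0 := by
      rw [mul_add, e1, e2]; ring
    have hN0 : f N ≠ 0 := by
      rcases hf.val N hN1 with h | h <;> rw [h] <;> norm_num
    have hz0 : f m + f (m + 1) = 0 := by
      rcases mul_eq_zero.mp hsum with h | h
      · exact absurd h hN0
      · exact h
    have : f (m + 1) = - f m := by linarith
    rw [this]
    ring
  -- first part
  have hc1' : J1.card ≤ (2 * T ^ 2 + 2) * (2 * 2) := by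
    have hinj : Set.InjOn (fun m => ((n ^ 2 - 1) / m + m, (decide (m < n), m % 2)))
        (J1 : Set ℕ) := by
      have main : ∀ m ∈ J1, ∀ m' ∈ J1, m < m' →
          ((n ^ 2 - 1) / m + m, (decide (m < n), m % 2)) =
          ((n ^ 2 - 1) / m' + m', (decide (m' < n), m' % 2)) → False := by
        intro m hm m' hm' hlt heq
        obtain ⟨a1, a2, a3, a4, a5, a6, a7⟩ := facts m hm
        obtain ⟨b1, b2, b3, b4, b5, b6, b7⟩ := facts m' hm'
        rw [Prod.mk.injEq, Prod.mk.injEq] at heq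
        obtain ⟨q1, q2, q3⟩ := heq
        rw [decide_eq_decide] at q2
        generalize hN : (n ^ 2 - 1) / m = N at *
        generalize hN' : (n ^ 2 - 1) / m' = N' at *
        have hside : (n ≤ m ∧ n ≤ m') ∨ (m < n ∧ m' < n) := by
          by_cases hmn : m < n
          · right; exact ⟨hmn, q2.mp hmn⟩
          · left; exact ⟨not_lt.mp hmn, not_lt.mp (fun h => hmn (q2.mpr h))⟩
        have hm2 : m + 2 ≤ m' := by omega
        refine A1_inj n m m' N N' (Int.natCast_nonneg _) (by exact_mod_cast a1)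
          (Int.natCast_nonneg _) (Int.natCast_nonneg _) (by exact_mod_cast a5)
          (by exact_mod_cast a6) (by exact_mod_cast b5) (by exact_mod_cast b6)
          (by exact_mod_cast a7) (by exact_mod_cast q1) (by exact_mod_cast hm2)
          (by exact_mod_cast hside)
      intro m hm m' hm' heq
      by_contra hne
      rcases lt_or_gt_of_ne hne with h | h
      · exact main m hm m' hm' h heq
      · exact main m' hm' m hm h heq.symm
    have hmaps : ∀ m ∈ J1, (fun m => ((n ^ 2 - 1) / m + m, (decide (m < n), m % 2))) m ∈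
        (Finset.Icc (2 * n - 1) (2 * n + 2 * T ^ 2)) ×ˢ
          ((Finset.univ : Finset Bool) ×ˢ (Finset.range 2)) := by
      intro m hm
      have hmJ : m ∈ J := (Finset.mem_filter.mp hm).1
      simp only [Finset.mem_product, Finset.mem_univ, Finset.mem_range, true_and]
      exact ⟨range m hmJ, Nat.mod_lt _ (by norm_num)⟩
    have hcard := Finset.card_le_card_of_injOn _ hmaps hinj
    refine hcard.trans ?_
    rw [Finset.card_product, Finset.card_product, Nat.card_Icc, Finset.card_univ, Fintype.card_bool,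
      Finset.card_range]
    apply Nat.mul_le_mul_right
    omega
  -- second part
  have hc2' : J2.card ≤ (2 * T ^ 2 + 2) * (K * (2 * 2)) := by
    set g : ℕ → ℕ × (ℕ × (Bool × Bool)) := fun m =>
      if ((n ^ 2 - 1) / m) * m ∈ E then
        ((n ^ 2 - 1) / m + m, (((n ^ 2 - 1) / m) * m, (true, decide ((n ^ 2 - 1) / m < m))))
      else
        ((n ^ 2 - 1) / m + m, (((n ^ 2 - 1) / m) * (m + 1),
          (false, decide ((n ^ 2 - 1) / m < m + 1)))) with hg
    have hinj : Set.InjOn g (J2 : Set ℕ) := by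
      intro m hm m' hm' heq
      rw [hg] at heq
      simp only at heq
      generalize hN : (n ^ 2 - 1) / m = N at *
      generalize hN' : (n ^ 2 - 1) / m' = N' at *
      by_cases h1 : N * m ∈ E
      · by_cases h2 : N' * m' ∈ E
        · rw [if_pos h1, if_pos h2] at heq
          simp only [Prod.mk.injEq, true_and, decide_eq_decide] at heq
          obtain ⟨q1, q2, q3⟩ := heq
          have := sum_prod_inj N m N' m' q1 q2 q3
          omega
        · rw [if_pos h1, if_neg h2] at heq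
          simp at heq
      · by_cases h2 : N' * m' ∈ E
        · rw [if_neg h1, if_pos h2] at heq
          simp at heq
        · rw [if_neg h1, if_neg h2] at heq
          simp only [Prod.mk.injEq, true_and, decide_eq_decide] at heq
          obtain ⟨q1, q2, q3⟩ := heq
          have := sum_prod_inj N (m + 1) N' (m' + 1) (by omega) q2 q3
          omega
    have hmaps : ∀ m ∈ J2, g m ∈
        (Finset.Icc (2 * n - 1) (2 * n + 2 * T ^ 2)) ×ˢ
          (E ×ˢ ((Finset.univ : Finset Bool) ×ˢ (Finset.univ : Finset Bool))) := by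
      intro m hm
      rw [hJ2, Finset.mem_filter] at hm
      obtain ⟨hmJ, hex⟩ := hm
      have hr := range m hmJ
      rw [hg]
      simp only
      split_ifs with h1
      · simp only [Finset.mem_product, Finset.mem_univ, and_true]
        exact ⟨hr, h1⟩
      · simp only [Finset.mem_product, Finset.mem_univ, and_true]
        refine ⟨hr, ?_⟩
        by_contra h2
        exact hex ⟨h1, h2⟩
    have hcard := Finset.card_le_card_of_injOn _ hmaps hinj
    refine hcard.trans ?_
    rw [Finset.card_product, Finset.card_product, Finset.card_product, Nat.card_Icc,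
      Finset.card_univ, Fintype.card_bool]
    apply Nat.mul_le_mul
    · omega
    · exact Nat.mul_le_mul_right _ hE
  rw [hsplit]
  exact Nat.add_le_add hc1' hc2'

end Pool.Agent.H447R4.PA
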