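import Pool.Agent.H447R4.PA.Par

set_option autoImplicit false

/-!
For every X, the interval (X, X + 2 sqrt X + 3] contains numbers of both parities.
-/

namespace Pool.Agent.H447R4.PA

/-- search -/
def fnd : ℕ → ℕ → ℕ → Bool
  | 0, _, _ => false
  | f + 1, X, k =>
    if par (X + 1 + k) + par (X + 2 + k) = 1 then Nat.ble ((k - 1) * (k - 1)) (4 * X)
    else fnd f X (k + 1)

theorem fnd_spec (f : ℕ) : ∀ X k : ℕ, fnd f X k = true →
    ∃ k', par (X + 1 + k') + par (X + 2 + k') = 1 ∧ (k' - 1) * (k' - 1) ≤ 4 * X := by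
  induction f with
  | zero => intro X k h; simp [fnd] at h
  | succ f ih =>
    intro X k h
    unfold fnd at h
    split_ifs at h with h1
    · exact ⟨k, h1, Nat.le_of_ble_eq_true h⟩
    · exact ih X (k + 1) h

/-- all X in [a, a + m) -/
def allf : ℕ → ℕ → Bool
  | 0, _ => true
  | m + 1, a => if fnd 60 a 0 then allf m (a + 1) else false

theorem allf_spec (m : ℕ) : ∀ a : ℕ, allf m a = true → ∀ X, a ≤ X → X < a + m →
    fnd 60 X 0 = true := by
  induction m with
  | zero => intro a _ X h1 h2; omega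
  | succ m ih =>
    intro a h X h1 h2
    unfold allf at h
    split_ifs at h with h3
    rcases Nat.lt_or_ge a X with h4 | h4
    · exact ih (a + 1) h X (by omega) (by omega)
    · have : X = a := by omega
      rw [this]; exact h3

theorem allf_ok : allf 2401 0 = true := by decide +kernel

theorem ne_of_par (j : ℕ) (hj : 1 ≤ j) (h : par j + par (j + 1) = 1) :
    lam j ≠ lam (j + 1) := by
  have h1 := par_spec j hj (by omega)
  have h2 := par_spec (j + 1) (by omega) (by omega)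
  intro h3
  rcases (show par j = 0 ∨ par j = 1 by omega) with h4 | h4
  · have e1 : lam j = 1 := (lam_eq_one j).mpr (by omega)
    have e2 : lam (j + 1) = -1 := (lam_eq_neg_one (j + 1)).mpr (by omega)
    rw [e1, e2] at h3
    norm_num at h3
  · have e1 : lam j = -1 := (lam_eq_neg_one j).mpr (by omega)
    have e2 : lam (j + 1) = 1 := (lam_eq_one (j + 1)).mpr (by omega)
    rw [e1, e2] at h3
    norm_num at h3

/-- a sign change between two values of different sign -/
theorem change_between (a b : ℕ) (hab : a ≤ b) (h : lam a ≠ lam b) :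
    ∃ m, a ≤ m ∧ m < b ∧ lam m ≠ lam (m + 1) := by
  by_contra hno
  push Not at hno
  have hconst : ∀ k, a + k ≤ b → lam a = lam (a + k) := by
    intro k
    induction k with
    | zero => intro _; rfl
    | succ k ih =>
      intro hk
      rw [ih (by omega)]
      exact hno (a + k) (by omega) (by omega)
  apply h
  have := hconst (b - a) (by omega)
  rw [show a + (b - a) = b by omega] at this
  exact this

/-- the induction step -/
theorem step (X s w m : ℕ) (hs1 : s ^ 2 ≤ X) (hs2 : X < (s + 1) ^ 2) (hw1 : w ^ 2 ≤ s)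
    (hw7 : 7 ≤ w) (hm1 : s ≤ m + w + 1) (hm2 : m ≤ s + w + 1) (hch : lam m ≠ lam (m + 1)) :
    ∃ m', X < m' ∧ ((m' + 1 : ℕ) : ℝ) ≤ X + 2 * Real.sqrt X + 3 ∧ lam m' ≠ lam (m' + 1) := by
  have hws : 7 * w ≤ s := by nlinarith
  have hm0 : 1 ≤ m := by omega
  obtain ⟨Q, hQ⟩ : ∃ Q, Q = X / m := ⟨_, rfl⟩
  have hQ1 : Q * m ≤ X := by rw [hQ]; exact Nat.div_mul_le_self _ _
  have hQ2 : X < (Q + 1) * m := by rw [hQ, add_mul, one_mul]; exact Nat.lt_div_mul_add hm0
  have hne : lam ((Q + 1) * m) ≠ lam ((Q + 1) * (m + 1)) := by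
    rw [lam_CM.mul (Q + 1) m (by omega) hm0, lam_CM.mul (Q + 1) (m + 1) (by omega) (by omega)]
    rcases lam_CM.val (Q + 1) (by omega) with h | h <;> rw [h]
    · intro h'; exact hch (by linarith)
    · intro h'; exact hch (by linarith)
  obtain ⟨m', h1, h2, h3⟩ := change_between _ _ (Nat.mul_le_mul_left _ (by omega)) hne
  refine ⟨m', by omega, ?_, h3⟩
  obtain ⟨x, hx⟩ : ∃ x, x = Real.sqrt X := ⟨_, rfl⟩
  have hx0 : 0 ≤ x := by rw [hx]; exact Real.sqrt_nonneg _
  have hxx : x ^ 2 = X := by rw [hx]; exact Real.sq_sqrt (Nat.cast_nonneg _)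
  rw [← hx]
  have hsx : (s : ℝ) ≤ x := by
    have : ((s : ℝ)) ^ 2 ≤ x ^ 2 := by rw [hxx]; exact_mod_cast hs1
    exact le_of_sq_le_sq this hx0
  have hxs : x < s + 1 := by
    have : x ^ 2 < ((s : ℝ) + 1) ^ 2 := by rw [hxx]; exact_mod_cast hs2
    exact lt_of_pow_lt_pow_left₀ 2 (by positivity) this
  have e1 : (s : ℝ) ≤ m + w + 1 := by exact_mod_cast hm1
  have e2 : (m : ℝ) ≤ s + w + 1 := by exact_mod_cast hm2
  have e3 : (w : ℝ) ^ 2 ≤ s := by exact_mod_cast hw1
  have e4 : (7 : ℝ) ≤ w := by exact_mod_cast hw7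
  have e5 : (Q : ℝ) * m ≤ x ^ 2 := by rw [hxx]; exact_mod_cast hQ1
  have hmpos : (0 : ℝ) < m := by exact_mod_cast hm0
  have hdev : (m - x) ^ 2 ≤ ((w : ℝ) + 2) ^ 2 := by
    apply sq_le_sq'
    · linarith
    · linarith
  have hkey : ((w : ℝ) + 2) ^ 2 ≤ 2 * m := by nlinarith
  have hmQ : (m : ℝ) + Q ≤ 2 * x + 2 := by
    have : ((m : ℝ) + Q) * m ≤ (2 * x + 2) * m := by nlinarith
    exact le_of_mul_le_mul_right this hmpos
  have h4 : ((m' + 1 : ℕ) : ℝ) ≤ (Q + 1) * (m + 1) := by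
    have : m' + 1 ≤ (Q + 1) * (m + 1) := h2
    exact_mod_cast this
  have h5 : ((Q : ℝ) + 1) * (m + 1) = Q * m + (m + Q + 1) := by ring
  rw [h5] at h4
  have h6 : ((X : ℕ) : ℝ) = x ^ 2 := hxx.symm
  rw [h6]
  linarith

/-- a sign change in every interval of length 2 sqrt X + 3 -/
theorem all_X (X : ℕ) : ∃ m, X < m ∧ ((m + 1 : ℕ) : ℝ) ≤ X + 2 * Real.sqrt X + 3 ∧
    lam m ≠ lam (m + 1) := by
  induction X using Nat.strong_induction_on with
  | _ X ih =>
    rcases Nat.lt_or_ge X 2401 with h | h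
    · obtain ⟨k, hk1, hk2⟩ := fnd_spec 60 X 0 (allf_spec 2401 0 allf_ok X (by omega) (by omega))
      have hk3 : par (X + 1 + k) + par (X + 1 + k + 1) = 1 := by
        rw [show X + 1 + k + 1 = X + 2 + k by omega]; exact hk1
      refine ⟨X + 1 + k, by omega, ?_, ne_of_par _ (by omega) hk3⟩
      have hx0 : 0 ≤ Real.sqrt X := Real.sqrt_nonneg _
      have hxx : Real.sqrt X ^ 2 = X := Real.sq_sqrt (Nat.cast_nonneg _)
      rcases Nat.eq_zero_or_pos k with h0 | h0
      · rw [h0]; push_cast; linarith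
      · obtain ⟨l, rfl⟩ : ∃ l, k = l + 1 := ⟨k - 1, by omega⟩
        rw [Nat.add_sub_cancel] at hk2
        have h1 : (l : ℝ) * l ≤ 4 * X := by exact_mod_cast hk2
        have h2 : (l : ℝ) ≤ 2 * Real.sqrt X := by
          apply le_of_sq_le_sq _ (by positivity)
          nlinarith
        push_cast
        linarith
    · obtain ⟨s, hs⟩ : ∃ s, s = X.sqrt := ⟨_, rfl⟩
      obtain ⟨w, hw⟩ : ∃ w, w = s.sqrt := ⟨_, rfl⟩
      have hs1 : s ^ 2 ≤ X := by rw [hs]; exact Nat.sqrt_le' X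
      have hs2 : X < (s + 1) ^ 2 := by rw [hs]; exact Nat.lt_succ_sqrt' X
      have hw1 : w ^ 2 ≤ s := by rw [hw]; exact Nat.sqrt_le' s
      have hw2 : s < (w + 1) ^ 2 := by rw [hw]; exact Nat.lt_succ_sqrt' s
      have hs49 : 49 ≤ s := by rw [hs, Nat.le_sqrt']; omega
      have hw7 : 7 ≤ w := by rw [hw, Nat.le_sqrt']; omega
      have hws : 7 * w ≤ s := by nlinarith
      have hsX : s ≤ X := by nlinarith
      obtain ⟨m, h1, h2, h3⟩ := ih (s - w - 2) (by omega)
      refine step X s w m hs1 hs2 hw1 hw7 (by omega) ?_ h3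
      obtain ⟨t, ht⟩ : ∃ t, t = s - w - 2 := ⟨_, rfl⟩
      rw [← ht] at h2
      have hts : (t : ℝ) < ((w : ℝ) + 1) ^ 2 := by
        have : t < (w + 1) ^ 2 := by omega
        exact_mod_cast this
      have h4 : Real.sqrt t < w + 1 := by
        rw [Real.sqrt_lt' (by positivity)]
        exact hts
      have h5 : ((m + 1 : ℕ) : ℝ) < ((t + 2 * w + 5 : ℕ) : ℝ) := by
        push_cast at h2 ⊢
        linarith
      have h6 : m + 1 < t + 2 * w + 5 := by exact_mod_cast h5
      omega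

end Pool.Agent.H447R4.PA
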