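import Pool.Agent.H447R4.PA.Defs

set_option autoImplicit false

/-!
A set covered by few short sets misses a block.
-/

namespace Pool.Agent.H447R4.PA

namespace BLaux

open Classical in
/-- the blocks met by `s` -/
noncomputable def Kb (G a b : ℕ) (s : Finset ℕ) : Finset ℕ :=
  (Finset.range (2 * G + 1)).filter (fun k => ∃ p ∈ s, a + k * b ≤ p ∧ p < a + (k + 1) * b)

theorem mem_Kb (G a b : ℕ) (s : Finset ℕ) (k : ℕ) : k ∈ Kb G a b s ↔
    k < 2 * G + 1 ∧ ∃ p ∈ s, a + k * b ≤ p ∧ p < a + (k + 1) * b := by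
  unfold Kb
  rw [Finset.mem_filter, Finset.mem_range]

theorem card_Kb (G w a b : ℕ) (s : Finset ℕ) (hw : w < b)
    (hs : ∀ p ∈ s, ∀ q ∈ s, q ≤ p + w) : (Kb G a b s).card ≤ 2 := by
  by_cases hne : (Kb G a b s).Nonempty
  · have hsub : Kb G a b s ⊆ {(Kb G a b s).min' hne, (Kb G a b s).min' hne + 1} := by
      intro k hk
      have h1 := Finset.min'_le _ k hk
      have h2 := Finset.min'_mem _ hne
      generalize (Kb G a b s).min' hne = m at h1 h2
      rw [mem_Kb] at hk h2
      obtain ⟨-, p, hp, hp1, hp2⟩ := h2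
      obtain ⟨-, q, hq, hq1, hq2⟩ := hk
      have h3 := hs p hp q hq
      rw [Finset.mem_insert, Finset.mem_singleton]
      by_contra h
      have h4 : m + 2 ≤ k := by omega
      have h5 : (m + 2) * b ≤ k * b := Nat.mul_le_mul_right b h4
      have h6 : (m + 2) * b = (m + 1) * b + b := by ring
      omega
    exact (Finset.card_le_card hsub).trans Finset.card_le_two
  · rw [Finset.not_nonempty_iff_eq_empty.1 hne]
    simp

end BLaux

open BLaux in
/-- BL -/
theorem t_BL : S_BL := by
  classical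
  intro G w a b S hS hw hs
  by_contra hcon
  push Not at hcon
  have hsub : Finset.range (2 * G + 1) ⊆ S.biUnion (Kb G a b) := by
    intro k hk
    have hk' := Finset.mem_range.1 hk
    obtain ⟨s, hsS, p, hp, h1, h2⟩ := hcon k (by omega)
    rw [Finset.mem_biUnion]
    exact ⟨s, hsS, (mem_Kb _ _ _ _ _).2 ⟨hk', p, hp, h1, h2⟩⟩
  have h1 := Finset.card_le_card hsub
  have h2 := Finset.card_biUnion_le_card_mul S (Kb G a b) 2
    (fun s hsS => card_Kb G w a b s hw (hs s hsS))
  rw [Finset.card_range] at h1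
  omega

end Pool.Agent.H447R4.PA
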