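import Pool.Agent.H447R4.PA.Defs

set_option autoImplicit false

open Finset

namespace Pool.Agent.H447R4.PA

/-- at most two m have the same products. -/
theorem br_fiber (N : ℕ → ℕ) (S : Finset ℕ) (y1 y2 d1 d2 : ℕ) (h1 : d1 < 2) (h2 : d2 < 2)
    (hS : ∀ m ∈ S, N m * (m + d1) = y1 ∧ (N m + 1) * (m + d2) = y2) : S.card ≤ 2 := by
  by_contra hcon
  push Not at hcon
  obtain ⟨a, ha, b, hb, c, hc, hab, hac, hbc⟩ := two_lt_card.mp hcon
  obtain ⟨a1, a2⟩ := hS a ha
  obtain ⟨b1, b2⟩ := hS b hb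
  obtain ⟨c1, c2⟩ := hS c hc
  have z1 : (N a : ℤ) * (a + d1) = y1 := by exact_mod_cast a1
  have z2 : ((N a : ℤ) + 1) * (a + d2) = y2 := by exact_mod_cast a2
  have w1 : (N b : ℤ) * (b + d1) = y1 := by exact_mod_cast b1
  have w2 : ((N b : ℤ) + 1) * (b + d2) = y2 := by exact_mod_cast b2
  have v1 : (N c : ℤ) * (c + d1) = y1 := by exact_mod_cast c1
  have v2 : ((N c : ℤ) + 1) * (c + d2) = y2 := by exact_mod_cast c2
  have hab' : (a : ℤ) - b ≠ 0 := by
    intro h; apply hab; exact_mod_cast sub_eq_zero.mp h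
  have hac' : (a : ℤ) - c ≠ 0 := by
    intro h; apply hac; exact_mod_cast sub_eq_zero.mp h
  obtain rfl | rfl : d1 = 0 ∨ d1 = 1 := by omega
  · obtain rfl | rfl : d2 = 0 ∨ d2 = 1 := by omega
    · apply hab
      push_cast at z1 z2 w1 w2
      have : (a : ℤ) = b := by linarith
      exact_mod_cast this
    · push_cast at z1 z2 w1 w2 v1 v2
      have e1 : ((a : ℤ) - b) * (N a - b) = 0 := by
        have h : (N b : ℤ) = N a + a - b := by linarith
        rw [h] at w1
        linear_combination z1 - w1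
      have e2 : ((a : ℤ) - c) * (N a - c) = 0 := by
        have h : (N c : ℤ) = N a + a - c := by linarith
        rw [h] at v1
        linear_combination z1 - v1
      have f1 := (mul_eq_zero.mp e1).resolve_left hab'
      have f2 := (mul_eq_zero.mp e2).resolve_left hac'
      apply hbc
      have : (b : ℤ) = c := by linarith
      exact_mod_cast this
  · obtain rfl | rfl : d2 = 0 ∨ d2 = 1 := by omega
    · push_cast at z1 z2 w1 w2
      have h : (N b : ℤ) = N a + b - a := by linarith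
      rw [h] at w1
      have e1 : ((a : ℤ) - b) * (N a + b + 1) = 0 := by
        linear_combination z1 - w1
      have f1 := (mul_eq_zero.mp e1).resolve_left hab'
      have : (0 : ℤ) ≤ N a := Int.natCast_nonneg _
      have : (0 : ℤ) ≤ b := Int.natCast_nonneg _
      linarith
    · apply hab
      push_cast at z1 z2 w1 w2
      have : (a : ℤ) = b := by linarith
      exact_mod_cast this

theorem t_BR (hNL : S_NL) (hBL : S_BL) : S_BR := by
  refine ⟨20000, ?_⟩
  intro f hf n K hn c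
  by_contra hcon
  push Not at hcon
  set E := (Finset.Ioo (n ^ 2) ((n + 2) ^ 2)).filter (fun y => f y ≠ c) with hE
  have hn0 : 20000 ≤ n := by
    have : 1 ≤ (K + 1) ^ 4 := Nat.one_le_pow _ _ (by omega)
    omega
  set a₀ := (n + 1) / 2 with ha₀
  have ha1 : n ≤ 2 * a₀ := by omega
  have ha2 : 2 * a₀ ≤ n + 1 := by omega
  let N : ℕ → ℕ := fun m => n ^ 2 / m + 1
  have hN1 : ∀ m, 1 ≤ m → n ^ 2 < N m * m := by
    intro m hm
    have := Nat.lt_mul_div_succ (n ^ 2) (show 0 < m by omega)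
    rw [mul_comm] at this
    exact this
  have hN2 : ∀ m, a₀ ≤ m → m < a₀ + n → (N m + 1) * (m + 1) < (n + 2) ^ 2 := by
    intro m hm1 hm2
    have h1 : n ^ 2 / m * m ≤ n ^ 2 := Nat.div_mul_le_self _ _
    have h2 : n ^ 2 / m + 2 * m < 4 * n + 2 := by
      by_contra hlt
      push Not at hlt
      obtain ⟨x, hx⟩ : ∃ x, 2 * m = n + x := ⟨2 * m - n, by omega⟩
      obtain ⟨z, hz⟩ : ∃ z, 3 * n = 2 * m + z := ⟨3 * n - 2 * m, by omega⟩
      set q := n ^ 2 / m
      -- work in integers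
      have i1 : (q : ℤ) * m ≤ (n : ℤ) ^ 2 := by exact_mod_cast h1
      have i2 : (4 : ℤ) * n + 2 ≤ q + 2 * m := by exact_mod_cast hlt
      have i3 : (0 : ℤ) ≤ (2 * m - n) * (3 * n - 2 * m) := by
        apply mul_nonneg
        · have : (n : ℤ) ≤ 2 * m := by exact_mod_cast (by omega : n ≤ 2 * m)
          linarith
        · have : (2 : ℤ) * m ≤ 3 * n := by exact_mod_cast (by omega : 2 * m ≤ 3 * n)
          linarith
      have i4 : (0 : ℤ) < m := by exact_mod_cast (by omega : 0 < m)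
      have i5 : (0 : ℤ) < n := by exact_mod_cast (by omega : 0 < n)
      have i6 : ((4 : ℤ) * n + 2 - 2 * m) * m ≤ q * m := by
        apply mul_le_mul_of_nonneg_right _ i4.le
        linarith
      nlinarith
    have h3 : (N m + 1) * (m + 1) = n ^ 2 / m * m + n ^ 2 / m + 2 * m + 2 := by
      simp only [N]; ring
    rw [h3]
    have h4 : (n + 2) ^ 2 = n ^ 2 + 4 * n + 4 := by ring
    omega
  -- a jump gives an element of E
  have key : ∀ m L, 1 ≤ m → 1 ≤ L → n ^ 2 < L * m → L * (m + 1) < (n + 2) ^ 2 →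
      f m ≠ f (m + 1) → ∃ d, d < 2 ∧ L * (m + d) ∈ E := by
    intro m L hm hL h1 h2 h3
    by_contra hno
    push Not at hno
    have g0 := hno 0 (by omega)
    have g1 := hno 1 (by omega)
    have h4 : L * m < L * (m + 1) := Nat.mul_lt_mul_of_pos_left (by omega) (by omega)
    rw [hE, mem_filter, mem_Ioo, not_and_not_right] at g0 g1
    have e0 := g0 ⟨by rw [add_zero]; exact h1, by rw [add_zero]; omega⟩
    have e1 := g1 ⟨by omega, h2⟩
    rw [add_zero, hf.mul L m hL hm] at e0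
    rw [hf.mul L (m + 1) hL (by omega)] at e1
    have h5 : f L * (f m - f (m + 1)) = 0 := by rw [mul_sub, e0, e1]; ring
    rcases mul_eq_zero.mp h5 with h6 | h6
    · rcases hf.val L hL with h7 | h7 <;> omega
    · exact h3 (by omega)
  set Ex := (Finset.Ico a₀ (a₀ + n)).filter (fun m => f m ≠ f (m + 1)) with hEx
  have hmem : ∀ m ∈ Ex, a₀ ≤ m ∧ m < a₀ + n ∧ f m ≠ f (m + 1) := by
    intro m hm
    rw [hEx, mem_filter, mem_Ico] at hm
    exact ⟨hm.1.1, hm.1.2, hm.2⟩
  have hch : ∀ m, ∃ d1 d2 : ℕ, m ∈ Ex → d1 < 2 ∧ d2 < 2 ∧ N m * (m + d1) ∈ E ∧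
      (N m + 1) * (m + d2) ∈ E := by
    intro m
    by_cases hm : m ∈ Ex
    · obtain ⟨h1, h2, h3⟩ := hmem m hm
      have hm1 : 1 ≤ m := by omega
      have g1 := hN1 m hm1
      have g2 := hN2 m h1 h2
      have g3 : N m * (m + 1) ≤ (N m + 1) * (m + 1) := Nat.mul_le_mul_right _ (by omega)
      have g4 : N m * m ≤ (N m + 1) * m := Nat.mul_le_mul_right _ (by omega)
      obtain ⟨d1, hd1, hd1'⟩ := key m (N m) hm1 (Nat.le_add_left 1 _) g1 (by omega) h3
      obtain ⟨d2, hd2, hd2'⟩ := key m (N m + 1) hm1 (by omega) (by omega) g2 h3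
      exact ⟨d1, d2, fun _ => ⟨hd1, hd2, hd1', hd2'⟩⟩
    · exact ⟨0, 0, fun h => absurd h hm⟩
  choose d1 d2 hd using hch
  have hcardEx : Ex.card ≤ 2 * (E.card * (E.card * (2 * 2))) := by
    have h := card_le_mul_card_image_of_maps_to (s := Ex)
      (t := E ×ˢ (E ×ˢ (range 2 ×ˢ range 2)))
      (f := fun m => (N m * (m + d1 m), (N m + 1) * (m + d2 m), d1 m, d2 m)) ?_ 2 ?_
    · rw [card_product, card_product, card_product, card_range] at h
      exact h
    · intro m hm
      obtain ⟨h1, h2, h3, h4⟩ := hd m hm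
      simp only [mem_product, mem_range]
      exact ⟨h3, h4, h1, h2⟩
    · rintro ⟨y1, y2, e1, e2⟩ hy
      simp only [mem_product, mem_range] at hy
      refine br_fiber N _ y1 y2 e1 e2 hy.2.2.1 hy.2.2.2 ?_
      intro m hm
      rw [mem_filter] at hm
      have h := hm.2
      simp only [Prod.mk.injEq] at h
      obtain ⟨h1, h2, h3, h4⟩ := h
      rw [← h3, ← h4]
      exact ⟨h1, h2⟩
  have hG : Ex.card ≤ 8 * (K * K) := by
    refine hcardEx.trans ?_
    have : E.card * (E.card * (2 * 2)) ≤ K * (K * (2 * 2)) :=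
      Nat.mul_le_mul hcon (Nat.mul_le_mul_right _ hcon)
    have e : K * (K * (2 * 2)) = 4 * (K * K) := by ring
    omega
  set M := 16 * (K * K) + 1 with hM
  have hM2 : 16 * (4 * M + 1) * M ≤ n := by
    have h1 : M ≤ 17 * (K + 1) ^ 2 := by rw [hM]; nlinarith [Nat.zero_le K]
    have h2 : 1 ≤ (K + 1) ^ 2 := Nat.one_le_pow _ _ (by omega)
    have h3 : 4 * M + 1 ≤ 69 * (K + 1) ^ 2 := by omega
    calc 16 * (4 * M + 1) * M ≤ 16 * (69 * (K + 1) ^ 2) * (17 * (K + 1) ^ 2) :=
          Nat.mul_le_mul (Nat.mul_le_mul_left _ h3) h1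
      _ = 18768 * (K + 1) ^ 4 := by ring
      _ ≤ n := by omega
  set b := n / M with hb
  have hb1 : 16 * (4 * M + 1) ≤ b := by
    rw [hb, Nat.le_div_iff_mul_le (by omega)]
    exact hM2
  have hbM : b * M ≤ n := Nat.div_mul_le_self _ _
  have hbM2 : n < M * (b + 1) := Nat.lt_mul_div_succ n (by omega)
  obtain ⟨k, hk, hk'⟩ := hBL (8 * (K * K)) 0 a₀ b (Ex.image (fun m => ({m} : Finset ℕ)))
    (card_image_le.trans hG) (by omega) (by
      intro s hs p hp q hq
      rw [mem_image] at hs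
      obtain ⟨m, _, rfl⟩ := hs
      rw [mem_singleton] at hp hq
      omega)
  have hkb : (k + 1) * b ≤ n := by
    have h1 : (k + 1) * b ≤ M * b := Nat.mul_le_mul_right _ (by omega)
    have h2 : M * b = b * M := mul_comm _ _
    omega
  have hkb' : k * b + b = (k + 1) * b := by ring
  refine hNL f hf (4 * M) (a₀ + k * b) b (by omega) ?_ hb1 ?_
  · have h1 : M * (b + 1) ≤ 2 * (M * b) := by
      have : M * 1 ≤ M * b := Nat.mul_le_mul_left _ (by omega)
      rw [mul_add]; omega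
    have h2 : 4 * M * b = 4 * (M * b) := by ring
    omega
  · intro m hm1 hm2
    by_contra hne
    have hmEx : m ∈ Ex := by
      rw [hEx, mem_filter, mem_Ico]
      exact ⟨⟨by omega, by omega⟩, hne⟩
    exact hk' {m} (mem_image_of_mem _ hmEx) m (mem_singleton_self _) ⟨hm1, by omega⟩

end Pool.Agent.H447R4.PA
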