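import Pool.Agent.H447R4.PA.Win
import Pool.Agent.Helper924.MW.Lower

set_option autoImplicit false

/-!
Many numbers of each parity in (X, X + (11/5) sqrt X], from a positive proportion of sign changes.
-/

namespace Pool.Agent.H447R4.PA

open Finset


theorem geom (X m : ℕ) (hs : 1000 ≤ X.sqrt) (h1 : 5 * X.sqrt / 7 < m)
    (h2 : m ≤ 2 * (5 * X.sqrt / 7)) :
    1 ≤ m ∧ X < (X / m + 1) * m ∧ (X / m + 1) * (m + 1) ≤ X + 11 * X.sqrt / 5 := by
  set s := X.sqrt with hsdef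
  have hm : 1 ≤ m := by omega
  have e1 : X < (X / m + 1) * m := by
    rw [add_mul, one_mul]; exact Nat.lt_div_mul_add hm
  refine ⟨hm, e1, ?_⟩
  have h3 : X / m * m ≤ X := Nat.div_mul_le_self _ _
  have h4 : X ≤ s * s + s + s := Nat.sqrt_le_add X
  have h5 : 5 * s < 7 * m := by omega
  have h6 : 7 * m ≤ 10 * s := by omega
  have key : 5 * (m + X / m + 1) ≤ 11 * s := by
    by_contra hcon
    push Not at hcon
    generalize X / m = Q at *
    zify at *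
    have h7 : (11 * (s : ℤ) - 5 * m - 5) * m ≤ 5 * Q * m := by
      apply mul_le_mul_of_nonneg_right _ (by linarith)
      linarith
    have h8 : (0 : ℤ) ≤ (7 * m - 5 * s) * (10 * s - 7 * m) :=
      mul_nonneg (by linarith) (by linarith)
    have h9 : (1000 : ℤ) * m ≤ s * m := mul_le_mul_of_nonneg_right hs (by linarith)
    have h10 : (1000 : ℤ) * s ≤ s * s := mul_le_mul_of_nonneg_right hs (by linarith)
    nlinarith
  have e2 : (X / m + 1) * (m + 1) = X / m * m + (m + X / m + 1) := by ring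
  rw [e2]
  omega

theorem lm_pm (n : ℕ) : H376R2.MR.lam n = 1 ∨ H376R2.MR.lam n = -1 := by
  unfold Pool.Agent.H376R2.MR.lam
  exact neg_one_pow_eq_or ℤ _

theorem lm_mul (m n : ℕ) (hm : m ≠ 0) (hn : n ≠ 0) : H376R2.MR.lam (m * n) = H376R2.MR.lam m * H376R2.MR.lam n := by
  unfold Pool.Agent.H376R2.MR.lam
  rw [ArithmeticFunction.cardFactors_mul hm hn, pow_add]

/-- the count, in terms of a bound D for the number of divisors -/
theorem count_D (X D : ℕ) (hs : 1000 ≤ X.sqrt)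
    (hD : ∀ y, 1 ≤ y → y ≤ X + 11 * X.sqrt / 5 → y.divisors.card ≤ D) (c : ℤ)
    (hc : c = 1 ∨ c = -1) :
    W (5 * X.sqrt / 7) (2 * (5 * X.sqrt / 7)) ≤
      (2 * D) * ((Finset.Ioc X (X + 11 * X.sqrt / 5)).filter (fun y => H376R2.MR.lam y = c)).card := by
  unfold W
  refine Finset.card_le_mul_card_image_of_maps_to
    (f := fun m => if H376R2.MR.lam ((X / m + 1) * m) = c then (X / m + 1) * m else (X / m + 1) * (m + 1))
    ?_ _ ?_
  · intro m hm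
    rw [Finset.mem_filter, Finset.mem_Ioc] at hm
    obtain ⟨⟨h1, h2⟩, h3⟩ := hm
    obtain ⟨g0, g1, g2⟩ := geom X m hs h1 h2
    have g3 : (X / m + 1) * m ≤ (X / m + 1) * (m + 1) := Nat.mul_le_mul_left _ (by omega)
    rw [Finset.mem_filter, Finset.mem_Ioc]
    split_ifs with h4
    · exact ⟨⟨g1, by omega⟩, h4⟩
    · refine ⟨⟨by omega, g2⟩, ?_⟩
      rw [lm_mul (X / m + 1) m (Nat.succ_ne_zero _) (Nat.pos_iff_ne_zero.mp g0)] at h4
      rw [lm_mul (X / m + 1) (m + 1) (Nat.succ_ne_zero _) (Nat.succ_ne_zero _)]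
      rcases lm_pm (X / m + 1) with q1 | q1 <;> rcases lm_pm m with q2 | q2 <;>
        rcases lm_pm (m + 1) with q3 | q3 <;> rcases hc with q4 | q4 <;>
        rw [q1, q2, q4] at h4 <;> rw [q2, q3] at h3 <;> rw [q1, q3, q4] <;> revert h3 h4 <;>
        decide
  · intro y hy
    rw [Finset.mem_filter, Finset.mem_Ioc] at hy
    have hDy := hD y (by omega) hy.1.2
    have hsub : (((Finset.Ioc (5 * X.sqrt / 7) (2 * (5 * X.sqrt / 7))).filter
        (fun n => H376R2.MR.lam n ≠ H376R2.MR.lam (n + 1))).filter (fun m => (if H376R2.MR.lam ((X / m + 1) * m) = c then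
          (X / m + 1) * m else (X / m + 1) * (m + 1)) = y)) ⊆
        y.divisors ∪ (y.divisors.image (fun d => d - 1)) := by
      intro m hm
      rw [Finset.mem_filter, Finset.mem_filter, Finset.mem_Ioc] at hm
      obtain ⟨⟨-, -⟩, h5⟩ := hm
      rw [Finset.mem_union, Nat.mem_divisors, Finset.mem_image]
      split_ifs at h5 with h6
      · left
        exact ⟨Dvd.intro_left _ h5, by omega⟩
      · right
        exact ⟨m + 1, Nat.mem_divisors.mpr ⟨Dvd.intro_left _ h5, by omega⟩, by omega⟩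
    refine (Finset.card_le_card hsub).trans ((Finset.card_union_le _ _).trans ?_)
    have h7 : (y.divisors.image (fun d => d - 1)).card ≤ y.divisors.card := Finset.card_image_le
    omega

theorem div_bound (K : ℕ) (hK : 0 < K) : ∃ C : ℝ, 0 < C ∧ ∀ Y y : ℕ, 1 ≤ y → y ≤ Y →
    (y.divisors.card : ℝ) ≤ (C * Y) ^ ((1 : ℝ) / K) := by
  refine ⟨(((K ^ K * 2) ^ (2 ^ K) : ℕ) : ℝ), by positivity, ?_⟩
  intro Y y h1 h2
  have h3 := Pool.Agent.Helper924.MW.Lower.card_divisors_pow_le K hK y (by omega)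
  have h4 : ((y.divisors.card : ℝ)) ^ K ≤ (((K ^ K * 2) ^ (2 ^ K) : ℕ) : ℝ) * Y := by
    have h5 : ((y.divisors.card) ^ K : ℕ) ≤ (K ^ K * 2) ^ (2 ^ K) * Y :=
      h3.trans (Nat.mul_le_mul_left _ h2)
    exact_mod_cast h5
  have hK' : (K : ℝ) ≠ 0 := by positivity
  calc (y.divisors.card : ℝ) = ((y.divisors.card : ℝ) ^ K) ^ ((1 : ℝ) / K) := by
        rw [← Real.rpow_natCast, ← Real.rpow_mul (Nat.cast_nonneg _), mul_one_div_cancel hK',
          Real.rpow_one]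
    _ ≤ _ := Real.rpow_le_rpow (by positivity) h4 (by positivity)

theorem interval_count (h : ∃ δ : ℝ, 0 < δ ∧ ∃ n₀ : ℕ, ∀ n : ℕ, n₀ ≤ n →
    δ * n ≤ (W n (2 * n) : ℝ)) (ε : ℝ) (hε : 0 < ε) :
    ∃ X₀ : ℕ, ∀ X : ℕ, X₀ ≤ X → ∀ c : ℤ, (c = 1 ∨ c = -1) → (X : ℝ) ^ ((1 : ℝ) / 2 - ε) ≤
      (((Finset.Ioc X (X + 11 * X.sqrt / 5)).filter (fun y => H376R2.MR.lam y = c)).card : ℝ) := by
  obtain ⟨δ, hδ, n₀, hW⟩ := h
  obtain ⟨K₀, hK₀⟩ := exists_nat_gt (2 / ε)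
  have hK : 0 < K₀ := by
    rcases Nat.eq_zero_or_pos K₀ with h0 | h0
    · rw [h0] at hK₀
      have : 0 < 2 / ε := by positivity
      norm_num at hK₀
      linarith
    · exact h0
  have hKR : (0 : ℝ) < K₀ := by exact_mod_cast hK
  have hKe : (1 : ℝ) / K₀ ≤ ε / 2 := by
    rw [div_lt_iff₀ hε] at hK₀
    rw [div_le_div_iff₀ hKR (by norm_num)]
    linarith
  obtain ⟨C, hC, hdiv⟩ := div_bound K₀ hK
  -- threshold
  have htend : Filter.Tendsto (fun X : ℕ => (X : ℝ) ^ (ε / 2)) Filter.atTop Filter.atTop :=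
    (tendsto_rpow_atTop (by positivity)).comp tendsto_natCast_atTop_atTop
  obtain ⟨X₁, hX₁⟩ := Filter.eventually_atTop.mp
    (htend.eventually_ge_atTop ((8 * (4 * C) ^ ((1 : ℝ) / K₀)) / δ))
  refine ⟨max X₁ ((max 1000 (2 * n₀)) ^ 2), ?_⟩
  intro X hX c hc
  have hX1 : X₁ ≤ X := le_trans (le_max_left _ _) hX
  have hs : max 1000 (2 * n₀) ≤ X.sqrt := by
    rw [Nat.le_sqrt']; exact le_trans (le_max_right _ _) hX
  have hs1 : 1000 ≤ X.sqrt := le_trans (le_max_left _ _) hs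
  have hs2 : 2 * n₀ ≤ X.sqrt := le_trans (le_max_right _ _) hs
  have hsX : X.sqrt ≤ X := Nat.sqrt_le_self X
  have hXpos : (0 : ℝ) < X := by
    have : 0 < X := by omega
    exact_mod_cast this
  set D : ℕ := ⌊(C * ((4 * X : ℕ) : ℝ)) ^ ((1 : ℝ) / K₀)⌋₊ with hDdef
  have hD : ∀ y, 1 ≤ y → y ≤ X + 11 * X.sqrt / 5 → y.divisors.card ≤ D := by
    intro y h1 h2
    rw [hDdef]
    apply Nat.le_floor
    exact hdiv (4 * X) y h1 (by omega)
  have hcount := count_D X D hs1 hD c hc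
  have hWa := hW (5 * X.sqrt / 7) (by omega)
  set S := ((Finset.Ioc X (X + 11 * X.sqrt / 5)).filter (fun y => H376R2.MR.lam y = c)).card with hS
  have h1 : δ * ((5 * X.sqrt / 7 : ℕ) : ℝ) ≤ (2 * D) * S := by
    refine hWa.trans ?_
    exact_mod_cast hcount
  have h2 : (X.sqrt : ℝ) / 2 ≤ ((5 * X.sqrt / 7 : ℕ) : ℝ) := by
    have : X.sqrt ≤ 2 * (5 * X.sqrt / 7) := by omega
    have h3 : ((X.sqrt : ℕ) : ℝ) ≤ ((2 * (5 * X.sqrt / 7) : ℕ) : ℝ) := by exact_mod_cast this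
    push_cast at h3
    have h4 : (((5 * X.sqrt / 7 : ℕ)) : ℝ) = ((5 * X.sqrt / 7 : ℕ) : ℝ) := rfl
    rw [Nat.cast_mul] at *
    linarith
  have h3 : (X : ℝ) ^ ((1 : ℝ) / 2) / 2 ≤ (X.sqrt : ℝ) := by
    rw [← Real.sqrt_eq_rpow]
    have h4 : Real.sqrt X ≤ X.sqrt + 1 := Real.real_sqrt_le_nat_sqrt_succ
    have h5 : (1000 : ℝ) ≤ X.sqrt := by exact_mod_cast hs1
    linarith
  have h4 : (D : ℝ) ≤ (4 * C) ^ ((1 : ℝ) / K₀) * (X : ℝ) ^ ((1 : ℝ) / K₀) := by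
    rw [hDdef]
    refine (Nat.floor_le (by positivity)).trans ?_
    rw [← Real.mul_rpow (by positivity) hXpos.le]
    apply le_of_eq
    congr 1
    push_cast
    ring
  have h5 : (X : ℝ) ^ ((1 : ℝ) / K₀) ≤ (X : ℝ) ^ (ε / 2) := by
    apply Real.rpow_le_rpow_of_exponent_le _ hKe
    have : 1 ≤ X := by omega
    exact_mod_cast this
  have h6 := hX₁ X hX1
  rw [div_le_iff₀ hδ] at h6
  -- combine
  have h7 : δ * (X : ℝ) ^ ((1 : ℝ) / 2) ≤
      (8 * (4 * C) ^ ((1 : ℝ) / K₀)) * (X : ℝ) ^ (ε / 2) * S := by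
    have h8 : δ * ((X : ℝ) ^ ((1 : ℝ) / 2) / 4) ≤ (2 * D) * S := by
      refine le_trans ?_ h1
      apply mul_le_mul_of_nonneg_left _ hδ.le
      linarith
    have h9 : (2 * (D : ℝ)) * S ≤ (2 * ((4 * C) ^ ((1 : ℝ) / K₀) * (X : ℝ) ^ (ε / 2))) * S := by
      apply mul_le_mul_of_nonneg_right _ (Nat.cast_nonneg _)
      have : (4 * C) ^ ((1 : ℝ) / K₀) * (X : ℝ) ^ ((1 : ℝ) / K₀) ≤
          (4 * C) ^ ((1 : ℝ) / K₀) * (X : ℝ) ^ (ε / 2) :=
        mul_le_mul_of_nonneg_left h5 (by positivity)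
      linarith
    nlinarith
  have h10 : δ * (X : ℝ) ^ ((1 : ℝ) / 2) ≤ δ * (X : ℝ) ^ ε * S := by
    refine h7.trans ?_
    apply mul_le_mul_of_nonneg_right _ (Nat.cast_nonneg _)
    have h11 : (X : ℝ) ^ ε = (X : ℝ) ^ (ε / 2) * (X : ℝ) ^ (ε / 2) := by
      rw [← Real.rpow_add hXpos]; congr 1; ring
    rw [h11]
    have h12 : (0 : ℝ) < (X : ℝ) ^ (ε / 2) := Real.rpow_pos_of_pos hXpos _
    nlinarith
  have h13 : (X : ℝ) ^ ((1 : ℝ) / 2) ≤ (X : ℝ) ^ ε * S := by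
    have h14 : δ * (X : ℝ) ^ ((1 : ℝ) / 2) ≤ δ * ((X : ℝ) ^ ε * S) := by linarith
    exact le_of_mul_le_mul_left h14 hδ
  rw [Real.rpow_sub hXpos, div_le_iff₀ (Real.rpow_pos_of_pos hXpos _)]
  linarith

end Pool.Agent.H447R4.PA
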