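import Pool.Agent.H447R4.PA.Defs

set_option autoImplicit false

namespace Pool.Agent.H447R4.PA

theorem t_C1 : S_C1 := by
  intro ρ σ y hρ hσ hy
  set R := ρ * σ with hR
  have hR1 : 1 ≤ R := Nat.mul_pos hρ hσ
  set w := y.sqrt with hw
  have hw1 : w * w ≤ y := Nat.sqrt_le y
  have hw2 : y < (w + 1) * (w + 1) := Nat.lt_succ_sqrt y
  have hw4 : 4 * R ≤ w := by
    rw [hw, Nat.le_sqrt]
    nlinarith
  set a := w / R + 1 with ha
  have ha1 : w < R * a := by
    have := Nat.lt_mul_div_succ w (show 0 < R by omega)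
    rw [ha]; exact this
  have ha2 : R * a ≤ w + R := by
    rw [ha, mul_add, mul_one]
    have := Nat.mul_div_le w R
    omega
  have hya : y ≤ R ^ 2 * a ^ 2 := by
    have h1 : (w + 1) * (w + 1) ≤ (R * a) * (R * a) := Nat.mul_le_mul ha1 ha1
    have h2 : R ^ 2 * a ^ 2 = (R * a) * (R * a) := by ring
    omega
  obtain ⟨D, hD⟩ : ∃ D, R ^ 2 * a ^ 2 = y + D := ⟨R ^ 2 * a ^ 2 - y, by omega⟩
  have hD2 : D ≤ 2 * R * w + R ^ 2 := by
    have h1 : (R * a) * (R * a) ≤ (w + R) * (w + R) := Nat.mul_le_mul ha2 ha2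
    nlinarith
  set e := (D / R ^ 2).sqrt with he
  have he1 : R ^ 2 * (e * e) ≤ D := by
    have h1 : e * e ≤ D / R ^ 2 := Nat.sqrt_le _
    calc R ^ 2 * (e * e) ≤ R ^ 2 * (D / R ^ 2) := Nat.mul_le_mul_left _ h1
      _ ≤ D := Nat.mul_div_le _ _
  have he2 : D < R ^ 2 * ((e + 1) * (e + 1)) := by
    have h1 : D / R ^ 2 < (e + 1) * (e + 1) := Nat.lt_succ_sqrt _
    rw [Nat.div_lt_iff_lt_mul (by positivity)] at h1
    rw [mul_comm]; exact h1
  have he3 : R * (e * e) ≤ 2 * w + R := by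
    have h1 : R * (R * (e * e)) ≤ R * (2 * w + R) := by
      calc R * (R * (e * e)) = R ^ 2 * (e * e) := by ring
        _ ≤ 2 * R * w + R ^ 2 := he1.trans hD2
        _ = _ := by ring
    exact Nat.le_of_mul_le_mul_left h1 (by omega)
  have hea : e < a := by
    have h1 : R * e < R * a := by
      by_contra hcon
      push Not at hcon
      have h2 : w < R * e := lt_of_lt_of_le ha1 hcon
      have h3 : w * w < (R * e) * (R * e) := Nat.mul_lt_mul'' h2 h2
      have h4 : (R * e) * (R * e) = R ^ 2 * (e * e) := by ring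
      rw [h4] at h3
      have h5 : w * w < 2 * R * w + R ^ 2 := by omega
      have h6 : (4 * R) * w ≤ w * w := Nat.mul_le_mul_right _ hw4
      have h7 : R * (4 * R) ≤ R * w := Nat.mul_le_mul_left _ hw4
      have h8 : 2 * R * w + 2 * R * w = (4 * R) * w := by ring
      have h9 : R * (4 * R) = R ^ 2 + 3 * R ^ 2 := by ring
      have h10 : 2 * R * w = R * w + R * w := by ring
      omega
    exact Nat.lt_of_mul_lt_mul_left h1
  have hP : R ^ 2 * (a ^ 2 - e ^ 2) = R ^ 2 * a ^ 2 - R ^ 2 * e ^ 2 := Nat.mul_sub _ _ _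
  have hee : R ^ 2 * e ^ 2 = R ^ 2 * (e * e) := by ring
  refine ⟨a, e, hea, ?_, ?_, ha1.le, ha2, ?_⟩
  · rw [hP, hD, hee]
    omega
  · rw [hP, hD, hee]
    have h1 : R ^ 2 * ((e + 1) * (e + 1)) = R ^ 2 * (e * e) + R ^ 2 * (2 * e + 1) := by ring
    omega
  · have h1 : e * e ≤ R * (e * e) := Nat.le_mul_of_pos_left _ hR1
    have h2 : e * e ≤ 4 * w := by
      by_contra hcon
      push Not at hcon
      nlinarith
    rw [pow_two]; exact h2

end Pool.Agent.H447R4.PA
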