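import Pool.Agent.H447R4.PA.Defs

set_option autoImplicit false

/-!
Task C2 of helper447 (by helper659): choice of a ratio avoiding all jumps (pigeonhole).
-/

namespace Pool.Agent.H447R4.PA

theorem C2_t1 (n d h z r r' : ℤ) (hn : 1 ≤ n) (hh : 0 ≤ h) (hz : 1 ≤ z) (hz2 : 100 * n * h ≤ z)
    (h1 : 5 * n ≤ r) (h2 : r < r') (h3 : r' ≤ 8 * n)
    (ha : |r * d - 4 * n * z| ≤ r * h) (hb : |r' * d - 4 * n * z| ≤ r' * h) : False := by
  have ha1 := (abs_le.mp ha).1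
  have hb1 := (abs_le.mp hb).2
  have hrpos : 0 < r := by linarith
  have hr'pos : 0 < r' := by linarith
  -- 4 n z (r' - r) = r (r' d - 4 n z) - r' (r d - 4 n z)
  have e1 : 4 * n * z * (r' - r) ≤ 2 * (r * r') * h := by
    nlinarith [mul_le_mul_of_nonneg_left ha1 hr'pos.le, mul_le_mul_of_nonneg_left hb1 hrpos.le]
  have e2 : r * r' ≤ 64 * n ^ 2 := by nlinarith
  have e3 : 4 * n * z ≤ 4 * n * z * (r' - r) := by
    have : 0 ≤ 4 * n * z := by positivity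
    nlinarith
  have e4 : 2 * (r * r') * h ≤ 128 * n ^ 2 * h := by nlinarith
  have e5 : n * (4 * z) ≤ n * (128 * n * h) := by nlinarith
  have e6 : 4 * z ≤ 128 * n * h := le_of_mul_le_mul_left e5 (by linarith)
  nlinarith

theorem C2_t2 (n d h z r r' : ℤ) (hn : 1 ≤ n) (hh : 0 ≤ h) (hz : 1 ≤ z) (hz2 : 100 * n * h ≤ z)
    (h2 : r < r')
    (ha : |4 * n * d - r * z| ≤ 4 * n * h) (hb : |4 * n * d - r' * z| ≤ 4 * n * h) : False := by
  have ha1 := (abs_le.mp ha).2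
  have hb1 := (abs_le.mp hb).1
  have e1 : (r' - r) * z ≤ 8 * n * h := by nlinarith
  have e2 : z ≤ (r' - r) * z := by nlinarith
  nlinarith

theorem C2_t3 (n d h z r r' : ℤ) (hn : 1 ≤ n) (hh : 0 ≤ h) (hz : 1 ≤ z) (hz2 : 100 * n * h ≤ z)
    (h1 : 5 * n ≤ r) (h2 : r < r') (h3 : r' ≤ 8 * n)
    (ha : |r * (4 * n) * d - (r ^ 2 + (4 * n) ^ 2) * z| ≤ r * (4 * n) * h)
    (hb : |r' * (4 * n) * d - (r' ^ 2 + (4 * n) ^ 2) * z| ≤ r' * (4 * n) * h) : False := by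
  have ha1 := (abs_le.mp ha).2
  have hb1 := (abs_le.mp hb).1
  have hrpos : 0 < r := by linarith
  have hr'pos : 0 < r' := by linarith
  have e1 : z * (r' - r) * (r * r' - 16 * n ^ 2) ≤ 8 * n * (r * r') * h := by
    have A := mul_le_mul_of_nonneg_left ha1 hr'pos.le
    have C := mul_le_mul_of_nonneg_left hb1 hrpos.le
    nlinarith
  have e2 : 25 * n ^ 2 ≤ r * r' := by nlinarith
  have e3 : 9 * (r * r') ≤ 25 * (r * r' - 16 * n ^ 2) := by nlinarith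
  have e4 : 0 ≤ r * r' - 16 * n ^ 2 := by nlinarith
  have e5 : z * (r * r' - 16 * n ^ 2) ≤ z * (r' - r) * (r * r' - 16 * n ^ 2) := by
    have : 0 ≤ z * (r * r' - 16 * n ^ 2) := by positivity
    nlinarith
  have e6 : (r * r') * (9 * z) ≤ (r * r') * (200 * n * h) := by
    have : 9 * (r * r') * z ≤ 25 * (r * r' - 16 * n ^ 2) * z :=
      mul_le_mul_of_nonneg_right e3 (by linarith)
    nlinarith
  have e7 : 9 * z ≤ 200 * n * h := le_of_mul_le_mul_left e6 (by positivity)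
  nlinarith

theorem t_C2 : S_C2 := by
  intro B h z J y0 hJ hz hhz
  by_contra hcon
  push Not at hcon
  -- failing index
  have key : ∀ r ∈ Finset.Icc (5 * (B + 1)) (8 * (B + 1)), ∃ p ∈ J ×ˢ (Finset.univ : Finset (Fin 3)),
      (p.2 = 0 → |(r : ℤ) * (p.1 - y0) - 4 * ((B : ℤ) + 1) * z| ≤ (r : ℤ) * h) ∧
      (p.2 = 1 → |4 * ((B : ℤ) + 1) * (p.1 - y0) - (r : ℤ) * z| ≤ 4 * ((B : ℤ) + 1) * h) ∧
      (p.2 = 2 → |(r : ℤ) * (4 * ((B : ℤ) + 1)) * (p.1 - y0) -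
        ((r : ℤ) ^ 2 + (4 * ((B : ℤ) + 1)) ^ 2) * z| ≤ (r : ℤ) * (4 * ((B : ℤ) + 1)) * h) := by
    intro r hr
    rw [Finset.mem_Icc] at hr
    obtain ⟨j, hj, hf⟩ := hcon r hr.1 hr.2
    by_cases c1 : (r : ℤ) * h < |(r : ℤ) * (j - y0) - 4 * ((B : ℤ) + 1) * z|
    · by_cases c2 : 4 * ((B : ℤ) + 1) * h < |4 * ((B : ℤ) + 1) * (j - y0) - (r : ℤ) * z|
      · refine ⟨(j, 2), by simp [hj], ?_, ?_, ?_⟩
        · intro h0; simp at h0
        · intro h0; simp at h0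
        · intro _; exact hf c1 c2
      · refine ⟨(j, 1), by simp [hj], ?_, ?_, ?_⟩
        · intro h0; simp at h0
        · intro _; exact not_lt.mp c2
        · intro h0; simp at h0
    · refine ⟨(j, 0), by simp [hj], ?_, ?_, ?_⟩
      · intro _; exact not_lt.mp c1
      · intro h0; simp at h0
      · intro h0; simp at h0
  choose! g hg1 hg2 using key
  have hcard : (J ×ˢ (Finset.univ : Finset (Fin 3))).card <
      (Finset.Icc (5 * (B + 1)) (8 * (B + 1))).card := by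
    rw [Finset.card_product, Nat.card_Icc]
    simp only [Finset.card_univ, Fintype.card_fin]
    omega
  obtain ⟨r, hr, r', hr', hne, hgg⟩ := Finset.exists_ne_map_eq_of_card_lt_of_maps_to hcard hg1
  -- symmetric statement
  have main : ∀ r ∈ Finset.Icc (5 * (B + 1)) (8 * (B + 1)),
      ∀ r' ∈ Finset.Icc (5 * (B + 1)) (8 * (B + 1)), r < r' → g r = g r' → False := by
    intro r hr r' hr' hlt hgg
    have A := hg2 r hr
    have C := hg2 r' hr'
    rw [← hgg] at C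
    rw [Finset.mem_Icc] at hr hr'
    have hnB : (1 : ℤ) ≤ (B : ℤ) + 1 := by
      have := Int.natCast_nonneg B
      linarith
    have hh0 : (0 : ℤ) ≤ (h : ℤ) := Int.natCast_nonneg h
    have hz0 : (1 : ℤ) ≤ (z : ℤ) := by exact_mod_cast hz
    have hz1 : 100 * ((B : ℤ) + 1) * h ≤ z := by exact_mod_cast hhz
    have i1 : 5 * ((B : ℤ) + 1) ≤ (r : ℤ) := by exact_mod_cast hr.1
    have i2 : (r : ℤ) < (r' : ℤ) := by exact_mod_cast hlt
    have i3 : (r' : ℤ) ≤ 8 * ((B : ℤ) + 1) := by exact_mod_cast hr'.2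
    have hcases : (g r).2 = 0 ∨ (g r).2 = 1 ∨ (g r).2 = 2 := by
      generalize (g r).2 = q
      fin_cases q <;> simp
    rcases hcases with h0 | h0 | h0
    · exact C2_t1 _ _ _ _ _ _ hnB hh0 hz0 hz1 i1 i2 i3 (A.1 h0) (C.1 h0)
    · exact C2_t2 _ _ _ _ _ _ hnB hh0 hz0 hz1 i2 (A.2.1 h0) (C.2.1 h0)
    · exact C2_t3 _ _ _ _ _ _ hnB hh0 hz0 hz1 i1 i2 i3 (A.2.2 h0) (C.2.2 h0)
  rcases lt_or_gt_of_ne hne with hlt | hlt
  · exact main r hr r' hr' hlt hgg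
  · exact main r' hr' r hr hlt hgg.symm

end Pool.Agent.H447R4.PA
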