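import Pool.Agent.H447R4.PA.Defs

set_option autoImplicit false

namespace Pool.Agent.H447R4.PA

theorem const_of (F : ℕ → ℤ) (u v : ℕ) (huv : u ≤ v)
    (h : ∀ m, u ≤ m → m < v → F m = F (m + 1)) : F u = F v := by
  induction v, huv using Nat.le_induction with
  | base => rfl
  | succ k hk ih =>
    rw [ih (fun m h1 h2 => h m h1 (by omega))]
    exact h k hk (by omega)

theorem zone_mid (α β γ y0 u v m : ℤ) (hα : 0 ≤ α) (hu : |α * (u - y0) - β| ≤ γ)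
    (hv : |α * (v - y0) - β| ≤ γ) (h1 : u ≤ m) (h2 : m ≤ v) : |α * (m - y0) - β| ≤ γ := by
  rw [abs_le] at *
  constructor
  · nlinarith [mul_le_mul_of_nonneg_left h1 hα]
  · nlinarith [mul_le_mul_of_nonneg_left h2 hα]

/-- the big constant -/
def CC (B : ℕ) : ℕ := 800 * (B + 1) * (B + 2) * (32 * (B + 1) ^ 2) ^ 2 +
  800 * (B + 1) * (32 * (B + 1) ^ 2 + 6)

theorem CC_mul (B z e : ℕ) (hz : 40 * CC B ^ 2 + 1000 ≤ z) (he : e ^ 2 ≤ 4 * (z + 6)) :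
    CC B * (2 * e + 1) ≤ z := by
  have h1 : (CC B * (2 * e + 1)) ^ 2 ≤ z ^ 2 := by
    have h2 : (2 * e + 1) ^ 2 ≤ 8 * e ^ 2 + 2 := by
      zify
      nlinarith [sq_nonneg ((2 * (e : ℤ)) - 1)]
    have h3 : (2 * e + 1) ^ 2 ≤ 40 * z := by omega
    calc (CC B * (2 * e + 1)) ^ 2 = CC B ^ 2 * (2 * e + 1) ^ 2 := by ring
      _ ≤ CC B ^ 2 * (40 * z) := Nat.mul_le_mul_left _ h3
      _ = (40 * CC B ^ 2) * z := by ring
      _ ≤ z * z := Nat.mul_le_mul_right _ (by omega)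
      _ = z ^ 2 := by ring
  exact (Nat.pow_le_pow_iff_left (by norm_num)).1 h1

/-- products just above y with a given ratio -/
theorem data (c1 : S_C1) (B x z ρ y : ℕ) (hz : 40 * CC B ^ 2 + 1000 ≤ z) (hx1 : z ^ 2 ≤ x)
    (hx2 : x ≤ z ^ 2 + 2 * z) (hρ1 : 5 * (B + 1) ≤ ρ) (hρ2 : ρ ≤ 8 * (B + 1))
    (hy1 : x - 10 * z ≤ y) (hy2 : y ≤ x + 10 * z) :
    ∃ U V : ℕ, 1 ≤ U ∧ 1 ≤ V ∧ y ≤ U * V ∧ U * V ≤ y + z / (800 * (B + 1) * (B + 2)) ∧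
      |(ρ : ℤ) * V - 4 * ((B : ℤ) + 1) * z| ≤ 4 * ((B : ℤ) + 1) * ((z / (800 * (B + 1)) : ℕ) : ℤ) ∧
      |4 * ((B : ℤ) + 1) * U - (ρ : ℤ) * z| ≤ (ρ : ℤ) * ((z / (800 * (B + 1)) : ℕ) : ℤ) := by
  have hz1000 : 1000 ≤ z := by omega
  have hzz : 1000 * z ≤ z ^ 2 := by nlinarith
  set σ : ℕ := 4 * (B + 1) with hσ
  have hR : ρ * σ ≤ 32 * (B + 1) ^ 2 := by
    calc ρ * σ ≤ (8 * (B + 1)) * (4 * (B + 1)) := Nat.mul_le_mul hρ2 le_rfl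
      _ = 32 * (B + 1) ^ 2 := by ring
  have hR0 : 1 ≤ ρ * σ := Nat.mul_pos (by omega) (by omega)
  have hyl : z ^ 2 - 10 * z ≤ y := by omega
  have hbig : 16 * (ρ * σ) ^ 2 + 16 ≤ y := by
    have h1 : (ρ * σ) ^ 2 ≤ (32 * (B + 1) ^ 2) ^ 2 := Nat.pow_le_pow_left hR 2
    have h2 : (32 * (B + 1) ^ 2) ^ 2 ≤ CC B := by
      unfold CC
      have : 1 ≤ 800 * (B + 1) * (B + 2) := Nat.mul_pos (by positivity) (by omega)
      nlinarith [Nat.mul_le_mul_right ((32 * (B + 1) ^ 2) ^ 2) this]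
    have h3 : CC B ≤ CC B ^ 2 := by nlinarith [Nat.zero_le (CC B), sq_nonneg (CC B), Nat.le_self_pow (two_ne_zero) (CC B)]
    have h4 : 16 * (ρ * σ) ^ 2 + 16 ≤ z := by omega
    have h5 : z ≤ z ^ 2 - 10 * z := by omega
    omega
  obtain ⟨a, e, hea, h1, h2, h3, h4, h5⟩ := c1 ρ σ y (by omega) (by omega) hbig
  have hs1 : y.sqrt ≤ z + 6 := by
    have : y ≤ (z + 6) * (z + 6) := by nlinarith
    calc y.sqrt ≤ ((z + 6) * (z + 6)).sqrt := Nat.sqrt_le_sqrt this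
      _ = z + 6 := Nat.sqrt_eq _
  have hs2 : z ≤ y.sqrt + 6 := by
    have h6 : (z - 6) * (z - 6) ≤ y := by
      obtain ⟨k, rfl⟩ : ∃ k, z = k + 6 := ⟨z - 6, by omega⟩
      simp only [Nat.add_sub_cancel]
      have : (k + 6) ^ 2 - 10 * (k + 6) ≤ y := hyl
      have h7 : k * k + 10 * (k + 6) ≤ (k + 6) ^ 2 := by nlinarith
      omega
    have : z - 6 ≤ y.sqrt := Nat.le_sqrt.2 h6
    omega
  have he : e ^ 2 ≤ 4 * (z + 6) := by omega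
  have hC := CC_mul B z e hz he
  have hl : (ρ * σ) ^ 2 * (2 * e + 1) ≤ z / (800 * (B + 1) * (B + 2)) := by
    rw [Nat.le_div_iff_mul_le (by positivity)]
    have h1 : (ρ * σ) ^ 2 ≤ (32 * (B + 1) ^ 2) ^ 2 := Nat.pow_le_pow_left hR 2
    calc (ρ * σ) ^ 2 * (2 * e + 1) * (800 * (B + 1) * (B + 2))
        ≤ (32 * (B + 1) ^ 2) ^ 2 * (2 * e + 1) * (800 * (B + 1) * (B + 2)) := by gcongr
      _ = (800 * (B + 1) * (B + 2) * (32 * (B + 1) ^ 2) ^ 2) * (2 * e + 1) := by ring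
      _ ≤ CC B * (2 * e + 1) := Nat.mul_le_mul_right _ (Nat.le_add_right _ _)
      _ ≤ z := hC
  have hD : (ρ * σ + 6) * (2 * e + 1) ≤ z / (800 * (B + 1)) := by
    rw [Nat.le_div_iff_mul_le (by positivity)]
    calc (ρ * σ + 6) * (2 * e + 1) * (800 * (B + 1))
        ≤ (32 * (B + 1) ^ 2 + 6) * (2 * e + 1) * (800 * (B + 1)) := by gcongr
      _ = (800 * (B + 1) * (32 * (B + 1) ^ 2 + 6)) * (2 * e + 1) := by ring
      _ ≤ CC B * (2 * e + 1) := Nat.mul_le_mul_right _ (Nat.le_add_left _ _)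
      _ ≤ z := hC
  have hprod : (ρ ^ 2 * (a + e)) * (σ ^ 2 * (a - e)) = (ρ * σ) ^ 2 * (a ^ 2 - e ^ 2) := by
    rw [Nat.sq_sub_sq]; ring
  set D : ℕ := z / (800 * (B + 1)) with hDdef
  have hDz : ((ρ : ℤ) * σ + 6) * (2 * e + 1) ≤ D := by exact_mod_cast hD
  have hRz : (1 : ℤ) ≤ (ρ : ℤ) * σ := by exact_mod_cast hR0
  have ha1 : ((ρ : ℤ) * σ * a) - z ≤ ρ * σ + 6 := by
    have : ((ρ * σ * a : ℕ) : ℤ) ≤ ((y.sqrt + ρ * σ : ℕ) : ℤ) := by exact_mod_cast h4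
    push_cast at this
    have h7 : (y.sqrt : ℤ) ≤ z + 6 := by exact_mod_cast hs1
    linarith
  have ha2 : (z : ℤ) - (ρ : ℤ) * σ * a ≤ 6 := by
    have : ((y.sqrt : ℕ) : ℤ) ≤ ((ρ * σ * a : ℕ) : ℤ) := by exact_mod_cast h3
    push_cast at this
    have h7 : (z : ℤ) ≤ y.sqrt + 6 := by exact_mod_cast hs2
    linarith
  have he0 : (0 : ℤ) ≤ e := by positivity
  have hre : 0 ≤ (ρ : ℤ) * σ * e := by positivity
  have hA : |(ρ : ℤ) * σ * (a - e) - z| ≤ D := by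
    rw [abs_le]
    constructor <;> nlinarith
  have hA' : |(ρ : ℤ) * σ * (a + e) - z| ≤ D := by
    rw [abs_le]
    constructor <;> nlinarith
  have hσz : (σ : ℤ) = 4 * ((B : ℤ) + 1) := by rw [hσ]; push_cast; ring
  refine ⟨ρ ^ 2 * (a + e), σ ^ 2 * (a - e), ?_, ?_, ?_, ?_, ?_, ?_⟩
  · exact Nat.mul_pos (pow_pos (by omega) 2) (by omega)
  · exact Nat.mul_pos (pow_pos (by omega) 2) (by omega)
  · rw [hprod]; exact h1
  · rw [hprod]; omega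
  · rw [← hσz]
    have : (ρ : ℤ) * ((σ ^ 2 * (a - e) : ℕ) : ℤ) - σ * z = σ * ((ρ : ℤ) * σ * (a - e) - z) := by
      rw [Nat.cast_mul, Nat.cast_sub hea.le]; push_cast; ring
    rw [this, abs_mul, abs_of_nonneg (by positivity : (0 : ℤ) ≤ σ)]
    exact mul_le_mul_of_nonneg_left hA (by positivity)
  · rw [← hσz]
    have : (σ : ℤ) * ((ρ ^ 2 * (a + e) : ℕ) : ℤ) - ρ * z = ρ * ((ρ : ℤ) * σ * (a + e) - z) := by
      push_cast; ring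
    rw [this, abs_mul, abs_of_nonneg (by positivity : (0 : ℤ) ≤ ρ)]
    exact mul_le_mul_of_nonneg_left hA' (by positivity)

end Pool.Agent.H447R4.PA
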