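import Pool.Agent.H447R4.PA.CF

set_option autoImplicit false

namespace Pool.Agent.H447R4.PA

theorem CC_ge (B : ℕ) : 4800 * (B + 1) * (B + 2) ≤ CC B := by
  unfold CC
  have h : 6 ≤ (32 * (B + 1) ^ 2) ^ 2 := by
    have : 1 ≤ (B + 1) ^ 2 := Nat.one_le_pow _ _ (by omega)
    nlinarith
  have := Nat.mul_le_mul_left (800 * (B + 1) * (B + 2)) h
  nlinarith

theorem glue (F : ℕ → ℤ) (p q : ℕ) (h : ∀ m, min p q ≤ m → m < max p q → F m = F (m + 1)) :
    F p = F q := by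
  rcases le_total p q with h1 | h1
  · exact const_of F p q h1 (fun m h2 h3 => h m (by omega) (by omega))
  · exact (const_of F q p h1 (fun m h2 h3 => h m (by omega) (by omega))).symm

theorem quad (c1 : S_C1) (c2 : S_C2) (B : ℕ) (F : ℕ → ℤ) (s : ℤ) (hSq : Sq F s) (x z : ℕ)
    (hz : 40 * CC B ^ 2 + 1000 ≤ z) (hx1 : z ^ 2 ≤ x) (hx2 : x ≤ z ^ 2 + 2 * z)
    (hJ : (Jumps F (x - 14 * z) (x + 14 * z)).card ≤ B) (y0 : ℕ) (hy1 : x - 10 * z ≤ y0)
    (hy2 : y0 ≤ x + 10 * z) :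
    ∃ q1 q2 q3 : ℕ, y0 ≤ q1 ∧ y0 ≤ q2 ∧ y0 ≤ q3 ∧ q1 ≤ y0 + 4 * z ∧ q2 ≤ y0 + 4 * z ∧
      q3 ≤ y0 + 4 * z ∧ Clean F (z / (800 * (B + 1) * (B + 2))) q1 ∧
      Clean F (z / (800 * (B + 1) * (B + 2))) q2 ∧ Clean F (z / (800 * (B + 1) * (B + 2))) q3 ∧
      ∀ y, x - 10 * z ≤ y → y ≤ x + 10 * z → y ≤ y0 + z / (400 * (B + 1)) →
        y0 ≤ y + z / (400 * (B + 1)) → Clean F (z / (800 * (B + 1) * (B + 2))) y →
        F y * F q1 * F q2 * F q3 = s := by
  have hCge := CC_ge B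
  have hCsq : CC B ≤ CC B ^ 2 := Nat.le_self_pow two_ne_zero _
  have hzz : 1000 * z ≤ z ^ 2 := by nlinarith
  set l : ℕ := z / (800 * (B + 1) * (B + 2)) with hl
  set D : ℕ := z / (800 * (B + 1)) with hD
  set h : ℕ := z / (100 * (B + 1)) with hh
  have hlD : 2 * l ≤ D := by
    have : l = D / (B + 2) := by rw [hl, hD, Nat.div_div_eq_div_mul]
    rw [this]
    have h1 : D / (B + 2) * (B + 2) ≤ D := Nat.div_mul_le_self _ _
    nlinarith [Nat.zero_le (D / (B + 2))]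
  have hDh : 8 * D ≤ h := by
    have : D = h / 8 := by rw [hh, hD, Nat.div_div_eq_div_mul]; congr 1; ring
    omega
  have hqh : 4 * (z / (400 * (B + 1))) ≤ h := by
    have : z / (400 * (B + 1)) = h / 4 := by rw [hh, Nat.div_div_eq_div_mul]; congr 1; ring
    omega
  have hh100 : 100 * (B + 1) * h ≤ z := by
    rw [hh]; rw [mul_comm]; exact Nat.div_mul_le_self _ _
  have hh4 : 8 ≤ h := by
    rw [hh, Nat.le_div_iff_mul_le (by positivity)]
    nlinarith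
  have hhz : 100 * h ≤ z := by nlinarith [Nat.zero_le (B * h)]
  obtain ⟨ρ, hρ1, hρ2, hρ⟩ := c2 B h z ((Jumps F (x - 14 * z) (x + 14 * z)).image
    (fun m : ℕ => (m : ℤ))) (y0 : ℤ) (Finset.card_image_le.trans hJ) (by omega) hh100
  set σ : ℤ := 4 * ((B : ℤ) + 1) with hσ
  have hσ0 : 0 < σ := by rw [hσ]; positivity
  have hρσ : σ ≤ ρ := by
    have : ((5 * (B + 1) : ℕ) : ℤ) ≤ ρ := by exact_mod_cast hρ1
    push_cast at this
    rw [hσ]; nlinarith
  have hρσ2 : (ρ : ℤ) ≤ 2 * σ := by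
    have : (ρ : ℤ) ≤ ((8 * (B + 1) : ℕ) : ℤ) := by exact_mod_cast hρ2
    push_cast at this
    rw [hσ]; linarith
  have hρ0 : (0 : ℤ) < ρ := by linarith
  have hx14 : 14 * z ≤ x := by nlinarith
  -- no jumps in the zones
  have nj : ∀ m : ℕ, x - 14 * z ≤ m → m ≤ x + 14 * z →
      (|(ρ : ℤ) * (m - y0) - σ * z| ≤ ρ * h ∨ |σ * (m - y0) - ρ * z| ≤ σ * h ∨
        |(ρ : ℤ) * σ * (m - y0) - ((ρ : ℤ) ^ 2 + σ ^ 2) * z| ≤ ρ * σ * h) → F m = F (m + 1) := by
    intro m hm1 hm2 hm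
    by_contra hne
    have hmem : (m : ℤ) ∈ (Jumps F (x - 14 * z) (x + 14 * z)).image (fun m : ℕ => (m : ℤ)) := by
      rw [Finset.mem_image]
      exact ⟨m, by rw [Jumps, Finset.mem_filter, Finset.mem_Icc]; exact ⟨⟨hm1, hm2⟩, hne⟩, rfl⟩
    obtain ⟨e1, e2, e3⟩ := hρ m hmem
    rcases hm with hm | hm | hm
    · exact absurd hm (not_le.2 e1)
    · exact absurd hm (not_le.2 e2)
    · exact absurd hm (not_le.2 e3)
  have hDz : (0 : ℤ) ≤ D := Int.natCast_nonneg _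
  have hlz : (0 : ℤ) ≤ l := Int.natCast_nonneg _
  have hDh' : 8 * (D : ℤ) ≤ h := by exact_mod_cast hDh
  have hlD' : 2 * (l : ℤ) ≤ D := by exact_mod_cast hlD
  have hh4' : (8 : ℤ) ≤ h := by exact_mod_cast hh4
  have hqh' : 4 * ((z / (400 * (B + 1)) : ℕ) : ℤ) ≤ h := by exact_mod_cast hqh
  -- zone bounds
  have key : ∀ y : ℕ, x - 10 * z ≤ y → y ≤ x + 10 * z → y ≤ y0 + z / (400 * (B + 1)) →
      y0 ≤ y + z / (400 * (B + 1)) → ∃ P U V : ℕ, P = U * V ∧ 1 ≤ U ∧ 1 ≤ V ∧ y ≤ P ∧ P ≤ y + l ∧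
        U ≤ 3 * z ∧ V ≤ 2 * z ∧ U + V ≤ 3 * z + 3 * D ∧
        (∀ t : ℕ, t ≤ l → |(ρ : ℤ) * (((P + V + t : ℕ) : ℤ) - y0) - σ * z| ≤ ρ * h) ∧
        (∀ t : ℕ, t ≤ l → |σ * (((P + U + t : ℕ) : ℤ) - y0) - ρ * z| ≤ σ * h) ∧
        (∀ t : ℕ, t ≤ l → |(ρ : ℤ) * σ * (((P + U + V + 1 + t : ℕ) : ℤ) - y0) -
          ((ρ : ℤ) ^ 2 + σ ^ 2) * z| ≤ ρ * σ * h) := by
    intro y e1 e2 e3 e4
    obtain ⟨U, V, hU, hV, hP1, hP2, hv, hu⟩ := data c1 B x z ρ y hz hx1 hx2 hρ1 hρ2 e1 e2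
    rw [← hσ, ← hD] at hv hu
    rw [← hl] at hP2
    rw [abs_le] at hv hu
    have hVz : (V : ℤ) ≤ z + D := by
      have : (ρ : ℤ) * V ≤ ρ * (z + D) := by nlinarith [hv.2]
      exact le_of_mul_le_mul_left this hρ0
    have hUz : (U : ℤ) ≤ 2 * z + 2 * D := by
      have : σ * (U : ℤ) ≤ σ * (2 * z + 2 * D) := by nlinarith [hu.2]
      exact le_of_mul_le_mul_left this hσ0
    have hDzz : (D : ℤ) ≤ z := by
      have : (h : ℤ) * 100 ≤ z := by
        have : 100 * h ≤ z := hhz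
        zify at this; linarith
      linarith
    have hy3 : (y : ℤ) ≤ y0 + ((z / (400 * (B + 1)) : ℕ) : ℤ) := by exact_mod_cast e3
    have hy4 : (y0 : ℤ) ≤ y + ((z / (400 * (B + 1)) : ℕ) : ℤ) := by exact_mod_cast e4
    have hP1' : (y : ℤ) ≤ (U : ℤ) * V := by exact_mod_cast hP1
    have hP2' : (U : ℤ) * V ≤ y + l := by exact_mod_cast hP2
    refine ⟨U * V, U, V, rfl, hU, hV, hP1, hP2, ?_, ?_, ?_, ?_, ?_, ?_⟩
    · have : (U : ℤ) ≤ 3 * z := by linarith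
      exact_mod_cast this
    · have : (V : ℤ) ≤ 2 * z := by linarith
      exact_mod_cast this
    · have : (U : ℤ) + V ≤ 3 * z + 3 * D := by linarith
      exact_mod_cast this
    · intro t ht
      have ht' : (t : ℤ) ≤ l := by exact_mod_cast ht
      have ht0 : (0 : ℤ) ≤ t := by positivity
      have hA : |(U : ℤ) * V + t - y0| ≤ h - 2 * D := by rw [abs_le]; constructor <;> linarith
      push_cast
      have e5 : (ρ : ℤ) * ((U : ℤ) * V + V + t - y0) - σ * z =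
        ρ * ((U : ℤ) * V + t - y0) + (ρ * V - σ * z) := by ring
      rw [e5]
      refine (abs_add_le _ _).trans ?_
      rw [abs_mul, abs_of_pos hρ0]
      have hB : |(ρ : ℤ) * V - σ * z| ≤ σ * D := abs_le.2 hv
      nlinarith [mul_le_mul_of_nonneg_left hA hρ0.le, mul_nonneg hρ0.le hDz,
        mul_le_mul_of_nonneg_right hρσ hDz]
    · intro t ht
      have ht' : (t : ℤ) ≤ l := by exact_mod_cast ht
      have ht0 : (0 : ℤ) ≤ t := by positivity
      have hA : |(U : ℤ) * V + t - y0| ≤ h - 2 * D := by rw [abs_le]; constructor <;> linarith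
      push_cast
      have e5 : σ * ((U : ℤ) * V + U + t - y0) - ρ * z =
        σ * ((U : ℤ) * V + t - y0) + (σ * U - ρ * z) := by ring
      rw [e5]
      refine (abs_add_le _ _).trans ?_
      rw [abs_mul, abs_of_pos hσ0]
      have hB : |σ * (U : ℤ) - ρ * z| ≤ ρ * D := abs_le.2 hu
      nlinarith [mul_le_mul_of_nonneg_left hA hσ0.le, mul_nonneg hσ0.le hDz,
        mul_le_mul_of_nonneg_right hρσ2 hDz]
    · intro t ht
      have ht' : (t : ℤ) ≤ l := by exact_mod_cast ht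
      have ht0 : (0 : ℤ) ≤ t := by positivity
      have hA : |(U : ℤ) * V + t + 1 - y0| ≤ h - 4 * D := by rw [abs_le]; constructor <;> linarith
      push_cast
      have e5 : (ρ : ℤ) * σ * ((U : ℤ) * V + U + V + 1 + t - y0) - ((ρ : ℤ) ^ 2 + σ ^ 2) * z =
        ρ * σ * ((U : ℤ) * V + t + 1 - y0) + (σ * (ρ * V - σ * z) + ρ * (σ * U - ρ * z)) := by ring
      rw [e5]
      refine (abs_add_le _ _).trans ?_
      have hρσp : 0 < (ρ : ℤ) * σ := mul_pos hρ0 hσ0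
      rw [abs_mul, abs_of_pos hρσp]
      have hB : |σ * ((ρ : ℤ) * V - σ * z)| ≤ σ * (σ * D) := by
        rw [abs_mul, abs_of_pos hσ0]
        exact mul_le_mul_of_nonneg_left (abs_le.2 hv) hσ0.le
      have hC : |(ρ : ℤ) * (σ * U - ρ * z)| ≤ ρ * (ρ * D) := by
        rw [abs_mul, abs_of_pos hρ0]
        exact mul_le_mul_of_nonneg_left (abs_le.2 hu) hρ0.le
      have hE := abs_add_le (σ * ((ρ : ℤ) * V - σ * z)) ((ρ : ℤ) * (σ * U - ρ * z))
      have hF : σ * (σ * (D : ℤ)) ≤ ρ * σ * D := by nlinarith [mul_nonneg hσ0.le hDz]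
      have hG : (ρ : ℤ) * (ρ * D) ≤ 2 * (ρ * σ * D) := by nlinarith [mul_nonneg hρ0.le hDz]
      nlinarith [mul_le_mul_of_nonneg_left hA hρσp.le, mul_nonneg hρσp.le hDz]
  obtain ⟨P0, U0, V0, hP0, hU0, hV0, hP01, hP02, hU0z, hV0z, hUV0, z1, z2, z3⟩ :=
    key y0 hy1 hy2 (by omega) (by omega)
  have hlz2 : l ≤ z := by omega
  refine ⟨P0 + V0, P0 + U0, P0 + U0 + V0 + 1, by omega, by omega, by omega, by omega, by omega,
    by omega, ?_, ?_, ?_, ?_⟩
  · intro m h1 h2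
    obtain ⟨t, rfl⟩ : ∃ t, m = P0 + V0 + t := ⟨m - (P0 + V0), by omega⟩
    exact nj _ (by omega) (by omega) (Or.inl (z1 t (by omega)))
  · intro m h1 h2
    obtain ⟨t, rfl⟩ : ∃ t, m = P0 + U0 + t := ⟨m - (P0 + U0), by omega⟩
    exact nj _ (by omega) (by omega) (Or.inr (Or.inl (z2 t (by omega))))
  · intro m h1 h2
    obtain ⟨t, rfl⟩ : ∃ t, m = P0 + U0 + V0 + 1 + t := ⟨m - (P0 + U0 + V0 + 1), by omega⟩
    exact nj _ (by omega) (by omega) (Or.inr (Or.inr (z3 t (by omega))))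
  · intro y e1 e2 e3 e4 hcl
    obtain ⟨P, U, V, hP, hU, hV, hP1, hP2, hUz, hVz, hUV, w1, w2, w3⟩ := key y e1 e2 e3 e4
    have f0 : F y = F P := const_of F y P hP1 (fun m h1 h2 => hcl m h1 (by omega))
    have f1 : F (P + V) = F (P0 + V0) := by
      apply glue
      intro m h1 h2
      refine nj m (by omega) (by omega) (Or.inl ?_)
      rcases le_total (P + V) (P0 + V0) with h3 | h3
      · exact zone_mid _ _ _ _ _ _ _ hρ0.le (w1 0 (by omega)) (z1 0 (by omega))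
          (by push_cast; omega) (by push_cast; omega)
      · exact zone_mid _ _ _ _ _ _ _ hρ0.le (z1 0 (by omega)) (w1 0 (by omega))
          (by push_cast; omega) (by push_cast; omega)
    have f2 : F (P + U) = F (P0 + U0) := by
      apply glue
      intro m h1 h2
      refine nj m (by omega) (by omega) (Or.inr (Or.inl ?_))
      rcases le_total (P + U) (P0 + U0) with h3 | h3
      · exact zone_mid _ _ _ _ _ _ _ hσ0.le (w2 0 (by omega)) (z2 0 (by omega))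
          (by push_cast; omega) (by push_cast; omega)
      · exact zone_mid _ _ _ _ _ _ _ hσ0.le (z2 0 (by omega)) (w2 0 (by omega))
          (by push_cast; omega) (by push_cast; omega)
    have f3 : F (P + U + V + 1) = F (P0 + U0 + V0 + 1) := by
      apply glue
      intro m h1 h2
      refine nj m (by omega) (by omega) (Or.inr (Or.inr ?_))
      rcases le_total (P + U + V + 1) (P0 + U0 + V0 + 1) with h3 | h3
      · exact zone_mid _ _ _ _ _ _ _ (mul_pos hρ0 hσ0).le (w3 0 (by omega)) (z3 0 (by omega))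
          (by push_cast; omega) (by push_cast; omega)
      · exact zone_mid _ _ _ _ _ _ _ (mul_pos hρ0 hσ0).le (z3 0 (by omega)) (w3 0 (by omega))
          (by push_cast; omega) (by push_cast; omega)
    have hs := hSq U V hU hV
    rw [show (U + 1) * V = P + V by rw [hP]; ring, show U * (V + 1) = P + U by rw [hP]; ring,
      show (U + 1) * (V + 1) = P + U + V + 1 by rw [hP]; ring, ← hP] at hs
    rw [f0, ← f1, ← f2, ← f3]
    exact hs

end Pool.Agent.H447R4.PA
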