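import Pool.Agent.H447R4.PA.CF3

set_option autoImplicit false

/-! The theorem t_CF with its constants made explicit (same proof). -/

namespace Pool.Agent.H447R4.PA

theorem CF_explicit (c1 : S_C1) (c2 : S_C2) (B : ℕ) : ∀ (F : ℕ → ℤ) (s : ℤ),
    (∀ m, 1 ≤ m → F m = 1 ∨ F m = -1) → Sq F s → ∀ x z : ℕ, 40 * CC B ^ 2 + 1000 ≤ z →
    z ^ 2 ≤ x → x ≤ z ^ 2 + 2 * z → (Jumps F (x - 14 * z) (x + 14 * z)).card ≤ B →
    s = 1 ∧ ∀ y1 y2 : ℕ, x - 10 * z ≤ y1 → y1 ≤ x + 10 * z → x - 10 * z ≤ y2 →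
      y2 ≤ x + 10 * z → Clean F (z / (800 * (B + 1) * (B + 2))) y1 →
      Clean F (z / (800 * (B + 1) * (B + 2))) y2 → F y1 = F y2 := by
  intro F s hval hSq x z hz hx1 hx2 hJ
  have hCge : 4800 * (B + 1) * (B + 2) ≤ CC B := CC_ge B
  have hCsq : CC B ≤ CC B ^ 2 := Nat.le_self_pow two_ne_zero _
  have hzz : 1000 * z ≤ z ^ 2 := by nlinarith
  have hx14 : 14 * z ≤ x := by omega
  obtain ⟨l, hl⟩ : ∃ l, l = z / (800 * (B + 1) * (B + 2)) := ⟨_, rfl⟩
  obtain ⟨h4, hh4⟩ : ∃ h4, h4 = z / (400 * (B + 1)) := ⟨_, rfl⟩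
  have hl1 : 1 ≤ l := by
    rw [hl, Nat.le_div_iff_mul_le (by positivity)]
    nlinarith
  have hlh : (B + 1) * l ≤ h4 := by
    rw [hh4, Nat.le_div_iff_mul_le (by positivity)]
    have h5 : l * (800 * (B + 1) * (B + 2)) ≤ z := by rw [hl]; exact Nat.div_mul_le_self _ _
    have h6 : (B + 1) * l * (400 * (B + 1)) ≤ l * (800 * (B + 1) * (B + 2)) := by
      have : (B + 1) * l * (400 * (B + 1)) = l * (400 * (B + 1) * (B + 1)) := by ring
      rw [this]
      apply Nat.mul_le_mul_left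
      nlinarith
    exact h6.trans h5
  have hh4z : h4 ≤ z := by rw [hh4]; exact Nat.div_le_self _ _
  have hBl : B * l < h4 := by
    have : (B + 1) * l = B * l + l := by ring
    omega
  have hne : ∀ m, 1 ≤ m → F m ≠ 0 := by
    intro m hm h0
    rcases hval m hm with h | h <;> rw [h0] at h <;> norm_num at h
  have near : ∀ y y', x - 10 * z ≤ y → y ≤ x + 10 * z → x - 10 * z ≤ y' → y' ≤ x + 10 * z →
      y' ≤ y + h4 → y ≤ y' + h4 → Clean F l y → Clean F l y' → F y = F y' := by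
    intro y y' e1 e2 e3 e4 e5 e6 k1 k2
    rw [hl] at k1 k2
    rw [hh4] at e5 e6
    obtain ⟨q1, q2, q3, a1, a2, a3, b1, b2, b3, d1, d2, d3, hq⟩ :=
      quad c1 c2 B F s hSq x z hz hx1 hx2 hJ y e1 e2
    have r1 := hq y e1 e2 (by omega) (by omega) k1
    have r2 := hq y' e3 e4 e5 e6 k2
    have n1 := hne q1 (by omega)
    have n2 := hne q2 (by omega)
    have n3 := hne q3 (by omega)
    have : F y * F q1 * F q2 * F q3 = F y' * F q1 * F q2 * F q3 := by rw [r1, r2]
    exact mul_right_cancel₀ n1 (mul_right_cancel₀ n2 (mul_right_cancel₀ n3 this))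
  have up : ∀ y1, x - 10 * z ≤ y1 → y1 ≤ x + 10 * z → Clean F l y1 → ∀ c, y1 ≤ c →
      c ≤ x + 10 * z → Clean F l c → F c = F y1 := by
    intro y1 e1 e2 k1 c
    induction c using Nat.strong_induction_on with
    | _ c ih =>
      intro hc1 hc2 hc3
      by_cases hcase : c ≤ y1 + h4
      · exact (near y1 c e1 e2 (by omega) hc2 hcase (by omega) k1 hc3).symm
      · push Not at hcase
        obtain ⟨c', p1, p2, p3⟩ := next_clean F (x - 14 * z) (x + 14 * z) l B (c - h4) hJ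
          (by omega) (by omega)
        have i1 := ih c' (by omega) (by omega) (by omega) p3
        rw [← i1]
        exact near c c' (by omega) hc2 (by omega) (by omega) (by omega) (by omega) hc3 p3
  have flat : ∀ y1 y2 : ℕ, x - 10 * z ≤ y1 → y1 ≤ x + 10 * z → x - 10 * z ≤ y2 →
      y2 ≤ x + 10 * z → Clean F l y1 → Clean F l y2 → F y1 = F y2 := by
    intro y1 y2 e1 e2 e3 e4 k1 k2
    rcases le_total y1 y2 with h | h
    · exact (up y1 e1 e2 k1 y2 h e4 k2).symm
    · exact up y2 e3 e4 k2 y1 h e2 k1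
  refine ⟨?_, ?_⟩
  · obtain ⟨y0, p1, p2, p3⟩ := next_clean F (x - 14 * z) (x + 14 * z) l B (x - 9 * z) hJ
      (by omega) (by omega)
    have hp3 := p3
    rw [hl] at hp3
    obtain ⟨q1, q2, q3, a1, a2, a3, b1, b2, b3, d1, d2, d3, hq⟩ :=
      quad c1 c2 B F s hSq x z hz hx1 hx2 hJ y0 (by omega) (by omega)
    have r1 := hq y0 (by omega) (by omega) (by omega) (by omega) hp3
    rw [← hl] at d1 d2 d3
    have f1 := flat q1 y0 (by omega) (by omega) (by omega) (by omega) d1 p3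
    have f2 := flat q2 y0 (by omega) (by omega) (by omega) (by omega) d2 p3
    have f3 := flat q3 y0 (by omega) (by omega) (by omega) (by omega) d3 p3
    rw [f1, f2, f3] at r1
    rcases hval y0 (by omega) with h | h
    · rw [h] at r1; norm_num at r1; exact r1.symm
    · rw [h] at r1; norm_num at r1; exact r1.symm
  · intro y1 y2 e1 e2 e3 e4 k1 k2
    rw [← hl] at k1 k2
    exact flat y1 y2 e1 e2 e3 e4 k1 k2

end Pool.Agent.H447R4.PA
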