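import Pool.Agent.H447R4.PA.Defs

/-! Task DD (helper133): flatness is impossible for a CM function. -/

set_option autoImplicit false

namespace Pool.Agent.H447R4.PA

/-- the cofactor -/
def DDV (Y U : ℕ) : ℕ := Y / U + 1

theorem DD_key1 (x z Y U : ℕ) (hz : 10 ≤ z) (hY : Y + 10 * z = x) (hx2 : x ≤ z ^ 2 + 2 * z)
    (h1 : 2 * z ≤ U) (h2 : U ≤ 4 * z) :
    Y < U * DDV Y U ∧ (U + 1) * (DDV Y U + 1) ≤ x + 10 * z ∧ DDV Y U ≤ z := by
  unfold DDV
  have hU : 0 < U := by omega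
  have a1 : Y < U * (Y / U + 1) := Nat.lt_mul_div_succ Y hU
  have a2 : U * (Y / U) ≤ Y := Nat.mul_div_le Y U
  have a3 : 2 * (Y / U) < z := by
    by_contra hcon
    push Not at hcon
    have b1 : 2 * z * (Y / U) ≤ U * (Y / U) := Nat.mul_le_mul_right _ h1
    have b2 : z * z ≤ z * (2 * (Y / U)) := Nat.mul_le_mul_left _ hcon
    nlinarith
  refine ⟨a1, ?_, by omega⟩
  have e : (U + 1) * (Y / U + 1 + 1) = U * (Y / U) + 2 * U + Y / U + 2 := by ring
  rw [e]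
  omega

theorem DD_key2 (x z Y p q : ℕ) (hz : 10 ≤ z) (hY : Y + 10 * z = x) (hx2 : x ≤ z ^ 2 + 2 * z)
    (h1 : 2 * z ≤ p) (h2 : q ≤ 4 * z) (hpq : p < q) :
    DDV Y q ≤ DDV Y p ∧ 2 * DDV Y p + p ≤ 2 * DDV Y q + q + 1 := by
  have hq := (DD_key1 x z Y q hz hY hx2 (by omega) h2).2.2
  have hq1 := (DD_key1 x z Y q hz hY hx2 (by omega) h2).1
  have hp0 : 0 < p := by omega
  unfold DDV at *
  have a1 : p * (Y / p) ≤ Y := Nat.mul_div_le Y p
  refine ⟨by have := Nat.div_le_div_left (a := Y) hpq.le hp0; omega, ?_⟩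
  by_contra hcon
  push Not at hcon
  generalize Y / p = a at *
  generalize Y / q = c at *
  obtain ⟨δ, rfl⟩ := Nat.exists_eq_add_of_lt hpq
  have h3 : 2 * c + (δ + 1) + 2 ≤ 2 * a := by omega
  have h4 : p * a < (p + δ + 1) * (c + 1) := lt_of_le_of_lt a1 hq1
  have h5 : p * (2 * c + (δ + 1) + 2) ≤ p * (2 * a) := Nat.mul_le_mul_left _ h3
  have h6 : (2 * (c + 1)) * (δ + 1) ≤ p * (δ + 1) := Nat.mul_le_mul_right _ (by omega)
  nlinarith

/-- the exceptional set for given data -/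
def DDE (z Y l j0 j1 d0 d1 : ℕ) : Finset ℕ :=
  (Finset.Icc (2 * z) (4 * z)).filter (fun U =>
    ((U + d0) * DDV Y U ≤ j0 ∧ j0 < (U + d0) * DDV Y U + l) ∧
    ((U + d1) * (DDV Y U + 1) ≤ j1 ∧ j1 < (U + d1) * (DDV Y U + 1) + l))

theorem DD_diam (x z Y l j0 j1 d0 d1 : ℕ) (hz : 10 ≤ z) (hY : Y + 10 * z = x)
    (hx2 : x ≤ z ^ 2 + 2 * z) (hd0 : d0 < 2) (hd1 : d1 < 2) :
    ∀ p ∈ DDE z Y l j0 j1 d0 d1, ∀ q ∈ DDE z Y l j0 j1 d0 d1, q ≤ p + (4 * l + 4) := by
  intro p hp q hq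
  unfold DDE at hp hq
  rw [Finset.mem_filter, Finset.mem_Icc] at hp hq
  obtain ⟨⟨hp1, hp2⟩, ⟨p1, p2⟩, p3, p4⟩ := hp
  obtain ⟨⟨hq1, hq2⟩, ⟨q1, q2⟩, q3, q4⟩ := hq
  by_contra hcon
  push Not at hcon
  obtain ⟨k1, k2⟩ := DD_key2 x z Y p q hz hY hx2 hp1 hq2 (by omega)
  generalize DDV Y p = V at *
  generalize DDV Y q = V' at *
  have e1 : ∀ d, (p + d) * V = p * V + d * V := fun d => by ring
  have e2 : ∀ d, (p + d) * (V + 1) = p * V + p + d * V + d := fun d => by ring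
  have e3 : ∀ d, (q + d) * V' = q * V' + d * V' := fun d => by ring
  have e4 : ∀ d, (q + d) * (V' + 1) = q * V' + q + d * V' + d := fun d => by ring
  rw [e1] at p1 p2
  rw [e2] at p3 p4
  rw [e3] at q1 q2
  rw [e4] at q3 q4
  interval_cases d0 <;> interval_cases d1 <;> omega

theorem t_DD (nl : S_NL) (bl : S_BL) : S_DD := by
  classical
  intro B
  refine ⟨72 * (8 * B ^ 2 + 1) * (8 * B ^ 2 + 1) + 10, ?_⟩
  intro f hf x z hz hx1 hx2 hJ hflat
  obtain ⟨N, hN⟩ : ∃ N, N = 8 * B ^ 2 + 1 := ⟨_, rfl⟩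
  rw [← hN] at hz
  have hN1 : 1 ≤ N := by omega
  have hz10 : 10 ≤ z := by omega
  have hzN : 72 * N ≤ z := by nlinarith
  have hx10 : 10 * z ≤ x := by nlinarith
  obtain ⟨Y, hY⟩ : ∃ Y, Y = x - 10 * z := ⟨_, rfl⟩
  have hYx : Y + 10 * z = x := by omega
  obtain ⟨l, hl⟩ : ∃ l, l = z / (800 * (B + 1) * (B + 2)) := ⟨_, rfl⟩
  rw [← hl] at hflat
  have hl1 : l * (800 * (B + 1) * (B + 2)) ≤ z := by rw [hl]; exact Nat.div_mul_le_self _ _
  have hlN : l * (100 * N) ≤ z := by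
    refine le_trans (Nat.mul_le_mul_left _ ?_) hl1
    rw [hN]; nlinarith
  have hlz : l ≤ z := by
    have : l * 1 ≤ l * (100 * N) := Nat.mul_le_mul_left _ (by omega)
    omega
  obtain ⟨J, hJdef⟩ : ∃ J, J = Jumps f (x - 14 * z) (x + 14 * z) := ⟨_, rfl⟩
  rw [← hJdef] at hJ
  -- jumps from non-clean points
  have hjump : ∀ y, x - 10 * z ≤ y → y ≤ x + 10 * z → ¬ Clean f l y →
      ∃ j ∈ J, y ≤ j ∧ j < y + l := by
    intro y hy1 hy2 hc
    unfold Clean at hc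
    push Not at hc
    obtain ⟨m, hm1, hm2, hm3⟩ := hc
    refine ⟨m, ?_, hm1, hm2⟩
    rw [hJdef]
    unfold Jumps
    rw [Finset.mem_filter, Finset.mem_Icc]
    refine ⟨⟨?_, ?_⟩, hm3⟩
    · omega
    · omega
  -- the family of exceptional sets
  obtain ⟨S, hS⟩ : ∃ S : Finset (Finset ℕ), S = ((J ×ˢ J) ×ˢ (Finset.range 2 ×ˢ Finset.range 2)).image
      (fun t => DDE z Y l t.1.1 t.1.2 t.2.1 t.2.2) := ⟨_, rfl⟩
  have hScard : S.card ≤ 4 * B ^ 2 := by
    rw [hS]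
    refine Finset.card_image_le.trans ?_
    rw [Finset.card_product, Finset.card_product, Finset.card_product, Finset.card_range]
    nlinarith
  obtain ⟨b, hb⟩ : ∃ b, b = 2 * z / N := ⟨_, rfl⟩
  have hb1 : N * b ≤ 2 * z := by rw [hb]; exact Nat.mul_div_le _ _
  have hb2 : 2 * z < N * (b + 1) := by rw [hb]; exact Nat.lt_mul_div_succ _ hN1
  have hwb : 4 * l + 4 < b := by
    by_contra hcon
    push Not at hcon
    have h1 : N * b ≤ N * (4 * l + 4) := Nat.mul_le_mul_left _ hcon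
    nlinarith
  have hdiam : ∀ s ∈ S, ∀ p ∈ s, ∀ q ∈ s, q ≤ p + (4 * l + 4) := by
    intro s hs
    rw [hS, Finset.mem_image] at hs
    obtain ⟨⟨⟨j0, j1⟩, ⟨d0, d1⟩⟩, ht, rfl⟩ := hs
    simp only [Finset.mem_product, Finset.mem_range] at ht
    exact DD_diam x z Y l j0 j1 d0 d1 hz10 hYx hx2 ht.2.1 ht.2.2
  obtain ⟨k, hk1, hk2⟩ := bl (4 * B ^ 2) (4 * l + 4) (2 * z) b S hScard hwb hdiam
  have hk3 : (k + 1) * b ≤ 2 * z := by
    refine le_trans (Nat.mul_le_mul_right _ ?_) hb1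
    omega
  have hblock : ∀ m, 2 * z + k * b ≤ m → m < 2 * z + k * b + b → f m = f (m + 1) := by
    intro U hU1 hU2
    have hkb : (k + 1) * b = k * b + b := by ring
    have hUa : 2 * z ≤ U := by omega
    have hUb : U ≤ 4 * z := by omega
    obtain ⟨g1, g2, g3⟩ := DD_key1 x z Y U hz10 hYx hx2 hUa hUb
    by_contra hne
    have hV1 : 1 ≤ DDV Y U := Nat.le_add_left 1 _
    -- a pair with the same cofactor is not clean
    have hpair : ∀ V, 1 ≤ V → x - 10 * z ≤ U * V → (U + 1) * V ≤ x + 10 * z →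
        ∃ d, d < 2 ∧ ∃ j ∈ J, (U + d) * V ≤ j ∧ j < (U + d) * V + l := by
      intro V hV h1 h2
      have h3 : (U + 1) * V = U * V + V := by ring
      by_contra hno
      push Not at hno
      have c0 : Clean f l (U * V) := by
        by_contra hc
        obtain ⟨j, hj, hj1, hj2⟩ := hjump (U * V) h1 (by omega) hc
        have := hno 0 (by norm_num) j hj (by simpa using hj1)
        simp only [add_zero] at this
        omega
      have c1 : Clean f l ((U + 1) * V) := by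
        by_contra hc
        obtain ⟨j, hj, hj1, hj2⟩ := hjump ((U + 1) * V) (by omega) h2 hc
        have := hno 1 (by norm_num) j hj hj1
        omega
      have hfeq := hflat (U * V) ((U + 1) * V) h1 (by omega) (by omega) h2 c0 c1
      rw [hf.mul U V (by omega) hV, hf.mul (U + 1) V (by omega) hV] at hfeq
      apply hne
      have hfV : f V ≠ 0 := by
        rcases hf.val V hV with h | h <;> rw [h] <;> norm_num
      exact mul_right_cancel₀ hfV hfeq
    have e5 : (U + 1) * (DDV Y U + 1) = (U + 1) * DDV Y U + (U + 1) := by ring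
    have e6 : U * (DDV Y U + 1) = U * DDV Y U + U := by ring
    obtain ⟨d0, hd0, j0, hj0, i1, i2⟩ := hpair (DDV Y U) hV1 (by omega) (by omega)
    obtain ⟨d1, hd1, j1, hj1, i3, i4⟩ := hpair (DDV Y U + 1) (by omega) (by omega) g2
    have hmemS : DDE z Y l j0 j1 d0 d1 ∈ S := by
      rw [hS, Finset.mem_image]
      refine ⟨((j0, j1), (d0, d1)), ?_, rfl⟩
      simp only [Finset.mem_product, Finset.mem_range]
      exact ⟨⟨hj0, hj1⟩, hd0, hd1⟩
    have hmemE : U ∈ DDE z Y l j0 j1 d0 d1 := by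
      unfold DDE
      rw [Finset.mem_filter, Finset.mem_Icc]
      exact ⟨⟨hUa, hUb⟩, ⟨i1, i2⟩, i3, i4⟩
    exact hk2 _ hmemS U hmemE ⟨hU1, by rw [hkb]; omega⟩
  have hA : 2 * z + k * b ≤ 4 * (N + 1) * b := by
    have : (k + 1) * b = k * b + b := by ring
    nlinarith
  refine nl f hf (4 * (N + 1)) (2 * z + k * b) b (by omega) hA ?_ hblock
  by_contra hcon
  push Not at hcon
  have h1 : N * (b + 1) ≤ N * (16 * (4 * (N + 1) + 1)) := Nat.mul_le_mul_left _ hcon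
  nlinarith

end Pool.Agent.H447R4.PA
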