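import Pool.Agent.H447R4.PA.Defs

set_option autoImplicit false

/-! NL: a completely multiplicative function with `f 2 = -1` has no long constant run. -/

namespace Pool.Agent.H447R4.PA

lemma nl_const (f : ℕ → ℤ) (a b : ℕ) (h : ∀ m, a ≤ m → m < a + b → f m = f (m + 1)) :
    ∀ t, t ≤ b → f (a + t) = f a := by
  intro t
  induction t with
  | zero => intro _; rfl
  | succ t ih =>
    intro ht
    rw [← ih (by omega), h (a + t) (by omega) (by omega)]
    rfl

theorem t_NL : S_NL := by
  intro f hf A a b ha hab hb h
  have hc := nl_const f a b h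
  have hstep : ∀ j, 4 * (A + 1) ≤ j → j < 8 * (A + 1) → f j = f (j + 1) := by
    intro j hj1 hj2
    have hj0 : 0 < j := by omega
    set q := a / j with hq
    have h1 : j * q + a % j = a := Nat.div_add_mod a j
    have h2 : a % j < j := Nat.mod_lt a hj0
    -- bound of q
    have h3 : 4 * q ≤ b := by
      have h4 : 4 * (A + 1) * q ≤ (A + 1) * b := by
        calc 4 * (A + 1) * q ≤ j * q := Nat.mul_le_mul_right q hj1
          _ ≤ a := by omega
          _ ≤ A * b := hab
          _ ≤ (A + 1) * b := Nat.mul_le_mul_right b (by omega)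
      have h5 : (A + 1) * (4 * q) ≤ (A + 1) * b := by
        calc (A + 1) * (4 * q) = 4 * (A + 1) * q := by ring
          _ ≤ _ := h4
      exact Nat.le_of_mul_le_mul_left h5 (by omega)
    have h6 : j * (q + 1) = j * q + j := by ring
    have h7 : (j + 1) * (q + 1) = j * q + j + q + 1 := by ring
    have e1 : f (j * (q + 1)) = f a := by
      have := hc (j * (q + 1) - a) (by omega)
      rwa [show a + (j * (q + 1) - a) = j * (q + 1) by omega] at this
    have e2 : f ((j + 1) * (q + 1)) = f a := by
      have := hc ((j + 1) * (q + 1) - a) (by omega)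
      rwa [show a + ((j + 1) * (q + 1) - a) = (j + 1) * (q + 1) by omega] at this
    rw [hf.mul j (q + 1) (by omega) (by omega)] at e1
    rw [hf.mul (j + 1) (q + 1) (by omega) (by omega)] at e2
    have e3 : f j * f (q + 1) = f (j + 1) * f (q + 1) := by rw [e1, e2]
    rcases hf.val (q + 1) (by omega) with hv | hv
    · rw [hv] at e3; linarith
    · rw [hv] at e3; linarith
  have hall : ∀ t, t ≤ 4 * (A + 1) → f (4 * (A + 1) + t) = f (4 * (A + 1)) := by
    intro t
    induction t with
    | zero => intro _; rfl
    | succ t ih =>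
      intro ht
      rw [← ih (by omega), hstep (4 * (A + 1) + t) (by omega) (by omega)]
      rfl
  have h1 := hall (4 * (A + 1)) le_rfl
  have h2 := hf.mul 2 (4 * (A + 1)) (by omega) (by omega)
  rw [show 4 * (A + 1) + 4 * (A + 1) = 2 * (4 * (A + 1)) by ring, h2, hf.two] at h1
  rcases hf.val (4 * (A + 1)) (by omega) with hv | hv
  · rw [hv] at h1; norm_num at h1
  · rw [hv] at h1; norm_num at h1

end Pool.Agent.H447R4.PA
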