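import Pool.Agent.H447R4.PA.CF3
import Pool.Agent.H447R4.PA.C1
import Pool.Agent.H447R4.PA.C2
import Pool.Agent.H447R4.PA.BL
import Pool.Agent.H447R4.PA.NL
import Pool.Agent.H447R4.PA.DD
import Pool.Agent.H447R4.PA.A1E

set_option autoImplicit false

/-!
Core: every interval (X, X + 2 sqrt X] contains more than K numbers with f different from c;
and the two Oppermann intervals.
-/

namespace Pool.Agent.H447R4.PA

theorem CM.sq_one {f : ℕ → ℤ} (hf : CM f) : Sq f 1 := by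
  intro U V hU hV
  rw [hf.mul U V hU hV, hf.mul (U + 1) V (by omega) hV, hf.mul U (V + 1) hU (by omega),
    hf.mul (U + 1) (V + 1) (by omega) (by omega)]
  have h1 : f U * f U = 1 := by rcases hf.val U hU with h | h <;> rw [h] <;> norm_num
  have h2 : f V * f V = 1 := by rcases hf.val V hV with h | h <;> rw [h] <;> norm_num
  have h3 : f (U + 1) * f (U + 1) = 1 := by
    rcases hf.val (U + 1) (by omega) with h | h <;> rw [h] <;> norm_num
  have h4 : f (V + 1) * f (V + 1) = 1 := by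
    rcases hf.val (V + 1) (by omega) with h | h <;> rw [h] <;> norm_num
  calc f U * f V * (f (U + 1) * f V) * (f U * f (V + 1)) * (f (U + 1) * f (V + 1))
      = (f U * f U) * (f V * f V) * (f (U + 1) * f (U + 1)) * (f (V + 1) * f (V + 1)) := by ring
    _ = 1 := by rw [h1, h2, h3, h4]; norm_num

theorem CM.sq_neg {f : ℕ → ℤ} (hf : CM f) : Sq (fun m => (-1) ^ m * f m) (-1) := by
  intro U V hU hV
  have h := hf.sq_one U V hU hV
  have hpow : ((-1 : ℤ)) ^ (U * V) * (-1) ^ ((U + 1) * V) * (-1) ^ (U * (V + 1)) *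
      (-1) ^ ((U + 1) * (V + 1)) = -1 := by
    rw [← pow_add, ← pow_add, ← pow_add]
    have : U * V + (U + 1) * V + U * (V + 1) + (U + 1) * (V + 1) = 2 * (2 * U * V + U + V) + 1 := by
      ring
    rw [this, pow_succ, pow_mul]
    norm_num
  calc ((-1) ^ (U * V) * f (U * V)) * ((-1) ^ ((U + 1) * V) * f ((U + 1) * V)) *
        ((-1) ^ (U * (V + 1)) * f (U * (V + 1))) *
        ((-1) ^ ((U + 1) * (V + 1)) * f ((U + 1) * (V + 1)))
      = ((-1) ^ (U * V) * (-1) ^ ((U + 1) * V) * (-1) ^ (U * (V + 1)) *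
      (-1) ^ ((U + 1) * (V + 1))) * (f (U * V) * f ((U + 1) * V) * f (U * (V + 1)) *
        f ((U + 1) * (V + 1))) := by ring
    _ = -1 := by rw [hpow, h]; norm_num

/-- every interval (X, X + 2 sqrt X], X large, contains more than K numbers with f m ≠ c. -/
theorem core (a0 : S_A0) (K : ℕ) : ∃ X0 : ℕ, ∀ f, CM f → ∀ X : ℕ, X0 ≤ X → ∀ (c : ℤ)
    (E : Finset ℕ), E.card ≤ K →
    (∀ y, X < y → y ≤ X + 2 * X.sqrt → y ∉ E → f y = c) → False := by
  obtain ⟨B, x0, h0⟩ := a0 14 K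
  obtain ⟨z1, h1⟩ := t_CF t_C1 t_C2 B
  obtain ⟨z2, h2⟩ := t_DD t_NL t_BL B
  refine ⟨((max x0 ((max z1 z2) ^ 2))) ^ 2, ?_⟩
  intro f hf X hX c E hE hy
  have hx : max x0 ((max z1 z2) ^ 2) ≤ X.sqrt := by
    rw [Nat.le_sqrt']; exact hX
  have hxx0 : x0 ≤ X.sqrt := le_trans (le_max_left _ _) hx
  have hz : max z1 z2 ≤ X.sqrt.sqrt := by
    rw [Nat.le_sqrt']; exact le_trans (le_max_right _ _) hx
  have hz1 : z1 ≤ X.sqrt.sqrt := le_trans (le_max_left _ _) hz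
  have hz2 : z2 ≤ X.sqrt.sqrt := le_trans (le_max_right _ _) hz
  have hJ := h0 f hf X hxx0 c E hE hy
  have hl : X.sqrt.sqrt ^ 2 ≤ X.sqrt := Nat.sqrt_le' _
  have hu : X.sqrt ≤ X.sqrt.sqrt ^ 2 + 2 * X.sqrt.sqrt := by
    have := Nat.sqrt_le_add X.sqrt
    nlinarith
  obtain ⟨-, hflat⟩ := h1 f 1 hf.val hf.sq_one X.sqrt X.sqrt.sqrt hz1 hl hu hJ
  exact h2 f hf X.sqrt X.sqrt.sqrt hz2 hl hu hJ hflat

/-- the opposite-sign case of the two Oppermann intervals -/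
theorem core_opp (K : ℕ) : ∃ n0 : ℕ, ∀ f, CM f → ∀ n : ℕ, n0 ≤ n → ∀ (c : ℤ)
    (E : Finset ℕ), E.card ≤ K →
    (∀ y, n ^ 2 < y + n → y < n ^ 2 → y ∉ E → f y = c) →
    (∀ y, n ^ 2 < y → y < n ^ 2 + n → y ∉ E → f y = -c) → False := by
  obtain ⟨B, x0, h0⟩ := t_A1E 14 K
  obtain ⟨z1, h1⟩ := t_CF t_C1 t_C2 B
  refine ⟨max x0 (z1 ^ 2), ?_⟩
  intro f hf n hn c E hE hy1 hy2
  have hJ := h0 f hf n (le_trans (le_max_left _ _) hn) c E hE hy1 hy2
  have hz1 : z1 ≤ n.sqrt := by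
    rw [Nat.le_sqrt']; exact le_trans (le_max_right _ _) hn
  have hl : n.sqrt ^ 2 ≤ n := Nat.sqrt_le' _
  have hu : n ≤ n.sqrt ^ 2 + 2 * n.sqrt := by
    have := Nat.sqrt_le_add n
    nlinarith
  have hval : ∀ m, 1 ≤ m → (fun m => (-1) ^ m * f m) m = 1 ∨ (fun m => (-1) ^ m * f m) m = -1 := by
    intro m hm
    show (-1) ^ m * f m = 1 ∨ (-1) ^ m * f m = -1
    rcases hf.val m hm with h | h <;> rcases neg_one_pow_eq_or ℤ m with h' | h' <;>
      rw [h, h'] <;> norm_num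
  obtain ⟨hs, -⟩ := h1 (fun m => (-1) ^ m * f m) (-1) hval hf.sq_neg n n.sqrt hz1 hl hu hJ
  norm_num at hs

end Pool.Agent.H447R4.PA
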