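import Pool.Agent.H447R4.PA.DD

set_option autoImplicit false

/-! The theorem t_DD of helper133 with its constants made explicit (same proof). -/

namespace Pool.Agent.H447R4.PA

theorem DD_explicit (nl : S_NL) (bl : S_BL) (B : ℕ) : ∀ f, CM f → ∀ x z : ℕ,
    72 * (8 * B ^ 2 + 1) * (8 * B ^ 2 + 1) + 10 ≤ z → z ^ 2 ≤ x →
    x ≤ z ^ 2 + 2 * z → (Jumps f (x - 14 * z) (x + 14 * z)).card ≤ B →
    (∀ y1 y2 : ℕ, x - 10 * z ≤ y1 → y1 ≤ x + 10 * z → x - 10 * z ≤ y2 → y2 ≤ x + 10 * z →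
      Clean f (z / (800 * (B + 1) * (B + 2))) y1 → Clean f (z / (800 * (B + 1) * (B + 2))) y2 →
      f y1 = f y2) → False := by
  classical
  intro f hf x z hz hx1 hx2 hJ hflat
  obtain ⟨N, hN⟩ : ∃ N, N = 8 * B ^ 2 + 1 := ⟨_, rfl⟩
  rw [← hN] at hz
  have hN1 : 1 ≤ N := by omega
  have hz10 : 10 ≤ z := by omega
  have hzN : 72 * N ≤ z := by nlinarith
  have hx10 : 10 * z ≤ x := by nlinarith
  obtain ⟨Y, hY⟩ : ∃ Y, Y = x - 10 * z := ⟨_, rfl⟩
  have hYx : Y + 10 * z = x := by omega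
  obtain ⟨l, hl⟩ : ∃ l, l = z / (800 * (B + 1) * (B + 2)) := ⟨_, rfl⟩
  rw [← hl] at hflat
  have hl1 : l * (800 * (B + 1) * (B + 2)) ≤ z := by rw [hl]; exact Nat.div_mul_le_self _ _
  have hlN : l * (100 * N) ≤ z := by
    refine le_trans (Nat.mul_le_mul_left _ ?_) hl1
    rw [hN]; nlinarith
  have hlz : l ≤ z := by
    have : l * 1 ≤ l * (100 * N) := Nat.mul_le_mul_left _ (by omega)
    omega
  obtain ⟨J, hJdef⟩ : ∃ J, J = Jumps f (x - 14 * z) (x + 14 * z) := ⟨_, rfl⟩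
  rw [← hJdef] at hJ
  -- jumps from non-clean points
  have hjump : ∀ y, x - 10 * z ≤ y → y ≤ x + 10 * z → ¬ Clean f l y →
      ∃ j ∈ J, y ≤ j ∧ j < y + l := by
    intro y hy1 hy2 hc
    unfold Clean at hc
    push Not at hc
    obtain ⟨m, hm1, hm2, hm3⟩ := hc
    refine ⟨m, ?_, hm1, hm2⟩
    rw [hJdef]
    unfold Jumps
    rw [Finset.mem_filter, Finset.mem_Icc]
    refine ⟨⟨?_, ?_⟩, hm3⟩
    · omega
    · omega
  -- the family of exceptional sets
  obtain ⟨S, hS⟩ : ∃ S : Finset (Finset ℕ), S = ((J ×ˢ J) ×ˢ (Finset.range 2 ×ˢ Finset.range 2)).image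
      (fun t => DDE z Y l t.1.1 t.1.2 t.2.1 t.2.2) := ⟨_, rfl⟩
  have hScard : S.card ≤ 4 * B ^ 2 := by
    rw [hS]
    refine Finset.card_image_le.trans ?_
    rw [Finset.card_product, Finset.card_product, Finset.card_product, Finset.card_range]
    nlinarith
  obtain ⟨b, hb⟩ : ∃ b, b = 2 * z / N := ⟨_, rfl⟩
  have hb1 : N * b ≤ 2 * z := by rw [hb]; exact Nat.mul_div_le _ _
  have hb2 : 2 * z < N * (b + 1) := by rw [hb]; exact Nat.lt_mul_div_succ _ hN1
  have hwb : 4 * l + 4 < b := by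
    by_contra hcon
    push Not at hcon
    have h1 : N * b ≤ N * (4 * l + 4) := Nat.mul_le_mul_left _ hcon
    nlinarith
  have hdiam : ∀ s ∈ S, ∀ p ∈ s, ∀ q ∈ s, q ≤ p + (4 * l + 4) := by
    intro s hs
    rw [hS, Finset.mem_image] at hs
    obtain ⟨⟨⟨j0, j1⟩, ⟨d0, d1⟩⟩, ht, rfl⟩ := hs
    simp only [Finset.mem_product, Finset.mem_range] at ht
    exact DD_diam x z Y l j0 j1 d0 d1 hz10 hYx hx2 ht.2.1 ht.2.2
  obtain ⟨k, hk1, hk2⟩ := bl (4 * B ^ 2) (4 * l + 4) (2 * z) b S hScard hwb hdiam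
  have hk3 : (k + 1) * b ≤ 2 * z := by
    refine le_trans (Nat.mul_le_mul_right _ ?_) hb1
    omega
  have hblock : ∀ m, 2 * z + k * b ≤ m → m < 2 * z + k * b + b → f m = f (m + 1) := by
    intro U hU1 hU2
    have hkb : (k + 1) * b = k * b + b := by ring
    have hUa : 2 * z ≤ U := by omega
    have hUb : U ≤ 4 * z := by omega
    obtain ⟨g1, g2, g3⟩ := DD_key1 x z Y U hz10 hYx hx2 hUa hUb
    by_contra hne
    have hV1 : 1 ≤ DDV Y U := Nat.le_add_left 1 _
    -- a pair with the same cofactor is not clean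
    have hpair : ∀ V, 1 ≤ V → x - 10 * z ≤ U * V → (U + 1) * V ≤ x + 10 * z →
        ∃ d, d < 2 ∧ ∃ j ∈ J, (U + d) * V ≤ j ∧ j < (U + d) * V + l := by
      intro V hV h1 h2
      have h3 : (U + 1) * V = U * V + V := by ring
      by_contra hno
      push Not at hno
      have c0 : Clean f l (U * V) := by
        by_contra hc
        obtain ⟨j, hj, hj1, hj2⟩ := hjump (U * V) h1 (by omega) hc
        have := hno 0 (by norm_num) j hj (by simpa using hj1)
        simp only [add_zero] at this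
        omega
      have c1 : Clean f l ((U + 1) * V) := by
        by_contra hc
        obtain ⟨j, hj, hj1, hj2⟩ := hjump ((U + 1) * V) (by omega) h2 hc
        have := hno 1 (by norm_num) j hj hj1
        omega
      have hfeq := hflat (U * V) ((U + 1) * V) h1 (by omega) (by omega) h2 c0 c1
      rw [hf.mul U V (by omega) hV, hf.mul (U + 1) V (by omega) hV] at hfeq
      apply hne
      have hfV : f V ≠ 0 := by
        rcases hf.val V hV with h | h <;> rw [h] <;> norm_num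
      exact mul_right_cancel₀ hfV hfeq
    have e5 : (U + 1) * (DDV Y U + 1) = (U + 1) * DDV Y U + (U + 1) := by ring
    have e6 : U * (DDV Y U + 1) = U * DDV Y U + U := by ring
    obtain ⟨d0, hd0, j0, hj0, i1, i2⟩ := hpair (DDV Y U) hV1 (by omega) (by omega)
    obtain ⟨d1, hd1, j1, hj1, i3, i4⟩ := hpair (DDV Y U + 1) (by omega) (by omega) g2
    have hmemS : DDE z Y l j0 j1 d0 d1 ∈ S := by
      rw [hS, Finset.mem_image]
      refine ⟨((j0, j1), (d0, d1)), ?_, rfl⟩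
      simp only [Finset.mem_product, Finset.mem_range]
      exact ⟨⟨hj0, hj1⟩, hd0, hd1⟩
    have hmemE : U ∈ DDE z Y l j0 j1 d0 d1 := by
      unfold DDE
      rw [Finset.mem_filter, Finset.mem_Icc]
      exact ⟨⟨hUa, hUb⟩, ⟨i1, i2⟩, i3, i4⟩
    exact hk2 _ hmemS U hmemE ⟨hU1, by rw [hkb]; omega⟩
  have hA : 2 * z + k * b ≤ 4 * (N + 1) * b := by
    have : (k + 1) * b = k * b + b := by ring
    nlinarith
  refine nl f hf (4 * (N + 1)) (2 * z + k * b) b (by omega) hA ?_ hblock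
  by_contra hcon
  push Not at hcon
  have h1 : N * (b + 1) ≤ N * (16 * (4 * (N + 1) + 1)) := Nat.mul_le_mul_left _ hcon
  nlinarith

end Pool.Agent.H447R4.PA
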