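import Pool.Agent.H447R4.PA.Core
import Pool.Agent.H447R4.PA.A0X
import Pool.Agent.H447R4.PA.A1X
import Pool.Agent.H447R4.PA.DDX
import Pool.Agent.H447R4.PA.CFX

set_option autoImplicit false

/-!
Explicit form of the core: polynomially many numbers of each sign.
-/

namespace Pool.Agent.H447R4.PA

/-- the bound for the number of jumps -/
def BK (K : ℕ) : ℕ := 320000 * (K + 1)

/-- the threshold for z -/
def ZK (K : ℕ) : ℕ := 10 ^ 81 * (K + 1) ^ 12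

theorem CC_le (B : ℕ) : CC B ≤ 860000 * ((B + 1) ^ 2 * ((B + 1) ^ 2) ^ 2) * 2 := by
  unfold CC
  have h1 : (B + 1) * (B + 2) ≤ 2 * (B + 1) ^ 2 := by nlinarith
  obtain ⟨w, hw⟩ : ∃ w, w = (B + 1) ^ 2 := ⟨_, rfl⟩
  have hw1 : 1 ≤ w := by rw [hw]; exact Nat.one_le_pow _ _ (by omega)
  have h2 : B + 1 ≤ w := by rw [hw]; nlinarith
  rw [← hw] at h1 ⊢
  have h3 : 800 * (B + 1) * (B + 2) * (32 * w) ^ 2 ≤ 800 * (2 * w) * (32 * w) ^ 2 := by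
    apply Nat.mul_le_mul_right
    rw [mul_assoc]
    exact Nat.mul_le_mul_left _ h1
  have h4 : 800 * (B + 1) * (32 * w + 6) ≤ 800 * w * (38 * w) := by
    apply Nat.mul_le_mul (Nat.mul_le_mul_left _ h2)
    omega
  have h5 : w * w ≤ w * w ^ 2 := by
    apply Nat.mul_le_mul_left
    nlinarith
  nlinarith

theorem ZK_CF (K : ℕ) : 40 * CC (BK K) ^ 2 + 1000 ≤ ZK K := by
  have h := CC_le (BK K)
  obtain ⟨k, hk⟩ : ∃ k, k = K + 1 := ⟨_, rfl⟩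
  have hk1 : 1 ≤ k := by omega
  unfold BK at h
  unfold ZK
  rw [← hk] at h ⊢
  have hb : 320000 * k + 1 ≤ 320001 * k := by omega
  have h1 : CC (320000 * k) ≤ 860000 * ((320001 * k) ^ 2 * ((320001 * k) ^ 2) ^ 2) * 2 := by
    refine h.trans ?_
    gcongr
  have h2 : 860000 * ((320001 * k) ^ 2 * ((320001 * k) ^ 2) ^ 2) * 2 =
      (860000 * 2 * 320001 ^ 6) * k ^ 6 := by ring
  rw [h2] at h1
  have h3 : CC (320000 * k) ^ 2 ≤ ((860000 * 2 * 320001 ^ 6) * k ^ 6) ^ 2 :=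
    Nat.pow_le_pow_left h1 2
  have h4 : ((860000 * 2 * 320001 ^ 6) * k ^ 6) ^ 2 = (860000 * 2 * 320001 ^ 6) ^ 2 * k ^ 12 := by
    ring
  rw [h4] at h3
  have h5 : 1 ≤ k ^ 12 := Nat.one_le_pow _ _ hk1
  have h6 : BK K = 320000 * k := by unfold BK; rw [hk]
  rw [h6]
  have h7 : 40 * ((860000 * 2 * 320001 ^ 6) ^ 2) + 1000 ≤ 10 ^ 81 := by norm_num
  calc 40 * CC (320000 * k) ^ 2 + 1000
      ≤ 40 * ((860000 * 2 * 320001 ^ 6) ^ 2 * k ^ 12) + 1000 * k ^ 12 := by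
        have : 1000 * 1 ≤ 1000 * k ^ 12 := Nat.mul_le_mul_left _ h5
        have h8 := Nat.mul_le_mul_left 40 h3
        exact Nat.add_le_add h8 (by simpa using this)
    _ = (40 * ((860000 * 2 * 320001 ^ 6) ^ 2) + 1000) * k ^ 12 := by ring
    _ ≤ 10 ^ 81 * k ^ 12 := Nat.mul_le_mul_right _ h7

theorem ZK_DD (K : ℕ) : 72 * (8 * (BK K) ^ 2 + 1) * (8 * (BK K) ^ 2 + 1) + 10 ≤ ZK K := by
  obtain ⟨k, hk⟩ : ∃ k, k = K + 1 := ⟨_, rfl⟩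
  have hk1 : 1 ≤ k := by omega
  unfold BK ZK
  rw [← hk]
  have h1 : 8 * (320000 * k) ^ 2 + 1 ≤ (8 * 320000 ^ 2 + 1) * k ^ 2 := by
    have : 1 ≤ k ^ 2 := Nat.one_le_pow _ _ hk1
    nlinarith
  have h5 : 1 ≤ k ^ 12 := Nat.one_le_pow _ _ hk1
  have h6 : k ^ 4 ≤ k ^ 12 := Nat.pow_le_pow_right hk1 (by norm_num)
  have h7 : 72 * (8 * 320000 ^ 2 + 1) * (8 * 320000 ^ 2 + 1) + 10 ≤ 10 ^ 81 := by norm_num
  calc 72 * (8 * (320000 * k) ^ 2 + 1) * (8 * (320000 * k) ^ 2 + 1) + 10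
      ≤ 72 * ((8 * 320000 ^ 2 + 1) * k ^ 2) * ((8 * 320000 ^ 2 + 1) * k ^ 2) + 10 * k ^ 12 := by
        refine Nat.add_le_add (Nat.mul_le_mul (Nat.mul_le_mul_left _ h1) h1) ?_
        have := Nat.mul_le_mul_left 10 h5
        simpa using this
    _ = (72 * (8 * 320000 ^ 2 + 1) * (8 * 320000 ^ 2 + 1)) * k ^ 4 + 10 * k ^ 12 := by ring
    _ ≤ (72 * (8 * 320000 ^ 2 + 1) * (8 * 320000 ^ 2 + 1)) * k ^ 12 + 10 * k ^ 12 :=
        Nat.add_le_add_right (Nat.mul_le_mul_left _ h6) _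
    _ = (72 * (8 * 320000 ^ 2 + 1) * (8 * 320000 ^ 2 + 1) + 10) * k ^ 12 := by ring
    _ ≤ 10 ^ 81 * k ^ 12 := Nat.mul_le_mul_right _ h7

theorem sqrt_ge (X Z : ℕ) (h : Z ^ 4 ≤ X) : Z ≤ X.sqrt.sqrt := by
  rw [Nat.le_sqrt', Nat.le_sqrt']
  calc (Z ^ 2) ^ 2 = Z ^ 4 := by ring
    _ ≤ X := h

/-- explicit core -/
theorem coreX (K : ℕ) : ∀ f, CM f → ∀ X : ℕ, (ZK K) ^ 4 ≤ X → ∀ (c : ℤ)
    (E : Finset ℕ), E.card ≤ K →
    (∀ y, X < y → y ≤ X + 2 * X.sqrt → y ∉ E → f y = c) → False := by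
  intro f hf X hX c E hE hy
  have hz := sqrt_ge X _ hX
  have hl : X.sqrt.sqrt ^ 2 ≤ X.sqrt := Nat.sqrt_le' _
  have hu : X.sqrt ≤ X.sqrt.sqrt ^ 2 + 2 * X.sqrt.sqrt := by
    have := Nat.sqrt_le_add X.sqrt
    nlinarith
  have hZ1 : 3152 ≤ ZK K := by
    unfold ZK
    have : 1 ≤ (K + 1) ^ 12 := Nat.one_le_pow _ _ (by omega)
    calc 3152 ≤ 10 ^ 81 * 1 := by norm_num
      _ ≤ _ := Nat.mul_le_mul_left _ this
  have hx0 : 16 * 14 ^ 2 + 16 ≤ X.sqrt := by nlinarith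
  have hJ0 := A0_explicit 14 K f hf X hx0 c E hE hy
  have hJ : (Jumps f (X.sqrt - 14 * X.sqrt.sqrt) (X.sqrt + 14 * X.sqrt.sqrt)).card ≤ BK K := by
    refine hJ0.trans ?_
    unfold BK
    omega
  obtain ⟨-, hflat⟩ := CF_explicit t_C1 t_C2 (BK K) f 1 hf.val hf.sq_one X.sqrt X.sqrt.sqrt
    ((ZK_CF K).trans hz) hl hu hJ
  exact DD_explicit t_NL t_BL (BK K) f hf X.sqrt X.sqrt.sqrt ((ZK_DD K).trans hz) hl hu hJ hflat

/-- explicit core, opposite signs -/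
theorem core_oppX (K : ℕ) : ∀ f, CM f → ∀ n : ℕ, (ZK K) ^ 2 ≤ n → ∀ (c : ℤ)
    (E : Finset ℕ), E.card ≤ K →
    (∀ y, n ^ 2 < y + n → y < n ^ 2 → y ∉ E → f y = c) →
    (∀ y, n ^ 2 < y → y < n ^ 2 + n → y ∉ E → f y = -c) → False := by
  intro f hf n hn c E hE hy1 hy2
  have hz : ZK K ≤ n.sqrt := by rw [Nat.le_sqrt']; exact hn
  have hl : n.sqrt ^ 2 ≤ n := Nat.sqrt_le' _
  have hu : n ≤ n.sqrt ^ 2 + 2 * n.sqrt := by
    have := Nat.sqrt_le_add n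
    nlinarith
  have hZ1 : 3152 ≤ ZK K := by
    unfold ZK
    have : 1 ≤ (K + 1) ^ 12 := Nat.one_le_pow _ _ (by omega)
    calc 3152 ≤ 10 ^ 81 * 1 := by norm_num
      _ ≤ _ := Nat.mul_le_mul_left _ this
  have hn0 : 4 * 14 ^ 2 + 4 ≤ n := by nlinarith
  have hJ0 := A1_explicit 14 K f hf n hn0 c E hE hy1 hy2
  have hJ : (Jumps (fun m => (-1) ^ m * f m) (n - 14 * n.sqrt) (n + 14 * n.sqrt)).card ≤
      BK K := by
    refine hJ0.trans ?_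
    unfold BK
    omega
  have hval : ∀ m, 1 ≤ m → (fun m => (-1) ^ m * f m) m = 1 ∨ (fun m => (-1) ^ m * f m) m = -1 := by
    intro m hm
    show (-1) ^ m * f m = 1 ∨ (-1) ^ m * f m = -1
    rcases hf.val m hm with h | h <;> rcases neg_one_pow_eq_or ℤ m with h' | h' <;>
      rw [h, h'] <;> norm_num
  obtain ⟨hs, -⟩ := CF_explicit t_C1 t_C2 (BK K) (fun m => (-1) ^ m * f m) (-1) hval hf.sq_neg n
    n.sqrt ((ZK_CF K).trans hz) hl hu hJ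
  norm_num at hs

end Pool.Agent.H447R4.PA
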