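import Pool.Agent.H447R4.PA.Lam

set_option autoImplicit false

/-!
A kernel-computable parity of the number of prime factors, and a finite check.
-/

namespace Pool.Agent.H447R4.PA

/-- flip 0 and 1, keep 2 (failure) -/
def flp (x : ℕ) : ℕ := if x = 2 then 2 else 1 - x

/-- parity of the number of prime factors of n, all of them being at least d; 2 means failure -/
def om : ℕ → ℕ → ℕ → ℕ
  | 0, _, _ => 2
  | f + 1, d, n =>
    if n < d * d then (if 1 < n then 1 else 0)
    else if n % d = 0 then flp (om f d (n / d)) else om f (d + 1) n

theorem om_spec (f : ℕ) : ∀ d n : ℕ, om f d n < 2 → 1 ≤ n → 2 ≤ d →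
    (∀ p : ℕ, p.Prime → p ∣ n → d ≤ p) → ArithmeticFunction.cardFactors n % 2 = om f d n := by
  induction f with
  | zero => intro d n h; simp [om] at h
  | succ f ih =>
    intro d n h hn hd hp
    unfold om at h ⊢
    by_cases h1 : n < d * d
    · rw [if_pos h1]
      by_cases h2 : 1 < n
      · rw [if_pos h2]
        have hpr : n.Prime := by
          by_contra hnp
          have h3 := Nat.minFac_sq_le_self hn hnp
          have h4 := hp n.minFac (Nat.minFac_prime (by omega)) (Nat.minFac_dvd n)
          nlinarith
        rw [ArithmeticFunction.cardFactors_apply_prime hpr]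
      · rw [if_neg h2]
        have : n = 1 := by omega
        rw [this, ArithmeticFunction.cardFactors_one]
    · rw [if_neg h1] at h ⊢
      by_cases h2 : n % d = 0
      · rw [if_pos h2] at h ⊢
        have hdn : d ∣ n := Nat.dvd_of_mod_eq_zero h2
        have hdp : d.Prime := by
          have h3 := hp d.minFac (Nat.minFac_prime (by omega)) ((Nat.minFac_dvd d).trans hdn)
          have h4 := Nat.minFac_le (show 0 < d by omega)
          have h5 : d.minFac = d := le_antisymm h4 h3
          rw [← h5]
          exact Nat.minFac_prime (by omega)
        have hq : 1 ≤ n / d := Nat.div_pos (Nat.le_of_dvd (by omega) hdn) (by omega)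
        have hlt : om f d (n / d) < 2 := by
          by_contra hge
          unfold flp at h
          split_ifs at h with h6
          · omega
          · have h7 : om f d (n / d) ≤ 2 := by
              have : ∀ (f d n : ℕ), om f d n ≤ 2 := by
                intro f
                induction f with
                | zero => intro d n; simp [om]
                | succ f ih' =>
                  intro d n
                  unfold om
                  split_ifs
                  · omega
                  · omega
                  · unfold flp; split_ifs <;> omega
                  · exact ih' _ _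
              exact this _ _ _
            omega
        have h3 := ih d (n / d) hlt hq hd (by
          intro p hpp hpd
          exact hp p hpp (hpd.trans (Nat.div_dvd_of_dvd hdn)))
        have h4 : ArithmeticFunction.cardFactors n =
            1 + ArithmeticFunction.cardFactors (n / d) := by
          conv_lhs => rw [← Nat.mul_div_cancel' hdn]
          rw [ArithmeticFunction.cardFactors_mul (by omega) (by omega),
            ArithmeticFunction.cardFactors_apply_prime hdp]
        rw [h4]
        unfold flp
        rw [if_neg (by omega)]
        omega
      · rw [if_neg h2] at h ⊢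
        refine ih (d + 1) n h hn (by omega) ?_
        intro p hpp hpd
        have h3 := hp p hpp hpd
        rcases Nat.lt_or_ge d p with h4 | h4
        · omega
        · have : p = d := by omega
          subst this
          exact absurd (Nat.mod_eq_zero_of_dvd hpd) h2

/-- the parity of Ω(y) -/
def par (y : ℕ) : ℕ := om (y + 2) 2 y

theorem par_spec (y : ℕ) (hy : 1 ≤ y) (h : par y < 2) :
    ArithmeticFunction.cardFactors y % 2 = par y :=
  om_spec _ 2 y h hy le_rfl (fun _ hp _ => hp.two_le)

/-- scan -/
def cnt : ℕ → ℕ → ℕ → ℕ → Bool
  | 0, _, a, b => Nat.ble 4 a && Nat.ble 4 b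
  | f + 1, y, a, b =>
    if Nat.ble 4 a && Nat.ble 4 b then true
    else if par y = 1 then cnt f (y + 1) (a + 1) b
    else if par y = 0 then cnt f (y + 1) a (b + 1) else false

theorem cnt_spec (f : ℕ) : ∀ y a b : ℕ, 1 ≤ y → cnt f y a b = true →
    4 ≤ a + ((Finset.Ico y (y + f)).filter
      (fun t => ArithmeticFunction.cardFactors t % 2 = 1)).card ∧
    4 ≤ b + ((Finset.Ico y (y + f)).filter
      (fun t => ArithmeticFunction.cardFactors t % 2 = 0)).card := by
  induction f with
  | zero =>
    intro y a b hy h
    simp only [cnt, Bool.and_eq_true, Nat.ble_eq] at h
    omega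
  | succ f ih =>
    intro y a b hy h
    unfold cnt at h
    by_cases h1 : (Nat.ble 4 a && Nat.ble 4 b) = true
    · simp only [Bool.and_eq_true, Nat.ble_eq] at h1
      omega
    · rw [if_neg h1] at h
      have hins : Finset.Ico y (y + (f + 1)) = insert y (Finset.Ico (y + 1) (y + 1 + f)) := by
        ext t
        simp only [Finset.mem_Ico, Finset.mem_insert]
        omega
      have hnot : ∀ (P : ℕ → Prop) [DecidablePred P],
          y ∉ (Finset.Ico (y + 1) (y + 1 + f)).filter P := by
        intro P _ hmem
        have := (Finset.mem_Ico.mp (Finset.mem_filter.mp hmem).1).1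
        omega
      by_cases h2 : par y = 1
      · rw [if_pos h2] at h
        have h3 := ih (y + 1) (a + 1) b (by omega) h
        have h4 := par_spec y hy (by omega)
        rw [h2] at h4
        rw [hins, Finset.filter_insert, Finset.filter_insert, if_pos h4, if_neg (by omega),
          Finset.card_insert_of_notMem (hnot _)]
        omega
      · rw [if_neg h2] at h
        by_cases h3 : par y = 0
        · rw [if_pos h3] at h
          have h4 := ih (y + 1) a (b + 1) (by omega) h
          have h5 := par_spec y hy (by omega)
          rw [h3] at h5
          rw [hins, Finset.filter_insert, Finset.filter_insert, if_pos h5, if_neg (by omega),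
            Finset.card_insert_of_notMem (hnot _)]
          omega
        · rw [if_neg h3] at h
          exact absurd h (by simp)

/-- all n in [k, k + m) -/
def allc : ℕ → ℕ → Bool
  | 0, _ => true
  | m + 1, k => if cnt (4 * k + 3) (k * k + 1) 0 0 then allc m (k + 1) else false

theorem allc_spec (m : ℕ) : ∀ k : ℕ, allc m k = true → ∀ n, k ≤ n → n < k + m →
    cnt (4 * n + 3) (n * n + 1) 0 0 = true := by
  induction m with
  | zero => intro k _ n h1 h2; omega
  | succ m ih =>
    intro k h n h1 h2
    unfold allc at h
    split_ifs at h with h3
    rcases Nat.lt_or_ge k n with h4 | h4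
    · exact ih (k + 1) h n (by omega) (by omega)
    · have : n = k := by omega
      rw [this]; exact h3

end Pool.Agent.H447R4.PA
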