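import Pool.Agent.H447R4.PA.BR
import Pool.Agent.H447R4.PA.Par

set_option autoImplicit false

/-!
For every n ≥ 2, at least four numbers of each parity strictly between n^2 and (n+2)^2.
(The first theorem is the first part of helper268's proof of BR.)
-/

open Finset

namespace Pool.Agent.H447R4.PA

/-- few exceptions, few jumps -/
theorem jumps_le (f : ℕ → ℤ) (hf : CM f) (n K : ℕ) (hn0 : 2 ≤ n) (c : ℤ)
    (hcon : ((Finset.Ioo (n ^ 2) ((n + 2) ^ 2)).filter (fun y => f y ≠ c)).card ≤ K) :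
    ((Finset.Ico ((n + 1) / 2) ((n + 1) / 2 + n)).filter (fun m => f m ≠ f (m + 1))).card ≤
      8 * (K * K) := by
  set E := (Finset.Ioo (n ^ 2) ((n + 2) ^ 2)).filter (fun y => f y ≠ c) with hE
  set a₀ := (n + 1) / 2 with ha₀
  have ha1 : n ≤ 2 * a₀ := by omega
  have ha2 : 2 * a₀ ≤ n + 1 := by omega
  let N : ℕ → ℕ := fun m => n ^ 2 / m + 1
  have hN1 : ∀ m, 1 ≤ m → n ^ 2 < N m * m := by
    intro m hm
    have := Nat.lt_mul_div_succ (n ^ 2) (show 0 < m by omega)
    rw [mul_comm] at this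
    exact this
  have hN2 : ∀ m, a₀ ≤ m → m < a₀ + n → (N m + 1) * (m + 1) < (n + 2) ^ 2 := by
    intro m hm1 hm2
    have h1 : n ^ 2 / m * m ≤ n ^ 2 := Nat.div_mul_le_self _ _
    have h2 : n ^ 2 / m + 2 * m < 4 * n + 2 := by
      by_contra hlt
      push Not at hlt
      obtain ⟨x, hx⟩ : ∃ x, 2 * m = n + x := ⟨2 * m - n, by omega⟩
      obtain ⟨z, hz⟩ : ∃ z, 3 * n = 2 * m + z := ⟨3 * n - 2 * m, by omega⟩
      set q := n ^ 2 / m
      -- work in integers
      have i1 : (q : ℤ) * m ≤ (n : ℤ) ^ 2 := by exact_mod_cast h1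
      have i2 : (4 : ℤ) * n + 2 ≤ q + 2 * m := by exact_mod_cast hlt
      have i3 : (0 : ℤ) ≤ (2 * m - n) * (3 * n - 2 * m) := by
        apply mul_nonneg
        · have : (n : ℤ) ≤ 2 * m := by exact_mod_cast (by omega : n ≤ 2 * m)
          linarith
        · have : (2 : ℤ) * m ≤ 3 * n := by exact_mod_cast (by omega : 2 * m ≤ 3 * n)
          linarith
      have i4 : (0 : ℤ) < m := by exact_mod_cast (by omega : 0 < m)
      have i5 : (0 : ℤ) < n := by exact_mod_cast (by omega : 0 < n)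
      have i6 : ((4 : ℤ) * n + 2 - 2 * m) * m ≤ q * m := by
        apply mul_le_mul_of_nonneg_right _ i4.le
        linarith
      nlinarith
    have h3 : (N m + 1) * (m + 1) = n ^ 2 / m * m + n ^ 2 / m + 2 * m + 2 := by
      simp only [N]; ring
    rw [h3]
    have h4 : (n + 2) ^ 2 = n ^ 2 + 4 * n + 4 := by ring
    omega
  -- a jump gives an element of E
  have key : ∀ m L, 1 ≤ m → 1 ≤ L → n ^ 2 < L * m → L * (m + 1) < (n + 2) ^ 2 →
      f m ≠ f (m + 1) → ∃ d, d < 2 ∧ L * (m + d) ∈ E := by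
    intro m L hm hL h1 h2 h3
    by_contra hno
    push Not at hno
    have g0 := hno 0 (by omega)
    have g1 := hno 1 (by omega)
    have h4 : L * m < L * (m + 1) := Nat.mul_lt_mul_of_pos_left (by omega) (by omega)
    rw [hE, mem_filter, mem_Ioo, not_and_not_right] at g0 g1
    have e0 := g0 ⟨by rw [add_zero]; exact h1, by rw [add_zero]; omega⟩
    have e1 := g1 ⟨by omega, h2⟩
    rw [add_zero, hf.mul L m hL hm] at e0
    rw [hf.mul L (m + 1) hL (by omega)] at e1
    have h5 : f L * (f m - f (m + 1)) = 0 := by rw [mul_sub, e0, e1]; ring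
    rcases mul_eq_zero.mp h5 with h6 | h6
    · rcases hf.val L hL with h7 | h7 <;> omega
    · exact h3 (by omega)
  set Ex := (Finset.Ico a₀ (a₀ + n)).filter (fun m => f m ≠ f (m + 1)) with hEx
  have hmem : ∀ m ∈ Ex, a₀ ≤ m ∧ m < a₀ + n ∧ f m ≠ f (m + 1) := by
    intro m hm
    rw [hEx, mem_filter, mem_Ico] at hm
    exact ⟨hm.1.1, hm.1.2, hm.2⟩
  have hch : ∀ m, ∃ d1 d2 : ℕ, m ∈ Ex → d1 < 2 ∧ d2 < 2 ∧ N m * (m + d1) ∈ E ∧
      (N m + 1) * (m + d2) ∈ E := by
    intro m
    by_cases hm : m ∈ Ex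
    · obtain ⟨h1, h2, h3⟩ := hmem m hm
      have hm1 : 1 ≤ m := by omega
      have g1 := hN1 m hm1
      have g2 := hN2 m h1 h2
      have g3 : N m * (m + 1) ≤ (N m + 1) * (m + 1) := Nat.mul_le_mul_right _ (by omega)
      have g4 : N m * m ≤ (N m + 1) * m := Nat.mul_le_mul_right _ (by omega)
      obtain ⟨d1, hd1, hd1'⟩ := key m (N m) hm1 (Nat.le_add_left 1 _) g1 (by omega) h3
      obtain ⟨d2, hd2, hd2'⟩ := key m (N m + 1) hm1 (by omega) (by omega) g2 h3
      exact ⟨d1, d2, fun _ => ⟨hd1, hd2, hd1', hd2'⟩⟩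
    · exact ⟨0, 0, fun h => absurd h hm⟩
  choose d1 d2 hd using hch
  have hcardEx : Ex.card ≤ 2 * (E.card * (E.card * (2 * 2))) := by
    have h := card_le_mul_card_image_of_maps_to (s := Ex)
      (t := E ×ˢ (E ×ˢ (range 2 ×ˢ range 2)))
      (f := fun m => (N m * (m + d1 m), (N m + 1) * (m + d2 m), d1 m, d2 m)) ?_ 2 ?_
    · rw [card_product, card_product, card_product, card_range] at h
      exact h
    · intro m hm
      obtain ⟨h1, h2, h3, h4⟩ := hd m hm
      simp only [mem_product, mem_range]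
      exact ⟨h3, h4, h1, h2⟩
    · rintro ⟨y1, y2, e1, e2⟩ hy
      simp only [mem_product, mem_range] at hy
      refine br_fiber N _ y1 y2 e1 e2 hy.2.2.1 hy.2.2.2 ?_
      intro m hm
      rw [mem_filter] at hm
      have h := hm.2
      simp only [Prod.mk.injEq] at h
      obtain ⟨h1, h2, h3, h4⟩ := h
      rw [← h3, ← h4]
      exact ⟨h1, h2⟩
  refine hcardEx.trans ?_
  have : E.card * (E.card * (2 * 2)) ≤ K * (K * (2 * 2)) :=
    Nat.mul_le_mul hcon (Nat.mul_le_mul_right _ hcon)
  have e : K * (K * (2 * 2)) = 4 * (K * K) := by ring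
  omega

/-- the sign changes of par in [130, 291) -/
def SJ : Finset ℕ := (Finset.Ico 130 291).filter (fun j => par j + par (j + 1) = 1)

theorem SJ_card : SJ.card = 73 := by decide +kernel

theorem lam_ne_of_par (j : ℕ) (hj : 1 ≤ j) (h : par j + par (j + 1) = 1) :
    lam j ≠ lam (j + 1) := by
  have h1 := par_spec j hj (by omega)
  have h2 := par_spec (j + 1) (by omega) (by omega)
  intro h3
  rcases (show par j = 0 ∨ par j = 1 by omega) with h4 | h4
  · have e1 : lam j = 1 := (lam_eq_one j).mpr (by omega)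
    have e2 : lam (j + 1) = -1 := (lam_eq_neg_one (j + 1)).mpr (by omega)
    rw [e1, e2] at h3
    norm_num at h3
  · have e1 : lam j = -1 := (lam_eq_neg_one j).mpr (by omega)
    have e2 : lam (j + 1) = 1 := (lam_eq_one (j + 1)).mpr (by omega)
    rw [e1, e2] at h3
    norm_num at h3

/-- many sign changes near n -/
theorem many_changes (n : ℕ) (hn : 582 ≤ n) :
    73 ≤ ((Finset.Ico ((n + 1) / 2) ((n + 1) / 2 + n)).filter
      (fun m => lam m ≠ lam (m + 1))).card := by
  obtain ⟨c, hc⟩ : ∃ c, c = n / 194 := ⟨_, rfl⟩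
  have hc3 : 3 ≤ c := by omega
  have hcn : 194 * c ≤ n := by omega
  have hcn2 : n ≤ 194 * c + 193 := by omega
  rw [← SJ_card]
  refine Finset.card_le_card_of_surjOn (fun m => m / c) ?_
  intro j hj
  have hj' := Finset.mem_coe.mp hj
  unfold SJ at hj'
  rw [Finset.mem_filter, Finset.mem_Ico] at hj'
  obtain ⟨⟨hj1, hj2⟩, hj3⟩ := hj'
  have hne := lam_ne_of_par j (by omega) hj3
  have hex : ∃ m, j * c ≤ m ∧ m < (j + 1) * c ∧ lam m ≠ lam (m + 1) := by
    by_contra hno
    push Not at hno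
    have hconst : ∀ k, k ≤ c → lam (j * c) = lam (j * c + k) := by
      intro k
      induction k with
      | zero => intro _; rfl
      | succ k ih =>
        intro hk
        rw [ih (by omega)]
        have h1 : (j + 1) * c = j * c + c := by ring
        exact hno (j * c + k) (by omega) (by omega)
    have h2 := hconst c le_rfl
    have h3 : j * c + c = (j + 1) * c := by ring
    rw [h3, lam_CM.mul j c (by omega) (by omega), lam_CM.mul (j + 1) c (by omega) (by omega)] at h2
    rcases lam_CM.val c (by omega) with h4 | h4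
    · rw [h4] at h2; exact hne (by linarith)
    · rw [h4] at h2; exact hne (by linarith)
  obtain ⟨m, h1, h2, h3⟩ := hex
  refine ⟨m, ?_, ?_⟩
  · apply Finset.mem_coe.mpr
    rw [Finset.mem_filter, Finset.mem_Ico]
    have h4 : 130 * c ≤ j * c := Nat.mul_le_mul_right _ hj1
    have h5 : (j + 1) * c ≤ 291 * c := Nat.mul_le_mul_right _ (by omega)
    exact ⟨⟨by omega, by omega⟩, h3⟩
  · show m / c = j
    exact Nat.div_eq_of_lt_le h1 h2

theorem allc_ok : allc 580 2 = true := by decide +kernel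

/-- at least four numbers of each parity strictly between n^2 and (n+2)^2 -/
theorem four (n : ℕ) (hn : 2 ≤ n) (j : ℕ) (hj : j < 2) :
    4 ≤ ((Finset.Ioo (n ^ 2) ((n + 2) ^ 2)).filter
      (fun y => ArithmeticFunction.cardFactors y % 2 = j)).card := by
  rcases Nat.lt_or_ge n 582 with h | h
  · have h1 := allc_spec 580 2 allc_ok n hn (by omega)
    have h2 := cnt_spec (4 * n + 3) (n * n + 1) 0 0 (by omega) h1
    have h3 : Finset.Ico (n * n + 1) (n * n + 1 + (4 * n + 3)) =
        Finset.Ioo (n ^ 2) ((n + 2) ^ 2) := by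
      ext t
      rw [Finset.mem_Ico, Finset.mem_Ioo]
      have e1 : n ^ 2 = n * n := by ring
      have e2 : (n + 2) ^ 2 = n * n + 4 * n + 4 := by ring
      rw [e1, e2]
      omega
    rw [h3, zero_add, zero_add] at h2
    rcases (show j = 0 ∨ j = 1 by omega) with h4 | h4
    · rw [h4]; exact h2.2
    · rw [h4]; exact h2.1
  · by_contra hcon
    push Not at hcon
    have h1 := many_changes n h
    have h2 : ((Finset.Ioo (n ^ 2) ((n + 2) ^ 2)).filter
        (fun y => lam y ≠ -(-1) ^ j)).card ≤ 3 := by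
      have h3 : (Finset.Ioo (n ^ 2) ((n + 2) ^ 2)).filter (fun y => lam y ≠ -(-1) ^ j) =
          (Finset.Ioo (n ^ 2) ((n + 2) ^ 2)).filter
            (fun y => ArithmeticFunction.cardFactors y % 2 = j) := by
        rw [← lam_filter _ j hj]
        apply Finset.filter_congr
        intro y hy
        rw [Finset.mem_Ioo] at hy
        rcases lam_CM.val y (by omega) with h6 | h6 <;> rcases neg_one_pow_eq_or ℤ j with h7 | h7 <;>
          rw [h6, h7] <;> norm_num
      rw [h3]
      omega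
    have h4 := jumps_le lam lam_CM n 3 hn _ h2
    omega

end Pool.Agent.H447R4.PA
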