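import Pool.Agent.H447R4.PA.Core
import Pool.Agent.H447R4.PA.A0

set_option autoImplicit false

/-!
Counting forms: at least K numbers of each sign in (X, X + 2 sqrt X], and at least K of each sign
in one of the two Oppermann intervals.
-/

namespace Pool.Agent.H447R4.PA

theorem count_core (K : ℕ) : ∃ X0 : ℕ, ∀ f, CM f → ∀ X : ℕ, X0 ≤ X → ∀ c : ℤ, (c = 1 ∨ c = -1) →
    K ≤ ((Finset.Ioc X (X + 2 * X.sqrt)).filter (fun y => f y = c)).card := by
  obtain ⟨X0, h⟩ := core t_A0 K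
  refine ⟨X0, ?_⟩
  intro f hf X hX c hc
  by_contra hcon
  push Not at hcon
  refine h f hf X hX (-c) _ hcon.le ?_
  intro y h1 h2 h3
  have h4 : f y ≠ c := by
    intro h5
    exact h3 (Finset.mem_filter.mpr ⟨Finset.mem_Ioc.mpr ⟨h1, h2⟩, h5⟩)
  rcases hf.val y (by omega) with h5 | h5 <;> rcases hc with h6 | h6 <;> rw [h5, h6] at h4 <;>
    rw [h5, h6]
  · exact absurd rfl h4
  · norm_num
  · exact absurd rfl h4

theorem few_of_not (f : ℕ → ℤ) (hf : CM f) (I : Finset ℕ) (hI : ∀ y ∈ I, 1 ≤ y) (K : ℕ)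
    (h : ¬ (K ≤ (I.filter (fun y => f y = 1)).card ∧ K ≤ (I.filter (fun y => f y = -1)).card)) :
    ∃ c : ℤ, (c = 1 ∨ c = -1) ∧ ∃ E : Finset ℕ, E.card ≤ K ∧ ∀ y ∈ I, y ∉ E → f y = c := by
  by_cases h1 : K ≤ (I.filter (fun y => f y = 1)).card
  · have h2 : (I.filter (fun y => f y = -1)).card < K := by
      by_contra h3; exact h ⟨h1, not_lt.mp h3⟩
    refine ⟨1, Or.inl rfl, _, h2.le, ?_⟩
    intro y hy hE
    rcases hf.val y (hI y hy) with h5 | h5
    · exact h5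
    · exact absurd (Finset.mem_filter.mpr ⟨hy, h5⟩) hE
  · refine ⟨-1, Or.inr rfl, _, (not_le.mp h1).le, ?_⟩
    intro y hy hE
    rcases hf.val y (hI y hy) with h5 | h5
    · exact absurd (Finset.mem_filter.mpr ⟨hy, h5⟩) hE
    · exact h5

theorem opp_core (K : ℕ) : ∃ n0 : ℕ, ∀ f, CM f → ∀ n : ℕ, n0 ≤ n →
    (K ≤ ((Finset.Ioo (n ^ 2 - n) (n ^ 2)).filter (fun y => f y = 1)).card ∧
      K ≤ ((Finset.Ioo (n ^ 2 - n) (n ^ 2)).filter (fun y => f y = -1)).card) ∨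
    (K ≤ ((Finset.Ioo (n ^ 2) (n ^ 2 + n)).filter (fun y => f y = 1)).card ∧
      K ≤ ((Finset.Ioo (n ^ 2) (n ^ 2 + n)).filter (fun y => f y = -1)).card) := by
  obtain ⟨X0, h⟩ := core t_A0 (K + K + 1)
  obtain ⟨n1, h'⟩ := core_opp (K + K)
  refine ⟨max (X0 + 2) (n1 + 2), ?_⟩
  intro f hf n hn
  have hnX : X0 + 2 ≤ n := le_trans (le_max_left _ _) hn
  have hn1 : n1 + 2 ≤ n := le_trans (le_max_right _ _) hn
  have hnn : n ≤ n ^ 2 := by nlinarith
  by_contra hcon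
  rw [not_or] at hcon
  obtain ⟨g1, g2⟩ := hcon
  obtain ⟨c1, hc1, E1, hE1, hv1⟩ := few_of_not f hf _ (by
    intro y hy; rw [Finset.mem_Ioo] at hy; omega) K g1
  obtain ⟨c2, hc2, E2, hE2, hv2⟩ := few_of_not f hf _ (by
    intro y hy; rw [Finset.mem_Ioo] at hy; omega) K g2
  have hcard : (E1 ∪ E2).card ≤ K + K := (Finset.card_union_le _ _).trans (add_le_add hE1 hE2)
  by_cases hcc : c2 = c1
  · subst hcc
    have hsq : (n ^ 2 - n).sqrt = n - 1 := by
      obtain ⟨k, rfl⟩ : ∃ k, n = k + 1 := ⟨n - 1, by omega⟩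
      have e1 : (k + 1) ^ 2 - (k + 1) = k * k + k := by
        have : (k + 1) ^ 2 = k * k + k + (k + 1) := by ring
        omega
      rw [e1, Nat.add_sub_cancel]
      exact Nat.sqrt_add_eq k (by omega)
    refine h f hf (n ^ 2 - n) (by
      have : n * 2 ≤ n ^ 2 := by nlinarith
      omega) c2 (insert (n ^ 2) (E1 ∪ E2)) ?_ ?_
    · exact (Finset.card_insert_le _ _).trans (by omega)
    · intro y h1 h2 h3
      rw [hsq] at h2
      rw [Finset.mem_insert, Finset.mem_union, not_or, not_or] at h3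
      obtain ⟨h4, h5, h6⟩ := h3
      rcases Nat.lt_or_ge y (n ^ 2) with h7 | h7
      · exact hv1 y (Finset.mem_Ioo.mpr ⟨h1, h7⟩) h5
      · exact hv2 y (Finset.mem_Ioo.mpr ⟨by omega, by omega⟩) h6
  · have hcc' : c2 = -c1 := by
      rcases hc1 with h1 | h1 <;> rcases hc2 with h2 | h2 <;> rw [h1, h2] at hcc <;> rw [h1, h2]
      · exact absurd rfl hcc
      · norm_num
      · exact absurd rfl hcc
    refine h' f hf n (by omega) c1 (E1 ∪ E2) hcard ?_ ?_
    · intro y h1 h2 h3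
      rw [Finset.mem_union, not_or] at h3
      exact hv1 y (Finset.mem_Ioo.mpr ⟨by omega, h2⟩) h3.1
    · intro y h1 h2 h3
      rw [Finset.mem_union, not_or] at h3
      rw [← hcc']
      exact hv2 y (Finset.mem_Ioo.mpr ⟨h1, h2⟩) h3.2

end Pool.Agent.H447R4.PA
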