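import Pool.Agent.H447R4.PA.CoreX
import Pool.Agent.H447R4.PA.Fin

set_option autoImplicit false

/-!
Explicit counting forms.
-/

namespace Pool.Agent.H447R4.PA

theorem ZK_pow4 (K : ℕ) : (ZK K) ^ 4 = 10 ^ 324 * (K + 1) ^ 48 := by
  unfold ZK
  rw [mul_pow, ← pow_mul, ← pow_mul]

theorem ZK_sq (K : ℕ) : (ZK K) ^ 2 = 10 ^ 162 * (K + 1) ^ 24 := by
  unfold ZK
  rw [mul_pow, ← pow_mul, ← pow_mul]

/-- explicit count in (X, X + 2 sqrt X] -/
theorem count_coreX (f : ℕ → ℤ) (hf : CM f) (X K : ℕ) (hX : 10 ^ 324 * (K + 1) ^ 48 ≤ X) (c : ℤ)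
    (hc : c = 1 ∨ c = -1) :
    K < ((Finset.Ioc X (X + 2 * X.sqrt)).filter (fun y => f y = c)).card := by
  by_contra hcon
  push Not at hcon
  refine coreX K f hf X (by rw [ZK_pow4]; exact hX) (-c) _ hcon ?_
  intro y h1 h2 h3
  have h4 : f y ≠ c := by
    intro h5
    exact h3 (Finset.mem_filter.mpr ⟨Finset.mem_Ioc.mpr ⟨h1, h2⟩, h5⟩)
  rcases hf.val y (by omega) with h5 | h5 <;> rcases hc with h6 | h6 <;> rw [h5, h6] at h4 <;>
    rw [h5, h6]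
  · exact absurd rfl h4
  · norm_num
  · exact absurd rfl h4

/-- explicit Oppermann form -/
theorem opp_coreX (f : ℕ → ℤ) (hf : CM f) (n K : ℕ) (hn : 10 ^ 170 * (K + 1) ^ 24 ≤ n) :
    (K ≤ ((Finset.Ioo (n ^ 2 - n) (n ^ 2)).filter (fun y => f y = 1)).card ∧
      K ≤ ((Finset.Ioo (n ^ 2 - n) (n ^ 2)).filter (fun y => f y = -1)).card) ∨
    (K ≤ ((Finset.Ioo (n ^ 2) (n ^ 2 + n)).filter (fun y => f y = 1)).card ∧
      K ≤ ((Finset.Ioo (n ^ 2) (n ^ 2 + n)).filter (fun y => f y = -1)).card) := by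
  obtain ⟨Q, hQ⟩ : ∃ Q, Q = 10 ^ 162 * (K + K + 1 + 1) ^ 24 := ⟨_, rfl⟩
  have hQn : 2 * Q ≤ n := by
    have e1 : K + K + 1 + 1 = 2 * (K + 1) := by ring
    rw [hQ, e1, mul_pow]
    have h7 : 2 * (10 ^ 162 * 2 ^ 24) ≤ 10 ^ 170 := by norm_num
    calc 2 * (10 ^ 162 * (2 ^ 24 * (K + 1) ^ 24)) = 2 * (10 ^ 162 * 2 ^ 24) * (K + 1) ^ 24 := by
          ring
      _ ≤ 10 ^ 170 * (K + 1) ^ 24 := Nat.mul_le_mul_right _ h7
      _ ≤ n := hn
  have hQ1 : 0 < Q := by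
    rw [hQ]
    exact Nat.mul_pos (Nat.pow_pos (Nat.succ_pos 9)) (Nat.pow_pos (Nat.succ_pos _))
  have hn2 : 2 ≤ n := by omega
  have hnn : n ≤ n ^ 2 := by nlinarith
  have hX : (ZK (K + K + 1)) ^ 4 ≤ n ^ 2 - n := by
    have e1 : (ZK (K + K + 1)) ^ 4 = Q ^ 2 := by
      have : (ZK (K + K + 1)) ^ 4 = ((ZK (K + K + 1)) ^ 2) ^ 2 := by ring
      rw [this, ZK_sq, ← hQ]
    rw [e1]
    have e2 : Q ^ 2 + n ≤ n ^ 2 := by nlinarith
    omega
  have hn' : (ZK (K + K)) ^ 2 ≤ n := by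
    rw [ZK_sq]
    have : 10 ^ 162 * (K + K + 1) ^ 24 ≤ Q := by
      rw [hQ]
      exact Nat.mul_le_mul_left _ (Nat.pow_le_pow_left (by omega) 24)
    omega
  by_contra hcon
  rw [not_or] at hcon
  obtain ⟨g1, g2⟩ := hcon
  obtain ⟨c1, hc1, E1, hE1, hv1⟩ := few_of_not f hf _ (by
    intro y hy; rw [Finset.mem_Ioo] at hy; omega) K g1
  obtain ⟨c2, hc2, E2, hE2, hv2⟩ := few_of_not f hf _ (by
    intro y hy; rw [Finset.mem_Ioo] at hy; omega) K g2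
  have hcard : (E1 ∪ E2).card ≤ K + K := (Finset.card_union_le _ _).trans (add_le_add hE1 hE2)
  by_cases hcc : c2 = c1
  · subst hcc
    have hsq : (n ^ 2 - n).sqrt = n - 1 := by
      obtain ⟨k, rfl⟩ : ∃ k, n = k + 1 := ⟨n - 1, by omega⟩
      have e1 : (k + 1) ^ 2 - (k + 1) = k * k + k := by
        have : (k + 1) ^ 2 = k * k + k + (k + 1) := by ring
        omega
      rw [e1, Nat.add_sub_cancel]
      exact Nat.sqrt_add_eq k (by omega)
    refine coreX (K + K + 1) f hf (n ^ 2 - n) hX c2 (insert (n ^ 2) (E1 ∪ E2)) ?_ ?_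
    · exact (Finset.card_insert_le _ _).trans (by omega)
    · intro y h1 h2 h3
      rw [hsq] at h2
      rw [Finset.mem_insert, Finset.mem_union, not_or, not_or] at h3
      obtain ⟨h4, h5, h6⟩ := h3
      rcases Nat.lt_or_ge y (n ^ 2) with h7 | h7
      · exact hv1 y (Finset.mem_Ioo.mpr ⟨h1, h7⟩) h5
      · exact hv2 y (Finset.mem_Ioo.mpr ⟨by omega, by omega⟩) h6
  · have hcc' : c2 = -c1 := by
      rcases hc1 with h1 | h1 <;> rcases hc2 with h2 | h2 <;> rw [h1, h2] at hcc <;> rw [h1, h2]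
      · exact absurd rfl hcc
      · norm_num
      · exact absurd rfl hcc
    refine core_oppX (K + K) f hf n hn' c1 (E1 ∪ E2) hcard ?_ ?_
    · intro y h1 h2 h3
      rw [Finset.mem_union, not_or] at h3
      exact hv1 y (Finset.mem_Ioo.mpr ⟨by omega, h2⟩) h3.1
    · intro y h1 h2 h3
      rw [Finset.mem_union, not_or] at h3
      rw [← hcc']
      exact hv2 y (Finset.mem_Ioo.mpr ⟨h1, h2⟩) h3.2

end Pool.Agent.H447R4.PA
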