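import Pool.Agent.H447R4.PA.Defs

set_option autoImplicit false

/-!
The Liouville function is an example of CM.
-/

namespace Pool.Agent.H447R4.PA

/-- the Liouville function (-1)^Ω(n) -/
def lam (n : ℕ) : ℤ := (-1) ^ (ArithmeticFunction.cardFactors n)

theorem lam_CM : CM lam := by
  refine ⟨?_, ?_, ?_⟩
  · intro m _
    exact neg_one_pow_eq_or ℤ _
  · intro m n hm hn
    unfold lam
    rw [ArithmeticFunction.cardFactors_mul (by omega) (by omega), pow_add]
  · unfold lam
    rw [ArithmeticFunction.cardFactors_apply_prime Nat.prime_two]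
    norm_num

theorem lam_eq_one (y : ℕ) : lam y = 1 ↔ ArithmeticFunction.cardFactors y % 2 = 0 := by
  unfold lam
  constructor
  · intro h
    by_contra h1
    have h2 : Odd (ArithmeticFunction.cardFactors y) := Nat.odd_iff.mpr (by omega)
    rw [h2.neg_one_pow] at h
    norm_num at h
  · intro h
    exact (Nat.even_iff.mpr h).neg_one_pow

theorem lam_eq_neg_one (y : ℕ) : lam y = -1 ↔ ArithmeticFunction.cardFactors y % 2 = 1 := by
  unfold lam
  constructor
  · intro h
    by_contra h1
    have h2 : Even (ArithmeticFunction.cardFactors y) := Nat.even_iff.mpr (by omega)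
    rw [h2.neg_one_pow] at h
    norm_num at h
  · intro h
    exact (Nat.odd_iff.mpr h).neg_one_pow

/-- the sign attached to a residue j mod 2 -/
theorem lam_filter (I : Finset ℕ) (j : ℕ) (hj : j < 2) :
    I.filter (fun y => lam y = (-1) ^ j) =
      I.filter (fun y => ArithmeticFunction.cardFactors y % 2 = j) := by
  apply Finset.filter_congr
  intro y _
  rcases (show j = 0 ∨ j = 1 by omega) with h | h
  · subst h; simpa using lam_eq_one y
  · subst h; simpa using lam_eq_neg_one y

end Pool.Agent.H447R4.PA
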