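import Pool.Agent.H447R4.PA.All

set_option autoImplicit false

/-!
Strictly between n^2 and (n+1)^2 there is always an integer with an odd number of prime factors.
-/

namespace Pool.Agent.H447R4.PA

theorem lam_sq (m : ℕ) (hm : 1 ≤ m) : lam (m * m) = 1 := by
  rw [lam_CM.mul m m hm hm]
  rcases lam_CM.val m hm with h | h <;> rw [h] <;> norm_num

/-- if λ = 1 between n^2 and (n+1)^2 then U V in [n^2, (n+1)^2] gives λ(U) = λ(V). -/
theorem leg_prod (n : ℕ) (hn : 1 ≤ n)
    (h : ∀ y, n ^ 2 < y → y < (n + 1) ^ 2 → lam y = 1) (U V : ℕ) (hU : 1 ≤ U) (hV : 1 ≤ V)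
    (h1 : n ^ 2 ≤ U * V) (h2 : U * V ≤ (n + 1) ^ 2) : lam U = lam V := by
  have h3 : lam (U * V) = 1 := by
    rcases Nat.lt_or_ge (n ^ 2) (U * V) with h4 | h4
    · rcases Nat.lt_or_ge (U * V) ((n + 1) ^ 2) with h5 | h5
      · exact h _ h4 h5
      · have : U * V = (n + 1) * (n + 1) := by
          have e : (n + 1) ^ 2 = (n + 1) * (n + 1) := by ring
          omega
        rw [this]; exact lam_sq _ (by omega)
    · have : U * V = n * n := by
        have e : n ^ 2 = n * n := by ring
        omega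
      rw [this]; exact lam_sq _ hn
  rw [lam_CM.mul U V hU hV] at h3
  rcases lam_CM.val U hU with h4 | h4 <;> rcases lam_CM.val V hV with h5 | h5 <;>
    rw [h4, h5] at h3 <;> rw [h4, h5]
  · norm_num at h3
  · norm_num at h3

theorem legendre (n : ℕ) (hn : 1 ≤ n) : ∃ y, n ^ 2 < y ∧ y < (n + 1) ^ 2 ∧ lam y = -1 := by
  by_contra hno
  push Not at hno
  have h : ∀ y, n ^ 2 < y → y < (n + 1) ^ 2 → lam y = 1 := by
    intro y h1 h2
    rcases lam_CM.val y (by omega) with h3 | h3
    · exact h3
    · exact absurd h3 (hno y h1 h2)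
  have key := leg_prod n hn h
  obtain ⟨B, hB⟩ : ∃ B, B = (2 * n + 1).sqrt := ⟨_, rfl⟩
  have hB1 : B * B ≤ 2 * n + 1 := by rw [hB]; exact Nat.sqrt_le _
  have hB2 : 2 * n + 1 < (B + 1) * (B + 1) := by rw [hB]; exact Nat.lt_succ_sqrt _
  have hBn : B ≤ n := by
    by_contra hc
    push Not at hc
    have : (n + 1) * (n + 1) ≤ B * B := Nat.mul_le_mul hc hc
    nlinarith
  -- F2
  have F2 : ∀ b, b ≤ B → lam (n + 1 - b) = lam (n + 1 + b) := by
    intro b hb
    obtain ⟨v, hv⟩ : ∃ v, n + 1 = v + b := ⟨n + 1 - b, by omega⟩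
    have hbb : b * b ≤ 2 * n + 1 := (Nat.mul_le_mul hb hb).trans hB1
    have e0 : n + 1 - b = v := by omega
    rw [e0, hv]
    apply key v (v + b + b) (by omega) (by omega)
    · have : n = v + b - 1 := by omega
      have e1 : v * (v + b + b) + b * b = (n + 1) ^ 2 := by rw [hv]; ring
      have e2 : (n + 1) ^ 2 = n ^ 2 + (2 * n + 1) := by ring
      omega
    · have e1 : v * (v + b + b) + b * b = (n + 1) ^ 2 := by rw [hv]; ring
      omega
  -- the right side is constant
  have R : ∀ b, b ≤ B → lam (n + 1 + b) = lam (n + 1 + (b + 1)) := by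
    intro b hb
    have hbb : b * b ≤ 2 * n + 1 := (Nat.mul_le_mul hb hb).trans hB1
    have e2 : (n + 1) ^ 2 = n ^ 2 + (2 * n + 1) := by ring
    rcases Nat.lt_or_ge n (b * (b + 1)) with hc | hc
    · rw [← F2 b hb]
      obtain ⟨v, hv⟩ : ∃ v, n + 1 = v + b := ⟨n + 1 - b, by omega⟩
      have e0 : n + 1 - b = v := by omega
      have e3 : n + 1 + (b + 1) = v + b + b + 1 := by omega
      rw [e0, e3]
      have e1 : v * (v + b + b + 1) + b * (b + 1) = (n + 1) ^ 2 + (n + 1) := by rw [hv]; ring
      have e4 : b * (b + 1) = b * b + b := by ring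
      apply key v (v + b + b + 1) (by omega) (by omega)
      · omega
      · omega
    · have hbn : b < n ∨ (b = 0 ∧ n = 1) := by
        rcases Nat.lt_or_ge b n with h1 | h1
        · exact Or.inl h1
        · have : n * (n + 1) ≤ b * (b + 1) := Nat.mul_le_mul h1 (by omega)
          nlinarith
      have hv1 : b < n := by
        rcases hbn with h1 | ⟨h1, h2⟩ <;> omega
      obtain ⟨v, hv⟩ : ∃ v, n = v + b := ⟨n - b, by omega⟩
      have e3 : n + 1 + b = v + b + b + 1 := by omega
      have e5 : n + 1 + (b + 1) = v + b + b + 2 := by omega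
      rw [e3, e5]
      have e1 : v * (v + b + b + 1) + b * (b + 1) = n ^ 2 + n := by rw [hv]; ring
      have e6 : v * (v + b + b + 2) + (b + 1) * (b + 1) = (n + 1) ^ 2 := by rw [hv]; ring
      have e7 : (b + 1) * (b + 1) = b * (b + 1) + (b + 1) := by ring
      have g1 : lam v = lam (v + b + b + 1) := by
        apply key v _ (by omega) (by omega)
        · omega
        · omega
      have g2 : lam v = lam (v + b + b + 2) := by
        apply key v _ (by omega) (by omega)
        · omega
        · omega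
      rw [← g1, ← g2]
  have R2 : ∀ b, b ≤ B + 1 → lam (n + 1 + b) = lam (n + 1) := by
    intro b
    induction b with
    | zero => intro _; rfl
    | succ b ih =>
      intro hb
      rw [← R b (by omega)]
      exact ih (by omega)
  have C : ∀ m, n - B < m → m < n + B + 3 → lam m = lam (n + 1) := by
    intro m h1 h2
    rcases Nat.lt_or_ge m (n + 1) with h3 | h3
    · have e : m = n + 1 - (n + 1 - m) := by omega
      rw [e, F2 (n + 1 - m) (by omega)]
      exact R2 _ (by omega)
    · have e : m = n + 1 + (m - (n + 1)) := by omega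
      rw [e]
      exact R2 _ (by omega)
  obtain ⟨m, h1, h2, h3⟩ := all_X (n - B)
  have hlt : Real.sqrt ((n - B : ℕ) : ℝ) < B := by
    have h4 : n - B < B * B := by
      have e : (B + 1) * (B + 1) = B * B + 2 * B + 1 := by ring
      omega
    have hB0 : 0 < B := by
      rcases Nat.eq_zero_or_pos B with h5 | h5
      · rw [h5] at h4; omega
      · exact h5
    rw [Real.sqrt_lt' (by exact_mod_cast hB0)]
    have : (((n - B : ℕ)) : ℝ) < ((B * B : ℕ) : ℝ) := by exact_mod_cast h4
    push_cast at this ⊢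
    nlinarith
  have h5 : ((m + 1 : ℕ) : ℝ) < ((n - B + 2 * B + 3 : ℕ) : ℝ) := by
    push_cast at h2 ⊢
    linarith
  have h6 : m + 1 < n - B + 2 * B + 3 := by exact_mod_cast h5
  exact h3 ((C m h1 (by omega)).trans (C (m + 1) (by omega) (by omega)).symm)

end Pool.Agent.H447R4.PA
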