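import Pool.Agent.H447R4.PA.Leg

set_option autoImplicit false

/-!
Strictly between n^2 and (n+1)^2, n ≥ 2, there is always an integer with an even number of prime
factors.
-/

namespace Pool.Agent.H447R4.PA

theorem rect (U V : ℕ) (hU : 1 ≤ U) (hV : 1 ≤ V) :
    lam (U * V) * lam ((U + 1) * V) * lam (U * (V + 1)) * lam ((U + 1) * (V + 1)) = 1 := by
  rw [lam_CM.mul U V hU hV, lam_CM.mul (U + 1) V (by omega) hV, lam_CM.mul U (V + 1) hU (by omega),
    lam_CM.mul (U + 1) (V + 1) (by omega) (by omega)]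
  rcases lam_CM.val U hU with h1 | h1 <;> rcases lam_CM.val V hV with h2 | h2 <;>
    rcases lam_CM.val (U + 1) (by omega) with h3 | h3 <;>
    rcases lam_CM.val (V + 1) (by omega) with h4 | h4 <;> rw [h1, h2, h3, h4] <;> norm_num

theorem lev_prod (n : ℕ) (h : ∀ y, n ^ 2 < y → y < (n + 1) ^ 2 → lam y = -1) (U V : ℕ)
    (hU : 1 ≤ U) (hV : 1 ≤ V) (h1 : n ^ 2 < U * V) (h2 : U * V < (n + 1) ^ 2) :
    lam U = -lam V := by
  have h3 := h _ h1 h2
  rw [lam_CM.mul U V hU hV] at h3
  rcases lam_CM.val U hU with h4 | h4 <;> rcases lam_CM.val V hV with h5 | h5 <;>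
    rw [h4, h5] at h3 <;> rw [h4, h5]
  · norm_num at h3
  · norm_num
  · norm_num at h3

/-- greatest x with P x -/
theorem exists_max (P : ℕ → Prop) (h0 : P 0) (N : ℕ) (hN : ¬ P N) : ∃ x, P x ∧ ¬ P (x + 1) := by
  by_contra hno
  push Not at hno
  have : ∀ k, P k := by
    intro k
    induction k with
    | zero => exact h0
    | succ k ih => exact hno k ih
  exact hN (this N)

/-- the structure near n + 1 -/
structure Str (u β B : ℕ) (s t : ℤ) : Prop where
  ss : s * s = 1
  tt : t * t = 1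
  near : ∀ i, i ≤ β → lam (u + i) = s
  far : ∀ i, β < i → i ≤ B + 1 → lam (u + i) = t
  lnear : ∀ i a, 1 ≤ i → i ≤ β → a + i = u → lam a = -s
  lfar : ∀ i a, β < i → i ≤ B → a + i = u → lam a = -t

theorem str_of (n β : ℕ) (hn : 100 ≤ n) (h : ∀ y, n ^ 2 < y → y < (n + 1) ^ 2 → lam y = -1)
    (hβ1 : β * (β + 1) ≤ n + 1) (hβ2 : n + 1 < (β + 1) * (β + 2)) :
    Str (n + 1) β (2 * n).sqrt (lam (n + 1)) (lam (n + 1 + (β + 1))) ∧
      (β * (β + 1) + 2 ≤ n + 1 → lam (n + 1 + (β + 1)) = lam (n + 1)) := by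
  have key := lev_prod n h
  obtain ⟨B, hB⟩ : ∃ B, B = (2 * n).sqrt := ⟨_, rfl⟩
  rw [← hB]
  have hB1 : B * B ≤ 2 * n := by rw [hB]; exact Nat.sqrt_le _
  have hB2 : 2 * n < (B + 1) * (B + 1) := by rw [hB]; exact Nat.lt_succ_sqrt _
  have hBn : B < n := by
    by_contra hc
    push Not at hc
    have : n * n ≤ B * B := Nat.mul_le_mul hc hc
    nlinarith
  have e2 : (n + 1) ^ 2 = n ^ 2 + (2 * n + 1) := by ring
  have hβ9 : 9 ≤ β := by
    by_contra hc
    push Not at hc
    have : (β + 1) * (β + 2) ≤ 9 * 10 := Nat.mul_le_mul (by omega) (by omega)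
    omega
  have hβB : β + 1 ≤ B := by
    by_contra hc
    push Not at hc
    have h1 : (B + 1) * (B + 1) ≤ (β + 1) * (β + 1) := Nat.mul_le_mul (by omega) (by omega)
    nlinarith
  have F2 : ∀ b, 1 ≤ b → b ≤ B → lam (n + 1 - b) = -lam (n + 1 + b) := by
    intro b hb1 hb
    obtain ⟨v, hv⟩ : ∃ v, n + 1 = v + b := ⟨n + 1 - b, by omega⟩
    have hbb : b * b ≤ 2 * n := (Nat.mul_le_mul hb hb).trans hB1
    have hb1b : 1 ≤ b * b := Nat.mul_pos hb1 hb1
    have e0 : n + 1 - b = v := by omega
    rw [e0, hv]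
    have e1 : v * (v + b + b) + b * b = (n + 1) ^ 2 := by rw [hv]; ring
    exact key v (v + b + b) (by omega) (by omega) (by omega) (by omega)
  have R : ∀ b, b ≤ B → (b * (b + 1) < n ∨ n + 1 < b * (b + 1)) →
      lam (n + 1 + b) = lam (n + 1 + (b + 1)) := by
    intro b hb hcase
    have hbb : b * b ≤ 2 * n := (Nat.mul_le_mul hb hb).trans hB1
    rcases hcase with hc | hc
    · obtain ⟨v, hv⟩ : ∃ v, n = v + b := ⟨n - b, by omega⟩
      have e3 : n + 1 + b = v + b + b + 1 := by omega
      have e5 : n + 1 + (b + 1) = v + b + b + 2 := by omega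
      rw [e3, e5]
      have e1 : v * (v + b + b + 1) + b * (b + 1) = n ^ 2 + n := by rw [hv]; ring
      have e6 : v * (v + b + b + 2) + (b + 1) * (b + 1) = (n + 1) ^ 2 := by rw [hv]; ring
      have e7 : (b + 1) * (b + 1) = b * (b + 1) + (b + 1) := by ring
      have g1 : lam v = -lam (v + b + b + 1) := by
        apply key v _ (by omega) (by omega)
        · omega
        · omega
      have g2 : lam v = -lam (v + b + b + 2) := by
        apply key v _ (by omega) (by omega)
        · omega
        · omega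
      linarith
    · have hb1 : 1 ≤ b := by
        rcases Nat.eq_zero_or_pos b with h0 | h0
        · rw [h0] at hc; omega
        · exact h0
      have g0 := F2 b hb1 hb
      obtain ⟨v, hv⟩ : ∃ v, n + 1 = v + b := ⟨n + 1 - b, by omega⟩
      have e0 : n + 1 - b = v := by omega
      have e3 : n + 1 + (b + 1) = v + b + b + 1 := by omega
      rw [e0] at g0
      rw [e3]
      have e1 : v * (v + b + b + 1) + b * (b + 1) = (n + 1) ^ 2 + (n + 1) := by rw [hv]; ring
      have e4 : b * (b + 1) = b * b + b := by ring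
      have g1 : lam v = -lam (v + b + b + 1) := by
        apply key v (v + b + b + 1) (by omega) (by omega)
        · omega
        · omega
      linarith
  have hnear : ∀ i, i ≤ β → lam (n + 1 + i) = lam (n + 1) := by
    intro i
    induction i with
    | zero => intro _; rfl
    | succ i ih =>
      intro hi
      rw [← R i (by omega) (Or.inl ?_)]
      · exact ih (by omega)
      · have : i * (i + 1) + 2 * (i + 1) = (i + 1) * (i + 2) := by ring
        have h2 : (i + 1) * (i + 2) ≤ β * (β + 1) := Nat.mul_le_mul hi (by omega)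
        omega
  have hfar : ∀ i, i ≤ B - β → lam (n + 1 + (β + 1 + i)) = lam (n + 1 + (β + 1)) := by
    intro i
    induction i with
    | zero => intro _; rfl
    | succ i ih =>
      intro hi
      have h1 := R (β + 1 + i) (by omega) (Or.inr (by
        have : (β + 1) * (β + 2) ≤ (β + 1 + i) * (β + 1 + i + 1) :=
          Nat.mul_le_mul (by omega) (by omega)
        omega))
      rw [show β + 1 + (i + 1) = β + 1 + i + 1 by ring, ← h1]
      exact ih (by omega)
  have hsq : ∀ m, 1 ≤ m → lam m * lam m = 1 := by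
    intro m hm
    rcases lam_CM.val m hm with h1 | h1 <;> rw [h1] <;> norm_num
  have hfar' : ∀ i, β < i → i ≤ B + 1 → lam (n + 1 + i) = lam (n + 1 + (β + 1)) := by
    intro i h1 h2
    obtain ⟨k, rfl⟩ : ∃ k, i = β + 1 + k := ⟨i - (β + 1), by omega⟩
    exact hfar k (by omega)
  refine ⟨⟨hsq _ (by omega), hsq _ (by omega), hnear, hfar', ?_, ?_⟩, ?_⟩
  · intro i a h1 h2 h3
    have h4 := F2 i h1 (by omega)
    rw [show n + 1 - i = a by omega, hnear i h2] at h4
    exact h4
  · intro i a h1 h2 h3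
    have h4 := F2 i (by omega) h2
    rw [show n + 1 - i = a by omega, hfar' i h1 (by omega)] at h4
    exact h4
  · intro hg
    rw [← R β (by omega) (Or.inl (by omega))]
    exact hnear β le_rfl

end Pool.Agent.H447R4.PA
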