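import Pool.Agent.H447R4.PA.Lev

set_option autoImplicit false

/-!
The rectangles.
-/

namespace Pool.Agent.H447R4.PA

theorem B_big (u β B x : ℕ) (hβ : 100 ≤ β) (hu : β * (β + 1) ≤ u)
    (hB : 2 * u < (B + 1) * (B + 1) + 2) (hx : x * x ≤ β) : β + 3 * x + 8 ≤ B + 1 := by
  by_contra hc
  push Not at hc
  have h10 : 10 * x ≤ β := by
    by_contra h
    push Not at h
    have h1 : (β + 1) * (β + 1) ≤ (10 * x) * (10 * x) := Nat.mul_le_mul h h
    have h2 : (10 * x) * (10 * x) = 100 * (x * x) := by ring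
    nlinarith
  have h3 : (B + 1) * (B + 1) ≤ (β + 3 * x + 7) * (β + 3 * x + 7) :=
    Nat.mul_le_mul (by omega) (by omega)
  have h4 : (β + 3 * x + 7) * (β + 3 * x + 7) =
      β * β + 6 * (x * β) + 14 * β + 9 * (x * x) + 42 * x + 49 := by ring
  have h5 : 10 * (x * β) ≤ β * β := by nlinarith
  have h6 : β * (β + 1) = β * β + β := by ring
  have h7 : 100 * β ≤ β * β := Nat.mul_le_mul_right β hβ
  omega

theorem B_141 (u β B : ℕ) (hβ : 22 ≤ β) (hu : β * (β + 1) ≤ u)
    (hB : 2 * u < (B + 1) * (B + 1) + 2) : 141 * β < 100 * (B + 1) := by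
  by_contra hc
  push Not at hc
  have h1 : (100 * (B + 1)) * (100 * (B + 1)) ≤ (141 * β) * (141 * β) := Nat.mul_le_mul hc hc
  have h2 : (100 * (B + 1)) * (100 * (B + 1)) = 10000 * ((B + 1) * (B + 1)) := by ring
  have h3 : (141 * β) * (141 * β) = 19881 * (β * β) := by ring
  have h4 : β * (β + 1) = β * β + β := by ring
  omega

theorem five_x (x β : ℕ) (hβ : 22 ≤ β) (hx : x * x ≤ β) : 5 * x ≤ β := by
  rcases Nat.lt_or_ge x 5 with h | h
  · omega
  · exact (Nat.mul_le_mul_right x h).trans hx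

theorem st_one (s t : ℤ) (ss : s * s = 1) (h : s * t = 1) : t = s := by
  have : s * (s * t) = s := by rw [h, mul_one]
  rw [← mul_assoc, ss, one_mul] at this
  exact this

/-- no break -/
theorem caseI (u β B g : ℕ) (s : ℤ) (st : Str u β B s s) (hu : u = β * (β + 1) + g)
    (hg : g ≤ 2 * β + 1) (hβ : 100 ≤ β) (hB : 2 * u < (B + 1) * (B + 1) + 2) : False := by
  have pos : ∀ i a, i ≤ B + 1 → a = u + i → lam a = s := by
    intro i a h1 h2
    rw [h2]
    rcases Nat.lt_or_ge β i with h | h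
    · exact st.far i h h1
    · exact st.near i h
  have neg : ∀ i a, 1 ≤ i → i ≤ B → a + i = u → lam a = -s := by
    intro i a h1 h2 h3
    rcases Nat.lt_or_ge β i with h | h
    · exact st.lfar i a h h2 h3
    · exact st.lnear i a h1 h h3
  obtain ⟨d', hd'⟩ : ∃ d', d' = g / β := ⟨_, rfl⟩
  obtain ⟨r, hr⟩ : ∃ r, r = g % β := ⟨_, rfl⟩
  have hgr : β * d' + r = g := by rw [hd', hr]; exact Nat.div_add_mod g β
  have hrβ : r < β := by rw [hr]; exact Nat.mod_lt _ (by omega)
  have hd2 : d' ≤ 2 := by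
    by_contra hc
    push Not at hc
    have : β * 3 ≤ β * d' := Nat.mul_le_mul_left _ hc
    omega
  obtain ⟨x, hx1, hx2⟩ := exists_max (fun x => x * x + (d' + 2) * x + r ≤ β) (by simp; omega)
    (β + 1) (by
      show ¬ ((β + 1) * (β + 1) + (d' + 2) * (β + 1) + r ≤ β)
      have : β + 1 ≤ (β + 1) * (β + 1) := Nat.le_mul_of_pos_left _ (by omega)
      omega)
  have hx1' : x * x + (d' + 2) * x + r ≤ β := hx1
  have hx2' : β < (x + 1) * (x + 1) + (d' + 2) * (x + 1) + r := by
    by_contra hc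
    exact hx2 (not_lt.mp hc)
  have hBx := B_big u β B x hβ (by omega) hB (by omega)
  have e0 : (d' + 2) * x = d' * x + 2 * x := by ring
  obtain ⟨w, hw⟩ : ∃ w, β = w + x := ⟨β - x, by omega⟩
  obtain ⟨j, hj⟩ : ∃ j, j = x * x + (d' + 1) * x + r := ⟨_, rfl⟩
  have e1 : (d' + 1) * x = d' * x + x := by ring
  have e2 : (x + 1) * (x + 1) + (d' + 2) * (x + 1) + r =
      x * x + (d' + 1) * x + r + (3 * x + 3 + d') := by ring
  have hjw : j ≤ w := by omega
  have hj1 : 1 ≤ j := by
    by_contra hc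
    have hj0 : j = 0 := by omega
    have hx0 : x * x = 0 := by omega
    have hx00 : x = 0 := by
      rcases Nat.mul_eq_zero.mp hx0 with h | h <;> exact h
    rw [hx00] at e2 hx2' hj
    omega
  have hUV : w * (w + 2 * x + (d' + 1)) + j = u := by
    rw [hj, hu, ← hgr, hw]; ring
  have hR := rect w (w + 2 * x + (d' + 1)) (by omega) (by omega)
  have a2 : w * (w + 2 * x + (d' + 1) + 1) = w * (w + 2 * x + (d' + 1)) + w := by ring
  have a3 : (w + 1) * (w + 2 * x + (d' + 1)) =
      w * (w + 2 * x + (d' + 1)) + (w + 2 * x + (d' + 1)) := by ring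
  have a4 : (w + 1) * (w + 2 * x + (d' + 1) + 1) =
      w * (w + 2 * x + (d' + 1)) + (2 * w + 2 * x + d' + 2) := by ring
  have v1 : lam (w * (w + 2 * x + (d' + 1))) = -s := neg j _ hj1 (by omega) hUV
  have v2 : lam (w * (w + 2 * x + (d' + 1) + 1)) = s := pos (w - j) _ (by omega) (by omega)
  have v3 : lam ((w + 1) * (w + 2 * x + (d' + 1))) = s :=
    pos (w + 2 * x + (d' + 1) - j) _ (by omega) (by omega)
  have v4 : lam ((w + 1) * (w + 2 * x + (d' + 1) + 1)) = s :=
    pos (2 * w + 2 * x + d' + 2 - j) _ (by omega) (by omega)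
  rw [v1, v2, v3, v4] at hR
  have := st.ss
  have e3 : -s * s * s * s = -((s * s) * (s * s)) := by ring
  rw [e3, this] at hR
  norm_num at hR

/-- no break, with given x and d' -/
theorem caseI_gen (u β B g d' x : ℕ) (s : ℤ) (st : Str u β B s s) (hu : u = β * (β + 1) + g)
    (hdg : β * d' ≤ g) (hxβ : x + 1 ≤ β) (j : ℕ) (hj : j = x * x + (d' + 1) * x + (g - β * d'))
    (hP4 : 2 * β + d' + 2 ≤ B + 1 + j)
    (hor : (1 ≤ j ∧ j + x ≤ β) ∨ (β + x + d' + 2 ≤ j ∧ j ≤ B ∧ j ≤ 2 * β + d' + 2)) :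
    False := by
  have pos : ∀ i a, i ≤ B + 1 → a = u + i → lam a = s := by
    intro i a h1 h2
    rw [h2]
    rcases Nat.lt_or_ge β i with h | h
    · exact st.far i h h1
    · exact st.near i h
  have neg : ∀ i a, 1 ≤ i → i ≤ B → a + i = u → lam a = -s := by
    intro i a h1 h2 h3
    rcases Nat.lt_or_ge β i with h | h
    · exact st.lfar i a h h2 h3
    · exact st.lnear i a h1 h h3
  obtain ⟨r, hr⟩ : ∃ r, g = β * d' + r := ⟨g - β * d', by omega⟩
  obtain ⟨w, hw⟩ : ∃ w, β = w + x := ⟨β - x, by omega⟩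
  have hjr : j = x * x + (d' + 1) * x + r := by rw [hj, hr]; omega
  have hUV : w * (w + 2 * x + (d' + 1)) + j = u := by
    rw [hjr, hu, hr, hw]; ring
  have hR := rect w (w + 2 * x + (d' + 1)) (by omega) (by omega)
  have a2 : w * (w + 2 * x + (d' + 1) + 1) = w * (w + 2 * x + (d' + 1)) + w := by ring
  have a3 : (w + 1) * (w + 2 * x + (d' + 1)) =
      w * (w + 2 * x + (d' + 1)) + (w + 2 * x + (d' + 1)) := by ring
  have a4 : (w + 1) * (w + 2 * x + (d' + 1) + 1) =
      w * (w + 2 * x + (d' + 1)) + (2 * w + 2 * x + d' + 2) := by ring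
  rcases hor with ⟨h1, h2⟩ | ⟨h1, h2, h3⟩
  · have hβB : β ≤ B + 1 ∨ B + 1 < β := by omega
    rcases hβB with hβB | hβB
    · rcases Nat.lt_or_ge B j with hjB | hjB
      · omega
      · have v1 : lam (w * (w + 2 * x + (d' + 1))) = -s := neg j _ h1 hjB hUV
        have v2 : lam (w * (w + 2 * x + (d' + 1) + 1)) = s := pos (w - j) _ (by omega) (by omega)
        have v3 : lam ((w + 1) * (w + 2 * x + (d' + 1))) = s :=
          pos (w + 2 * x + (d' + 1) - j) _ (by omega) (by omega)
        have v4 : lam ((w + 1) * (w + 2 * x + (d' + 1) + 1)) = s :=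
          pos (2 * w + 2 * x + d' + 2 - j) _ (by omega) (by omega)
        rw [v1, v2, v3, v4] at hR
        have := st.ss
        have e3 : -s * s * s * s = -((s * s) * (s * s)) := by ring
        rw [e3, this] at hR
        norm_num at hR
    · omega
  · have v1 : lam (w * (w + 2 * x + (d' + 1))) = -s := neg j _ (by omega) h2 hUV
    have v2 : lam (w * (w + 2 * x + (d' + 1) + 1)) = -s :=
      neg (j - w) _ (by omega) (by omega) (by omega)
    have v3 : lam ((w + 1) * (w + 2 * x + (d' + 1))) = -s :=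
      neg (j - (w + 2 * x + (d' + 1))) _ (by omega) (by omega) (by omega)
    have v4 : lam ((w + 1) * (w + 2 * x + (d' + 1) + 1)) = s :=
      pos (2 * w + 2 * x + d' + 2 - j) _ (by omega) (by omega)
    rw [v1, v2, v3, v4] at hR
    have := st.ss
    have e3 : -s * -s * -s * s = -((s * s) * (s * s)) := by ring
    rw [e3, this] at hR
    norm_num at hR

/-- break at u = β(β+1) -/
theorem caseII0 (u β B : ℕ) (s t : ℤ) (st : Str u β B s t) (hu : u = β * (β + 1))
    (hβ : 22 ≤ β) (hB : 2 * u < (B + 1) * (B + 1) + 2) : t = s := by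
  have hBx := B_141 u β B hβ (by omega) hB
  apply st_one s t st.ss
  obtain ⟨w, hw⟩ : ∃ w, β = w + 1 := ⟨β - 1, by omega⟩
  have hR := rect w (w + 2) (by omega) (by omega)
  have v1 : lam (w * (w + 2)) = -t := st.lfar (w + 2) _ (by omega) (by omega) (by
    rw [hu, hw]; ring)
  have v3 : lam ((w + 1) * (w + 2)) = s := by
    have := st.near 0 (by omega)
    rw [show (w + 1) * (w + 2) = u + 0 by rw [hu, hw]; ring]
    exact this
  have v2 : lam (w * (w + 2 + 1)) = -s := st.lnear 2 _ (by omega) (by omega) (by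
    rw [hu, hw]; ring)
  have v4 : lam ((w + 1) * (w + 2 + 1)) = s := by
    rw [show (w + 1) * (w + 2 + 1) = u + β by rw [hu, hw]; ring]
    exact st.near β le_rfl
  rw [v1, v2, v3, v4] at hR
  have e : -t * s * -s * s = (s * t) * (s * s) := by ring
  rw [e, st.ss, mul_one] at hR
  exact hR

/-- break at u = β(β+1) + 1 -/
theorem caseII1 (u β B : ℕ) (s t : ℤ) (st : Str u β B s t) (hu : u = β * (β + 1) + 1)
    (hβ : 22 ≤ β) (hB : 2 * u < (B + 1) * (B + 1) + 2) : t = s := by
  apply st_one s t st.ss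
  obtain ⟨x, hx⟩ : ∃ x, x = β.sqrt := ⟨_, rfl⟩
  have hx1 : x * x ≤ β := by rw [hx]; exact Nat.sqrt_le β
  have hx2 : β < (x + 1) * (x + 1) := by rw [hx]; exact Nat.lt_succ_sqrt β
  have hx4 : 4 ≤ x := by rw [hx, Nat.le_sqrt]; omega
  have hBx := B_141 u β B hβ (by omega) hB
  have h5x := five_x x β hβ hx1
  have hxx : 4 * x ≤ x * x := Nat.mul_le_mul_right x hx4
  have e1 : (x + 1) * (x + 1) = x * x + 2 * x + 1 := by ring
  obtain ⟨w, hw⟩ : ∃ w, β = w + x := ⟨β - x, by omega⟩
  rcases Nat.lt_trichotomy (x * x + x) β with hc | hc | hc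
  · -- j = x^2 + x + 1 ≤ β
    have hR := rect w (w + 2 * x + 1) (by omega) (by omega)
    have hUV : w * (w + 2 * x + 1) + (x * x + x + 1) = u := by rw [hu, hw]; ring
    have a2 : w * (w + 2 * x + 1 + 1) = w * (w + 2 * x + 1) + w := by ring
    have a3 : (w + 1) * (w + 2 * x + 1) = w * (w + 2 * x + 1) + (w + 2 * x + 1) := by ring
    have a4 : (w + 1) * (w + 2 * x + 1 + 1) = w * (w + 2 * x + 1) + (2 * w + 2 * x + 2) := by ring
    have v1 : lam (w * (w + 2 * x + 1)) = -s :=
      st.lnear (x * x + x + 1) _ (by omega) (by omega) hUV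
    have v2 : lam (w * (w + 2 * x + 1 + 1)) = -s :=
      st.lnear (x * x + x + 1 - w) _ (by omega) (by omega) (by omega)
    have v3 : lam ((w + 1) * (w + 2 * x + 1)) = s := by
      rw [show (w + 1) * (w + 2 * x + 1) = u + (w + x - x * x) by omega]
      exact st.near _ (by omega)
    have v4 : lam ((w + 1) * (w + 2 * x + 1 + 1)) = t := by
      rw [show (w + 1) * (w + 2 * x + 1 + 1) = u + (2 * w + 2 * x + 2 - (x * x + x + 1)) by omega]
      exact st.far _ (by omega) (by omega)
    rw [v1, v2, v3, v4] at hR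
    have e : -s * s * -s * t = (s * t) * (s * s) := by ring
    rw [e, st.ss, mul_one] at hR
    exact hR
  · -- β = x^2 + x
    obtain ⟨v, hv⟩ : ∃ v, β + 1 = v + 2 * x := ⟨β + 1 - 2 * x, by omega⟩
    have hR := rect v (v + 4 * x + 2) (by omega) (by omega)
    have hUV : v * (v + 4 * x + 2) = β * β + 3 := by
      have h1 : (v * (v + 4 * x + 2) : ℤ) = β * β + 3 := by
        have h2 : (v : ℤ) = β + 1 - 2 * x := by
          have : (β : ℤ) + 1 = v + 2 * x := by exact_mod_cast hv
          linarith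
        have h3 : (β : ℤ) = x * x + x := by exact_mod_cast hc.symm
        rw [h2, h3]; ring
      exact_mod_cast h1
    have hu' : u = β * β + β + 1 := by rw [hu]; ring
    have a2 : v * (v + 4 * x + 2 + 1) = v * (v + 4 * x + 2) + v := by ring
    have a3 : (v + 1) * (v + 4 * x + 2) = v * (v + 4 * x + 2) + (v + 4 * x + 2) := by ring
    have a4 : (v + 1) * (v + 4 * x + 2 + 1) = v * (v + 4 * x + 2) + (2 * v + 4 * x + 3) := by ring
    have v1 : lam (v * (v + 4 * x + 2)) = -s :=
      st.lnear (β - 2) _ (by omega) (by omega) (by omega)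
    have v2 : lam (v * (v + 4 * x + 2 + 1)) = -s :=
      st.lnear (2 * x - 3) _ (by omega) (by omega) (by omega)
    have v3 : lam ((v + 1) * (v + 4 * x + 2)) = s := by
      rw [show (v + 1) * (v + 4 * x + 2) = u + (2 * x + 5) by omega]
      exact st.near _ (by omega)
    have v4 : lam ((v + 1) * (v + 4 * x + 2 + 1)) = t := by
      rw [show (v + 1) * (v + 4 * x + 2 + 1) = u + (β + 7) by omega]
      exact st.far _ (by omega) (by omega)
    rw [v1, v2, v3, v4] at hR
    have e : -s * s * -s * t = (s * t) * (s * s) := by ring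
    rw [e, st.ss, mul_one] at hR
    exact hR
  · -- j = x^2 + x + 1 ≥ β + 2
    have hR := rect w (w + 2 * x + 1) (by omega) (by omega)
    have hUV : w * (w + 2 * x + 1) + (x * x + x + 1) = u := by rw [hu, hw]; ring
    have a2 : w * (w + 2 * x + 1 + 1) = w * (w + 2 * x + 1) + w := by ring
    have a3 : (w + 1) * (w + 2 * x + 1) = w * (w + 2 * x + 1) + (w + 2 * x + 1) := by ring
    have a4 : (w + 1) * (w + 2 * x + 1 + 1) = w * (w + 2 * x + 1) + (2 * w + 2 * x + 2) := by ring
    have v1 : lam (w * (w + 2 * x + 1)) = -t :=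
      st.lfar (x * x + x + 1) _ (by omega) (by omega) hUV
    have v2 : lam (w * (w + 2 * x + 1 + 1)) = -s :=
      st.lnear (x * x + x + 1 - w) _ (by omega) (by omega) (by omega)
    have v3 : lam ((w + 1) * (w + 2 * x + 1)) = s := by
      rw [show (w + 1) * (w + 2 * x + 1) = u + (w + x - x * x) by omega]
      exact st.near _ (by omega)
    have v4 : lam ((w + 1) * (w + 2 * x + 1 + 1)) = s := by
      rw [show (w + 1) * (w + 2 * x + 1 + 1) = u + (2 * w + 2 * x + 2 - (x * x + x + 1)) by omega]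
      exact st.near _ (by omega)
    rw [v1, v2, v3, v4] at hR
    have e : -t * s * -s * s = (s * t) * (s * s) := by ring
    rw [e, st.ss, mul_one] at hR
    exact hR

end Pool.Agent.H447R4.PA
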