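import Pool.Agent.H447R4.PA.Lev2

set_option autoImplicit false

/-!
Integers with an even number of prime factors between consecutive squares: every n ≥ 2.
-/

namespace Pool.Agent.H447R4.PA

/-- test of j -/
def tj (β C d x j : ℕ) : Bool :=
  Nat.ble (2 * β + d + 2) (C + 1 + j) && ((Nat.ble 1 j && Nat.ble (j + x) β) ||
    (Nat.ble (β + x + d + 2) j && (Nat.ble j C && Nat.ble j (2 * β + d + 2))))

/-- test of (d, x) -/
def tst (β C g d x : ℕ) : Bool :=
  Nat.ble (β * d) g && (Nat.ble (x + 1) β && tj β C d x (x * x + (d + 1) * x + (g - β * d)))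

/-- search for x -/
def anyx : ℕ → ℕ → ℕ → ℕ → ℕ → Bool
  | 0, _, _, _, _ => false
  | k + 1, β, C, g, d => if tst β C g d k then true else anyx k β C g d

theorem anyx_spec (k : ℕ) : ∀ β C g d : ℕ, anyx k β C g d = true → ∃ x, tst β C g d x = true := by
  induction k with
  | zero => intro β C g d h; simp [anyx] at h
  | succ k ih =>
    intro β C g d h
    unfold anyx at h
    split_ifs at h with h1
    · exact ⟨k, h1⟩
    · exact ih β C g d h

/-- search for (d, x) -/
def okg (β C g : ℕ) : Bool := if anyx 10 β C g (g / β) then true else anyx 10 β C g (g / β - 1)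

theorem okg_spec (β C g : ℕ) (h : okg β C g = true) : ∃ d x, tst β C g d x = true := by
  unfold okg at h
  split_ifs at h with h1
  · obtain ⟨x, hx⟩ := anyx_spec _ _ _ _ _ h1
    exact ⟨_, x, hx⟩
  · obtain ⟨x, hx⟩ := anyx_spec _ _ _ _ _ h
    exact ⟨_, x, hx⟩

/-- all g < m -/
def allg : ℕ → ℕ → ℕ → Bool
  | 0, _, _ => true
  | m + 1, β, C => if okg β C m then allg m β C else false

theorem allg_spec (m : ℕ) : ∀ β C : ℕ, allg m β C = true → ∀ g, g < m → okg β C g = true := by
  induction m with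
  | zero => intro β C _ g hg; omega
  | succ m ih =>
    intro β C h g hg
    unfold allg at h
    split_ifs at h with h1
    rcases Nat.lt_or_ge g m with h2 | h2
    · exact ih β C h g h2
    · have : g = m := by omega
      rw [this]; exact h1

/-- all β in [22, 22 + k) -/
def allb : ℕ → Bool
  | 0 => true
  | k + 1 => if allg (2 * (22 + k) + 2) (22 + k) (141 * (22 + k) / 100) then allb k else false

theorem allb_spec (k : ℕ) : allb k = true → ∀ β, 22 ≤ β → β < 22 + k →
    allg (2 * β + 2) β (141 * β / 100) = true := by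
  induction k with
  | zero => intro _ β h1 h2; omega
  | succ k ih =>
    intro h β h1 h2
    unfold allb at h
    split_ifs at h with h3
    rcases Nat.lt_or_ge β (22 + k) with h4 | h4
    · exact ih h β h1 h4
    · have : β = 22 + k := by omega
      rw [this]; exact h3

theorem allb_ok : allb 78 = true := by decide +kernel

theorem caseI_small (u β B g : ℕ) (s : ℤ) (st : Str u β B s s) (hu : u = β * (β + 1) + g)
    (hg : g ≤ 2 * β + 1) (hβ : 22 ≤ β) (hβ' : β < 100) (hB : 2 * u < (B + 1) * (B + 1) + 2) :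
    False := by
  have h141 := B_141 u β B hβ (by omega) hB
  obtain ⟨d, x, h⟩ := okg_spec _ _ _ (allg_spec _ _ _ (allb_spec 78 allb_ok β hβ (by omega)) g
    (by omega))
  unfold tst tj at h
  simp only [Bool.and_eq_true, Bool.or_eq_true, Nat.ble_eq] at h
  obtain ⟨h1, h2, h3, h4⟩ := h
  refine caseI_gen u β B g d x s st hu h1 h2 _ rfl (by omega) ?_
  rcases h4 with ⟨h5, h6⟩ | ⟨h5, h6, h7⟩
  · exact Or.inl ⟨h5, h6⟩
  · exact Or.inr ⟨h5, by omega, h7⟩

theorem lev_large (n : ℕ) (hn : 506 ≤ n) : ∃ y, n ^ 2 < y ∧ y < (n + 1) ^ 2 ∧ lam y = 1 := by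
  by_contra hno
  push Not at hno
  have h : ∀ y, n ^ 2 < y → y < (n + 1) ^ 2 → lam y = -1 := by
    intro y h1 h2
    rcases lam_CM.val y (by omega) with h3 | h3
    · exact absurd h3 (hno y h1 h2)
    · exact h3
  obtain ⟨β, h1, h2⟩ := exists_max (fun b => b * (b + 1) ≤ n + 1) (by simp) (n + 2) (by
    show ¬ ((n + 2) * (n + 2 + 1) ≤ n + 1)
    nlinarith)
  have hβ1 : β * (β + 1) ≤ n + 1 := h1
  have hβ2 : n + 1 < (β + 1) * (β + 2) := by
    by_contra hc
    exact h2 (not_lt.mp hc)
  have hβ : 22 ≤ β := by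
    by_contra hc
    have : (β + 1) * (β + 2) ≤ 22 * 23 := Nat.mul_le_mul (by omega) (by omega)
    omega
  obtain ⟨st, hst⟩ := str_of n β (by omega) h hβ1 hβ2
  have hB2 : 2 * n < ((2 * n).sqrt + 1) * ((2 * n).sqrt + 1) := Nat.lt_succ_sqrt _
  have hB : 2 * (n + 1) < ((2 * n).sqrt + 1) * ((2 * n).sqrt + 1) + 2 := by omega
  have hts : lam (n + 1 + (β + 1)) = lam (n + 1) := by
    rcases (show n + 1 = β * (β + 1) ∨ n + 1 = β * (β + 1) + 1 ∨ β * (β + 1) + 2 ≤ n + 1 by omega)
      with h3 | h3 | h3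
    · exact caseII0 (n + 1) β _ _ _ st h3 hβ hB
    · exact caseII1 (n + 1) β _ _ _ st h3 hβ hB
    · exact hst h3
  rw [hts] at st
  have e : (β + 1) * (β + 2) = β * (β + 1) + (2 * β + 2) := by ring
  rcases Nat.lt_or_ge β 100 with hβ' | hβ'
  · exact caseI_small (n + 1) β _ (n + 1 - β * (β + 1)) _ st (by omega) (by omega) hβ hβ' hB
  · exact caseI (n + 1) β _ (n + 1 - β * (β + 1)) _ st (by omega) (by omega) hβ' hB

/-- search for b -/
def evn : ℕ → ℕ → ℕ → Bool
  | 0, _, _ => false
  | f + 1, u, b =>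
    if (Nat.beq (par (u - b)) (par (u + b)) && Nat.ble (par (u - b)) 1) = true then
      Nat.ble (b * b + 2) (2 * u)
    else evn f u (b + 1)

theorem evn_spec (f : ℕ) : ∀ u b : ℕ, 1 ≤ b → evn f u b = true →
    ∃ b', 1 ≤ b' ∧ par (u - b') = par (u + b') ∧ par (u - b') < 2 ∧ b' * b' + 2 ≤ 2 * u := by
  induction f with
  | zero => intro u b _ h; simp [evn] at h
  | succ f ih =>
    intro u b hb h
    unfold evn at h
    split_ifs at h with h1
    · rw [Bool.and_eq_true, Nat.beq_eq, Nat.ble_eq] at h1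
      exact ⟨b, hb, h1.1, by omega, Nat.le_of_ble_eq_true h⟩
    · exact ih u (b + 1) (by omega) h

/-- scan -/
def sc : ℕ → ℕ → Bool
  | 0, _ => false
  | f + 1, y => if par y = 0 then true else sc f (y + 1)

theorem sc_spec (f : ℕ) : ∀ y : ℕ, sc f y = true → ∃ y', y ≤ y' ∧ y' < y + f ∧ par y' = 0 := by
  induction f with
  | zero => intro y h; simp [sc] at h
  | succ f ih =>
    intro y h
    unfold sc at h
    split_ifs at h with h1
    · exact ⟨y, le_rfl, by omega, h1⟩
    · obtain ⟨y', h2, h3, h4⟩ := ih (y + 1) h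
      exact ⟨y', by omega, by omega, h4⟩

/-- all n in [k, k+m), scan -/
def alls : ℕ → ℕ → Bool
  | 0, _ => true
  | m + 1, k => if sc (2 * k) (k * k + 1) then alls m (k + 1) else false

theorem alls_spec (m : ℕ) : ∀ k : ℕ, alls m k = true → ∀ n, k ≤ n → n < k + m →
    sc (2 * n) (n * n + 1) = true := by
  induction m with
  | zero => intro k _ n h1 h2; omega
  | succ m ih =>
    intro k h n h1 h2
    unfold alls at h
    split_ifs at h with h3
    rcases Nat.lt_or_ge k n with h4 | h4
    · exact ih (k + 1) h n (by omega) (by omega)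
    · have : n = k := by omega
      rw [this]; exact h3

/-- all u in [k, k+m), search -/
def alle : ℕ → ℕ → Bool
  | 0, _ => true
  | m + 1, k => if evn 60 k 1 then alle m (k + 1) else false

theorem alle_spec (m : ℕ) : ∀ k : ℕ, alle m k = true → ∀ u, k ≤ u → u < k + m →
    evn 60 u 1 = true := by
  induction m with
  | zero => intro k _ n h1 h2; omega
  | succ m ih =>
    intro k h n h1 h2
    unfold alle at h
    split_ifs at h with h3
    rcases Nat.lt_or_ge k n with h4 | h4
    · exact ih (k + 1) h n (by omega) (by omega)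
    · have : n = k := by omega
      rw [this]; exact h3

theorem alls_ok : alls 198 2 = true := by decide +kernel

theorem alle_ok : alle 306 201 = true := by decide +kernel

end Pool.Agent.H447R4.PA
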