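import Pool.Agent.H447R4.PA.Lev3

set_option autoImplicit false

/-!
Integers with an even number of prime factors between consecutive squares: every n ≥ 2.
-/

namespace Pool.Agent.H447R4.PA

theorem legendre_even (n : ℕ) (hn : 2 ≤ n) : ∃ y, n ^ 2 < y ∧ y < (n + 1) ^ 2 ∧ lam y = 1 := by
  rcases Nat.lt_or_ge n 200 with h | h
  · obtain ⟨y, h1, h2, h3⟩ := sc_spec _ _ (alls_spec 198 2 alls_ok n hn (by omega))
    have e1 : n ^ 2 = n * n := by ring
    have e2 : (n + 1) ^ 2 = n * n + 2 * n + 1 := by ring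
    refine ⟨y, by omega, by omega, ?_⟩
    rw [lam_eq_one, par_spec y (by omega) (by omega), h3]
  rcases Nat.lt_or_ge n 506 with h' | h'
  · obtain ⟨b, h1, h2, h3, h4⟩ := evn_spec 60 (n + 1) 1 le_rfl
      (alle_spec 306 201 alle_ok (n + 1) (by omega) (by omega))
    have hbn : b ≤ n := by
      by_contra hc
      have : (n + 1) * (n + 1) ≤ b * b := Nat.mul_le_mul (by omega) (by omega)
      nlinarith
    obtain ⟨v, hv⟩ : ∃ v, n + 1 = v + b := ⟨n + 1 - b, by omega⟩
    have e0 : n + 1 - b = v := by omega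
    rw [e0] at h2 h3
    have hb1 : 1 ≤ b * b := Nat.mul_pos h1 h1
    have e2 : (n + 1) ^ 2 = n ^ 2 + (2 * n + 1) := by ring
    have e1 : v * (n + 1 + b) + b * b = (n + 1) ^ 2 := by rw [hv]; ring
    refine ⟨v * (n + 1 + b), by omega, by omega, ?_⟩
    rw [lam_CM.mul v (n + 1 + b) (by omega) (by omega)]
    have p1 := par_spec v (by omega) h3
    have p2 := par_spec (n + 1 + b) (by omega) (by omega)
    rcases (show par v = 0 ∨ par v = 1 by omega) with h5 | h5
    · rw [(lam_eq_one v).mpr (by omega), (lam_eq_one (n + 1 + b)).mpr (by omega)]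
      norm_num
    · rw [(lam_eq_neg_one v).mpr (by omega), (lam_eq_neg_one (n + 1 + b)).mpr (by omega)]
      norm_num
  · exact lev_large n h'

end Pool.Agent.H447R4.PA
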