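import Pool.Agent.H376R2.MR.Defs

set_option autoImplicit false

/-!
From a positive proportion of sign changes of the Liouville function in [1, X] to a positive
proportion of sign changes in each dyadic window (X, 2X].
-/

namespace Pool.Agent.H447R4.PA

open Finset


/-- the number of sign changes in (a, b] -/
noncomputable def W (a b : ℕ) : ℕ := ((Finset.Ioc a b).filter (fun n => H376R2.MR.lam n ≠ H376R2.MR.lam (n + 1))).card

theorem lm_two (m : ℕ) (hm : 1 ≤ m) : H376R2.MR.lam (2 * m) = - H376R2.MR.lam m := by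
  unfold Pool.Agent.H376R2.MR.lam
  rw [ArithmeticFunction.cardFactors_mul (by norm_num) (by omega), pow_add,
    ArithmeticFunction.cardFactors_apply_prime Nat.prime_two]
  ring

theorem W_dbl (a b : ℕ) : W a b ≤ W (2 * a + 1) (2 * b + 1) := by
  unfold W
  refine Finset.card_le_card_of_injOn
    (fun m => if H376R2.MR.lam (2 * m) ≠ H376R2.MR.lam (2 * m + 1) then 2 * m else 2 * m + 1) ?_ ?_
  · intro m hm
    have hm' := Finset.mem_filter.mp (Finset.mem_coe.mp hm)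
    obtain ⟨h1, h2⟩ := hm'
    rw [Finset.mem_Ioc] at h1
    apply Finset.mem_coe.mpr
    rw [Finset.mem_filter, Finset.mem_Ioc]
    simp only
    split_ifs with h3
    · exact ⟨by omega, h3⟩
    · refine ⟨by omega, ?_⟩
      push Not at h3
      rw [← h3, lm_two m (by omega), show 2 * m + 1 + 1 = 2 * (m + 1) by ring,
        lm_two (m + 1) (by omega)]
      intro h4
      exact h2 (neg_injective h4)
  · intro m _ m' _ h
    simp only at h
    split_ifs at h <;> omega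

theorem W_split (a b c : ℕ) (h1 : a ≤ b) (h2 : b ≤ c) : W a c = W a b + W b c := by
  unfold W
  rw [← Finset.Ioc_union_Ioc_eq_Ioc h1 h2, Finset.filter_union, Finset.card_union_of_disjoint]
  rw [Finset.disjoint_left]
  intro y hy1 hy2
  rw [Finset.mem_filter, Finset.mem_Ioc] at hy1 hy2
  omega

theorem W_succ (a : ℕ) : W a (a + 1) ≤ 1 := by
  unfold W
  refine (Finset.card_filter_le _ _).trans ?_
  rw [Nat.card_Ioc]; omega

theorem W_mono (a b a' b' : ℕ) (h1 : a' ≤ a) (h2 : b ≤ b') : W a b ≤ W a' b' := by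
  unfold W
  apply Finset.card_le_card
  apply Finset.filter_subset_filter
  intro y hy
  rw [Finset.mem_Ioc] at *
  omega

/-- d(n) -/
noncomputable def dd (n : ℕ) : ℕ := W n (2 * n)

theorem dd_half (n : ℕ) : dd (n / 2) ≤ dd n + 1 := by
  unfold dd
  have h0 := W_dbl (n / 2) (2 * (n / 2))
  rcases Nat.even_or_odd' n with ⟨k, rfl | rfl⟩
  · rw [Nat.mul_div_cancel_left k (by norm_num)] at *
    have h1 : W (2 * k + 1) (2 * (2 * k) + 1) ≤ W (2 * k) (2 * (2 * k) + 1) :=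
      W_mono _ _ _ _ (by omega) le_rfl
    have h2 := W_split (2 * k) (2 * (2 * k)) (2 * (2 * k) + 1) (by omega) (by omega)
    have h3 := W_succ (2 * (2 * k))
    omega
  · have hk : (2 * k + 1) / 2 = k := by omega
    rw [hk] at h0
    rw [hk]
    have h1 : W (2 * k + 1) (2 * (2 * k) + 1) ≤ W (2 * k + 1) (2 * (2 * k + 1)) :=
      W_mono _ _ _ _ le_rfl (by omega)
    omega

theorem dd_pow (n j : ℕ) : dd (n / 2 ^ j) ≤ dd n + j := by
  induction j with
  | zero => simp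
  | succ j ih =>
    have h := dd_half (n / 2 ^ j)
    rw [Nat.div_div_eq_div_mul, ← pow_succ] at h
    omega

theorem W0_half (n : ℕ) : W 0 n ≤ W 0 (n / 2) + dd (n / 2) + 1 := by
  unfold dd
  have h1 := W_split 0 (n / 2) (2 * (n / 2)) (by omega) (by omega)
  have h2 := W_split 0 (2 * (n / 2)) (2 * (n / 2) + 1) (by omega) (by omega)
  have h3 := W_succ (2 * (n / 2))
  have h4 : W 0 n ≤ W 0 (2 * (n / 2) + 1) := W_mono _ _ _ _ le_rfl (by omega)
  omega

theorem W0_pow (n J : ℕ) : W 0 n ≤ J * (dd n + J + 1) + W 0 (n / 2 ^ J) := by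
  induction J with
  | zero => simp
  | succ J ih =>
    have h1 := W0_half (n / 2 ^ J)
    rw [Nat.div_div_eq_div_mul, ← pow_succ] at h1
    have h2 := dd_pow n (J + 1)
    nlinarith

theorem chg_eq (n : ℕ) : Pool.Agent.H376R2.MR.chg n = W 0 n := by
  unfold Pool.Agent.H376R2.MR.chg W
  rfl

/-- positive proportion of sign changes in each dyadic window -/
theorem window (h : ∃ ε : ℝ, 0 < ε ∧ ∃ X₀ : ℕ, ∀ X : ℕ, X₀ ≤ X →
    ε * X ≤ (Pool.Agent.H376R2.MR.chg X : ℝ)) :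
    ∃ δ : ℝ, 0 < δ ∧ ∃ n₀ : ℕ, ∀ n : ℕ, n₀ ≤ n → δ * n ≤ (W n (2 * n) : ℝ) := by
  obtain ⟨ε, hε, X₀, hX⟩ := h
  obtain ⟨J, hJ⟩ := exists_pow_lt_of_lt_one (show 0 < ε / 4 by positivity)
    (show (1 / 2 : ℝ) < 1 by norm_num)
  obtain ⟨n₁, hn₁⟩ := exists_nat_ge ((((J + 1) * (J + 2) : ℕ) : ℝ) * (4 / ε))
  refine ⟨ε / (2 * (J + 1)), by positivity, max X₀ n₁, ?_⟩
  intro n hn
  have h1 := hX n (le_trans (le_max_left _ _) hn)
  rw [chg_eq] at h1
  have h2 := W0_pow n (J + 1)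
  have h3 : W 0 (n / 2 ^ (J + 1)) ≤ n / 2 ^ (J + 1) := by
    unfold W
    refine (Finset.card_filter_le _ _).trans ?_
    rw [Nat.card_Ioc, Nat.sub_zero]
  have h4 : ((n / 2 ^ (J + 1) : ℕ) : ℝ) ≤ (ε / 4) * n := by
    have h5 : ((n / 2 ^ (J + 1) : ℕ) : ℝ) ≤ (n : ℝ) / ((2 ^ (J + 1) : ℕ) : ℝ) := Nat.cast_div_le
    have h6 : (n : ℝ) / ((2 ^ (J + 1) : ℕ) : ℝ) = n * (1 / 2) ^ (J + 1) := by
      push_cast
      rw [one_div, inv_pow]
      rfl
    have h7 : (1 / 2 : ℝ) ^ (J + 1) ≤ ε / 4 := by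
      rw [pow_succ]
      have : (0 : ℝ) < (1 / 2) ^ J := by positivity
      linarith
    have hn0 : (0 : ℝ) ≤ n := Nat.cast_nonneg n
    rw [h6] at h5
    nlinarith
  have h8 : (W 0 n : ℝ) ≤ (J + 1) * (W n (2 * n) + (J + 1) + 1) + (ε / 4) * n := by
    have h9 : (W 0 n : ℝ) ≤ (((J + 1) * (dd n + (J + 1) + 1) + W 0 (n / 2 ^ (J + 1)) : ℕ) : ℝ) := by
      exact_mod_cast h2
    have h10 : (W 0 (n / 2 ^ (J + 1)) : ℝ) ≤ ((n / 2 ^ (J + 1) : ℕ) : ℝ) := by exact_mod_cast h3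
    have h11 : (dd n : ℝ) = (W n (2 * n) : ℝ) := rfl
    push_cast at h9
    rw [h11] at h9
    push_cast at h4 h10
    linarith
  have h12 : (((J + 1) * (J + 2) : ℕ) : ℝ) ≤ (ε / 4) * n := by
    have h13 : (n₁ : ℝ) ≤ n := by exact_mod_cast le_trans (le_max_right _ _) hn
    have h14 : (((J + 1) * (J + 2) : ℕ) : ℝ) * (4 / ε) ≤ n := le_trans hn₁ h13
    rw [mul_div_assoc', div_le_iff₀ hε] at h14
    linarith
  push_cast at h12
  have h15 : (ε / 2) * n ≤ (J + 1) * (W n (2 * n) : ℝ) := by nlinarith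
  rw [div_mul_eq_mul_div, div_le_iff₀ (by positivity)]
  linarith

end Pool.Agent.H447R4.PA
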